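import Mathlib

/-!
# The rational numbers from a sequence of roots
-/

set_option autoImplicit false

namespace Pool.Agent.H350.QAR

variable {G : Type*} [Group G]

/-- the quotient `(n + m + 1)! / (n + 1)!` -/
def Qf (n : ℕ) : ℕ → ℕ
  | 0 => 1
  | m + 1 => (n + m + 2) * Qf n m

lemma Qf_fact (n m : ℕ) : (n + m + 1).factorial = Qf n m * (n + 1).factorial := by
  induction m with
  | zero => simp [Qf]
  | succ m ih =>
    have e : n + (m + 1) + 1 = (n + m + 1) + 1 := by ring
    rw [e, Nat.factorial_succ, ih, Qf]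
    ring

lemma Qf_pow {d : ℕ → G} (hd : ∀ n, d (n + 1) ^ (n + 2) = d n) (n m : ℕ) :
    d (n + m) ^ Qf n m = d n := by
  induction m with
  | zero => simp [Qf]
  | succ m ih =>
    rw [Qf, pow_mul, ← add_assoc, hd (n + m), ih]

lemma exists_int (q : ℚ) {n : ℕ} (h : q.den ≤ n) : ∃ z : ℤ, (z : ℚ) = q * (n + 1).factorial := by
  have h1 : q.den ∣ (n + 1).factorial := Nat.dvd_factorial q.den_pos (by omega)
  obtain ⟨k, hk⟩ := h1
  refine ⟨q.num * k, ?_⟩
  rw [hk]
  push_cast
  have h2 : q * q.den = q.num := Rat.mul_den_eq_num q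
  rw [← mul_assoc, h2]

lemma same_val {d : ℕ → G} (hd : ∀ n, d (n + 1) ^ (n + 2) = d n) {q : ℚ} {n m : ℕ} (h : n ≤ m)
    {z y : ℤ} (hz : (z : ℚ) = q * (n + 1).factorial) (hy : (y : ℚ) = q * (m + 1).factorial) :
    d n ^ z = d m ^ y := by
  obtain ⟨k, rfl⟩ := Nat.exists_eq_add_of_le h
  have h1 : y = Qf n k * z := by
    have : (y : ℚ) = ((Qf n k * z : ℤ) : ℚ) := by
      rw [hy, Qf_fact]
      push_cast
      rw [hz]
      ring
    exact_mod_cast this
  rw [h1, zpow_mul, zpow_natCast, Qf_pow hd]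

lemma same_val' {d : ℕ → G} (hd : ∀ n, d (n + 1) ^ (n + 2) = d n) {q : ℚ} {n m : ℕ}
    {z y : ℤ} (hz : (z : ℚ) = q * (n + 1).factorial) (hy : (y : ℚ) = q * (m + 1).factorial) :
    d n ^ z = d m ^ y := by
  rcases le_total n m with h | h
  · exact same_val hd h hz hy
  · exact (same_val hd h hy hz).symm

/-- A sequence `d 0, d 1, …` with `d (n + 1) ^ (n + 2) = d n`, `d 0` of infinite order, gives
an embedding of the rational numbers. -/
theorem rat_embed (d : ℕ → G) (hd : ∀ n, d (n + 1) ^ (n + 2) = d n)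
    (h0 : ∀ k : ℕ, 0 < k → d 0 ^ k ≠ 1) :
    ∃ f : Multiplicative ℚ →* G, Function.Injective f := by
  let Z : ℚ → ℤ := fun q => (exists_int q (le_refl q.den)).choose
  have hZ : ∀ q : ℚ, ((Z q : ℤ) : ℚ) = q * (q.den + 1).factorial := fun q =>
    (exists_int q (le_refl q.den)).choose_spec
  let F : ℚ → G := fun q => d q.den ^ Z q
  have hF : ∀ (q : ℚ) (n : ℕ) (z : ℤ), (z : ℚ) = q * (n + 1).factorial → F q = d n ^ z :=
    fun q n z hz => same_val' hd (hZ q) hz
  have hadd : ∀ p q : ℚ, F (p + q) = F p * F q := by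
    intro p q
    set n := max p.den q.den
    obtain ⟨y, hy⟩ := exists_int p (le_max_left p.den q.den)
    obtain ⟨z, hz⟩ := exists_int q (le_max_right p.den q.den)
    rw [hF p _ y hy, hF q _ z hz, hF (p + q) n (y + z), zpow_add]
    push_cast
    rw [hy, hz]
    ring
  have hzero : F 0 = 1 := by
    rw [hF 0 0 0 (by simp), zpow_zero]
  let f : Multiplicative ℚ →* G :=
    { toFun := fun q => F (Multiplicative.toAdd q)
      map_one' := hzero
      map_mul' := fun p q => hadd _ _ }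
  refine ⟨f, (injective_iff_map_eq_one f).2 fun q hq => ?_⟩
  have hq' : F (Multiplicative.toAdd q) = 1 := hq
  set p : ℚ := Multiplicative.toAdd q with hp
  have h1 : d p.den ^ Z p = 1 := hq'
  have h2 : d 0 ^ Z p = 1 := by
    have h3 := Qf_pow hd 0 p.den
    rw [zero_add] at h3
    rw [← h3, ← zpow_natCast, ← zpow_mul, mul_comm, zpow_mul, h1, one_zpow]
  have h3 : Z p = 0 := by
    by_contra hne
    have h4 : 0 < (Z p).natAbs := Int.natAbs_pos.2 hne
    apply h0 _ h4
    rcases Int.natAbs_eq (Z p) with h5 | h5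
    · rw [h5, zpow_natCast] at h2
      exact h2
    · rw [h5, zpow_neg, zpow_natCast, inv_eq_one] at h2
      exact h2
  have h4 := hZ p
  rw [h3, Int.cast_zero] at h4
  have h5 : ((p.den + 1).factorial : ℚ) ≠ 0 := by positivity
  have h6 : p = 0 := by
    rcases mul_eq_zero.1 h4.symm with h | h
    · exact h
    · exact absurd h h5
  change q = Multiplicative.ofAdd 0
  rw [← h6, hp]
  rfl

end Pool.Agent.H350.QAR
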