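import Pool.Agent.H350.QAR.Poly

/-!
# Arcs, discs and punctures; the rigid surface
-/

set_option autoImplicit false

namespace Pool.Agent.H350.QAR

open Set Topology Pool.Agent.Q238.AR

/-- a continuous injective image of a compact space -/
lemma homeo_of_inj {K : Type*} [TopologicalSpace K] [CompactSpace K] {f : K → ℂ}
    (hf : Continuous f) (hi : Function.Injective f) {A : Set ℂ} (hA : range f = A) :
    Nonempty (K ≃ₜ A) := by
  subst hA
  have h := hf.isClosedEmbedding hi
  exact ⟨h.isEmbedding.toHomeomorph⟩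

/-- two points of a sector with the same image are equal -/
lemma sector_inj {l : ℕ} {j : ℤ} {r t s : ℝ} (hr : 1 ≤ r)
    (h1 : j - 1 / (8 * r) ≤ U (lev l) t) (h2 : U (lev l) t ≤ j + 1 / 2 + 1 / (8 * r))
    (h3 : j - 1 / (8 * r) ≤ U (lev l) s) (h4 : U (lev l) s ≤ j + 1 / 2 + 1 / (8 * r))
    {m : ℤ} (h : t = s + m) : t = s := by
  obtain ⟨d0, d1⟩ := dl_pos hr
  rw [h, U_add_intCast] at h1 h2
  have hN : (1 : ℝ) ≤ ((lev l).factorial : ℕ) := by exact_mod_cast Nat.factorial_pos _
  have hm : m = 0 := by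
    by_contra hm0
    rcases lt_or_gt_of_ne hm0 with h9 | h9
    · have : (m : ℝ) ≤ -1 := by exact_mod_cast (by omega : m ≤ -1)
      nlinarith
    · have : (1 : ℝ) ≤ m := by exact_mod_cast h9
      nlinarith
  rw [h, hm]
  simp

lemma arc_homeo {v v' : Vx} (h0 : v' ≠ rootV) (hp : parV v' = v) :
    Nonempty (↥(PP v ∩ PP v') ≃ₜ unitInterval) := by
  obtain ⟨⟨l', j⟩, hj⟩ := v'
  rcases l' with _ | l
  · exact absurd (ht_zero rfl) h0
  · have hl1 : 1 ≤ l + 1 := Nat.le_add_left 1 l
    have hl0 : (0 : ℝ) ≤ l := by positivity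
    set n := lev (l + 1) with hn
    obtain ⟨d0, d1⟩ := dl_pos (r := (l : ℝ) + 1) (by linarith)
    set δ := 1 / (8 * ((l : ℝ) + 1)) with hδ
    set a := (U n).symm (j - δ) with ha
    set b := (U n).symm (j + 1 / 2 + δ) with hb
    have hab : a < b := Usymm_strict n (by linarith)
    have hUa : U n a = j - δ := (U n).apply_symm_apply _
    have hUb : U n b = j + 1 / 2 + δ := (U n).apply_symm_apply _
    have hI : ∀ t ∈ Icc a b, (j : ℤ) - 1 / (8 * ((l : ℝ) + 1)) ≤ U n t ∧
        U n t ≤ (j : ℤ) + 1 / 2 + 1 / (8 * ((l : ℝ) + 1)) := by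
      rintro t ⟨h1, h2⟩
      have g1 := (U_strict n).monotone h1
      have g2 := (U_strict n).monotone h2
      rw [hUa] at g1
      rw [hUb] at g2
      exact ⟨by push_cast; linarith, by push_cast; linarith⟩
    let f : Icc a b → ℂ := fun t => pp ((l : ℝ) + 1, (t : ℝ))
    have hf : Continuous f := pp_cont.comp (by fun_prop)
    have hi : Function.Injective f := by
      intro s t hst
      have h1 : pp ((l : ℝ) + 1, (s : ℝ)) = pp ((l : ℝ) + 1, (t : ℝ)) := hst
      rw [pp_eq] at h1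
      rcases h1 with ⟨h2, -⟩ | ⟨-, m, h2⟩
      · simp only at h2
        linarith
      · simp only at h2
        obtain ⟨a1, a2⟩ := hI s s.2
        obtain ⟨b1, b2⟩ := hI t t.2
        exact Subtype.ext (sector_inj (l := l + 1) (j := j) (r := (l : ℝ) + 1) (by linarith)
          a1 a2 b1 b2 h2)
    have hr : range f = PP v ∩ PP ⟨(l + 1, j), hj⟩ := by
      ext z
      constructor
      · rintro ⟨t, rfl⟩
        obtain ⟨a1, a2⟩ := hI t t.2
        have hx : (((l : ℝ) + 1, (t : ℝ)) : ℝ × ℝ) ∈ Reg (l + 1) j := by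
          refine ⟨?_, ?_, a1, a2⟩ <;> push_cast <;> linarith
        constructor
        · rw [← hp]
          change f t ∈ PP ⟨(l, j / qq l), _⟩
          rcases Nat.eq_zero_or_pos l with h4 | h4
          · subst h4
            have : (⟨(0, j / qq 0), by
              rw [Nat.div_lt_iff_lt_mul (qq_pos 0), mul_comm]
              rw [NN_succ] at hj
              exact hj⟩ : Vx) = rootV := ht_zero rfl
            rw [this, PP_root, mem_closedBall_zero_iff]
            change ‖pp _‖ ≤ 1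
            rw [pp_norm]
            norm_num
          · rw [PP_of h4, mem_PPr h4]
            refine ⟨0, ?_⟩
            have := Reg_par h4 hx le_rfl
            push_cast at this ⊢
            simpa using this
        · rw [PP_of hl1]
          exact ⟨_, hx, rfl⟩
      · rintro ⟨h1, h2⟩
        have hh := ht_par _ h0
        rw [hp] at hh
        have h3 : ‖z‖ = l + 1 := by
          have n1 := (norm_PP h1).1
          have n2 := (norm_PP h2).2
          have e1 : (ht v : ℝ) + 1 = l + 1 := by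
            have : ht v + 1 = l + 1 := hh
            exact_mod_cast this
          have e2 : ((ht (⟨(l + 1, j), hj⟩ : Vx) : ℕ) : ℝ) = l + 1 := by
            change ((l + 1 : ℕ) : ℝ) = _
            push_cast
            rfl
          rw [e2] at n2
          rw [e1] at n1
          exact le_antisymm n1 n2
        rw [PP_of hl1] at h2
        obtain ⟨x, hx, rfl⟩ := h2
        have hx1 : (l : ℝ) + 1 ≤ x.1 := by
          have := hx.1
          push_cast at this
          exact this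
        rw [pp_norm_pos' (by linarith)] at h3
        obtain ⟨r, t⟩ := x
        simp only at h3 hx1
        subst h3
        obtain ⟨-, -, g1, g2⟩ := hx
        simp only at g1 g2
        push_cast at g1 g2
        refine ⟨⟨t, ?_, ?_⟩, rfl⟩
        · rw [← (U_strict n).le_iff_le, hUa]
          exact g1
        · rw [← (U_strict n).le_iff_le, hUb]
          exact g2
    obtain ⟨e⟩ := homeo_of_inj hf hi hr
    exact ⟨e.symm.trans (iccHomeoI _ _ hab)⟩

lemma PP_arc {v v' : Vx} (h : TV.Adj v v') : Nonempty (↥(PP v ∩ PP v') ≃ₜ unitInterval) := by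
  rcases h with ⟨h1, h2⟩ | ⟨h1, h2⟩
  · rw [inter_comm]
    exact arc_homeo h1 h2
  · exact arc_homeo h1 h2

/-- the square -/
def KK : Set ℂ := {z | 0 ≤ z.re ∧ z.re ≤ 1 ∧ 0 ≤ z.im ∧ z.im ≤ 1}

lemma KK_convex : Convex ℝ KK := by
  intro x hx y hy a b ha hb hab
  obtain ⟨x1, x2, x3, x4⟩ := hx
  obtain ⟨y1, y2, y3, y4⟩ := hy
  have hre : (a • x + b • y).re = a * x.re + b * y.re := by simp
  have him : (a • x + b • y).im = a * x.im + b * y.im := by simp
  refine ⟨?_, ?_, ?_, ?_⟩
  · rw [hre]; positivity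
  · rw [hre]; nlinarith
  · rw [him]; positivity
  · rw [him]; nlinarith

lemma KK_closed : IsClosed KK :=
  (isClosed_le continuous_const Complex.continuous_re).inter
    ((isClosed_le Complex.continuous_re continuous_const).inter
      ((isClosed_le continuous_const Complex.continuous_im).inter
        (isClosed_le Complex.continuous_im continuous_const)))

lemma KK_bdd : Bornology.IsBounded KK := by
  refine (Metric.isBounded_closedBall (x := (0 : ℂ)) (r := 2)).subset ?_
  rintro z ⟨h1, h2, h3, h4⟩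
  rw [mem_closedBall_zero_iff]
  have h5 := Complex.norm_le_abs_re_add_abs_im z
  rw [abs_of_nonneg h1, abs_of_nonneg h3] at h5
  linarith

lemma KK_int : (interior KK).Nonempty := by
  refine ⟨⟨1 / 2, 1 / 2⟩, ?_⟩
  rw [mem_interior]
  refine ⟨{z | 0 < z.re} ∩ ({z | z.re < 1} ∩ ({z | 0 < z.im} ∩ {z | z.im < 1})), ?_, ?_, ?_⟩
  · rintro z ⟨h1, h2, h3, h4⟩
    simp only [mem_ofPred_eq] at h1 h2 h3 h4
    exact ⟨h1.le, h2.le, h3.le, h4.le⟩
  · exact (isOpen_lt continuous_const Complex.continuous_re).inter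
      ((isOpen_lt Complex.continuous_re continuous_const).inter
        ((isOpen_lt continuous_const Complex.continuous_im).inter
          (isOpen_lt Complex.continuous_im continuous_const)))
  · refine ⟨?_, ?_, ?_, ?_⟩ <;> simp only [mem_ofPred_eq] <;> norm_num

lemma KK_disc : Nonempty (KK ≃ₜ Metric.closedBall (0 : ℂ) 1) := by
  obtain ⟨h, -, h2, -⟩ := exists_homeomorph_image_interior_closure_frontier_eq_unitBall
    KK_convex KK_int KK_bdd
  rw [KK_closed.closure_eq] at h2
  rw [← h2]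
  exact ⟨h.image _⟩

lemma PPr_disc {l : ℕ} (hl : 1 ≤ l) (j : ℤ) :
    Nonempty (PPr l j ≃ₜ Metric.closedBall (0 : ℂ) 1) := by
  have hl' : (1 : ℝ) ≤ l := by exact_mod_cast hl
  set n := lev l with hn
  have : CompactSpace KK :=
    isCompact_iff_compactSpace.1 (Metric.isCompact_of_isClosed_isBounded KK_closed KK_bdd)
  let δ : KK → ℝ := fun z => 1 / (8 * ((l : ℝ) + z.1.re))
  have hδ : Continuous δ := by
    have h1 := Complex.continuous_re
    refine Continuous.div continuous_const (by fun_prop) fun z => ?_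
    have := z.2.1
    have : 0 < 8 * ((l : ℝ) + z.1.re) := by linarith
    exact this.ne'
  let f : KK → ℂ := fun z =>
    pp (l + z.1.re, (U n).symm (j - δ z + z.1.im * (1 / 2 + 2 * δ z)))
  have hf : Continuous f := by
    refine pp_cont.comp ?_
    have h1 := Complex.continuous_re
    have h2 := Complex.continuous_im
    have h3 := (U n).symm.continuous
    fun_prop
  have hr1 : ∀ z : KK, 1 ≤ (l : ℝ) + z.1.re := fun z => by linarith [z.2.1]
  have hd : ∀ z : KK, 0 < δ z ∧ δ z ≤ 1 / 8 := fun z => dl_pos (hr1 z)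
  have hlo : ∀ z : KK, (j : ℝ) - δ z ≤ j - δ z + z.1.im * (1 / 2 + 2 * δ z) := fun z => by
    have h1 := hd z
    have h2 := z.2.2.2.1
    have : 0 ≤ z.1.im * (1 / 2 + 2 * δ z) := mul_nonneg h2 (by linarith)
    linarith
  have hhi : ∀ z : KK, (j : ℝ) - δ z + z.1.im * (1 / 2 + 2 * δ z) ≤ j + 1 / 2 + δ z := fun z => by
    have h1 := hd z
    have h2 := z.2.2.2.2
    have : z.1.im * (1 / 2 + 2 * δ z) ≤ 1 * (1 / 2 + 2 * δ z) :=
      mul_le_mul_of_nonneg_right h2 (by linarith)
    linarith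
  have hi : Function.Injective f := by
    intro z y hzy
    have h1 : pp (l + z.1.re, (U n).symm (j - δ z + z.1.im * (1 / 2 + 2 * δ z)))
      = pp (l + y.1.re, (U n).symm (j - δ y + y.1.im * (1 / 2 + 2 * δ y))) := hzy
    rw [pp_eq] at h1
    rcases h1 with ⟨h2, -⟩ | ⟨h2, m, h3⟩
    · simp only at h2
      linarith [hr1 z]
    · simp only at h2 h3
      have hre : z.1.re = y.1.re := by linarith
      have hδe : δ z = δ y := by
        change 1 / (8 * ((l : ℝ) + z.1.re)) = 1 / (8 * ((l : ℝ) + y.1.re))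
        rw [hre]
      have h4 := sector_inj (l := l) (j := j) (r := (l : ℝ) + z.1.re) (hr1 z)
        (by rw [← hn, Homeomorph.apply_symm_apply]; exact hlo z)
        (by rw [← hn, Homeomorph.apply_symm_apply]; exact hhi z)
        (by rw [← hn, Homeomorph.apply_symm_apply, hre]; exact hlo y)
        (by rw [← hn, Homeomorph.apply_symm_apply, hre]; exact hhi y) h3
      have h5 := (U n).symm.injective h4
      rw [hδe] at h5
      have hpos : 1 / 2 + 2 * δ y ≠ 0 := by
        have := (hd y).1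
        intro h
        linarith
      have h6 : z.1.im = y.1.im := mul_right_cancel₀ hpos (by linarith)
      exact Subtype.ext (Complex.ext hre h6)
  have hr : range f = PPr l j := by
    ext x
    constructor
    · rintro ⟨z, rfl⟩
      refine ⟨_, ⟨?_, ?_, ?_, ?_⟩, rfl⟩ <;> simp only
      · linarith [z.2.1]
      · linarith [z.2.2.1]
      · rw [← hn, Homeomorph.apply_symm_apply]
        exact hlo z
      · rw [← hn, Homeomorph.apply_symm_apply]
        exact hhi z
    · rintro ⟨⟨r, t⟩, ⟨h1, h2, h3, h4⟩, rfl⟩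
      simp only at h1 h2 h3 h4
      obtain ⟨d0, d1⟩ := dl_pos (hl'.trans h1)
      have hpos : 0 < 1 / 2 + 2 * (1 / (8 * r)) := by linarith
      have g1 : 0 ≤ (U n t - j + 1 / (8 * r)) / (1 / 2 + 2 * (1 / (8 * r))) :=
        div_nonneg (by linarith) hpos.le
      have g2 : (U n t - j + 1 / (8 * r)) / (1 / 2 + 2 * (1 / (8 * r))) ≤ 1 := by
        rw [div_le_one hpos]
        linarith
      refine ⟨⟨⟨r - l, (U n t - j + 1 / (8 * r)) / (1 / 2 + 2 * (1 / (8 * r)))⟩,
        by simp only; linarith, by simp only; linarith, g1, g2⟩, ?_⟩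
      change pp (l + (r - l), (U n).symm (j - 1 / (8 * ((l : ℝ) + (r - l))) +
        (U n t - j + 1 / (8 * r)) / (1 / 2 + 2 * (1 / (8 * r))) *
          (1 / 2 + 2 * (1 / (8 * ((l : ℝ) + (r - l))))))) = pp (r, t)
      rw [show (l : ℝ) + (r - l) = r by ring, div_mul_cancel₀ _ hpos.ne',
        show (j : ℝ) - 1 / (8 * r) + (U n t - j + 1 / (8 * r)) = U n t by ring,
        Homeomorph.symm_apply_apply]
  obtain ⟨e⟩ := homeo_of_inj hf hi hr
  obtain ⟨e2⟩ := KK_disc
  exact ⟨e.symm.trans e2⟩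

lemma PP_disc (v : Vx) : Nonempty (PP v ≃ₜ Metric.closedBall (0 : ℂ) 1) := by
  obtain ⟨⟨l, j⟩, hj⟩ := v
  rcases Nat.eq_zero_or_pos l with h | h
  · subst h
    rw [ht_zero (v := ⟨(0, j), hj⟩) rfl, PP_root]
    exact ⟨Homeomorph.refl _⟩
  · rw [PP_of h]
    exact PPr_disc h j

/-! ### the punctures -/

/-- the angle of the puncture -/
noncomputable def tp (l j : ℕ) : ℝ :=
  (U (lev l + 1)).symm ((lev l + 1) * j + ((l : ℝ) - Rn (lev l)) + 1)

noncomputable def ptv (v : Vx) : ℂ :=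
  if v.1.1 = 0 then 0 else pp ((v.1.1 : ℝ) + 1 / 2, tp v.1.1 v.1.2)

lemma ptv_root : ptv rootV = 0 := if_pos rfl

lemma ptv_of {l j : ℕ} (hl : 1 ≤ l) (h : j < NN l) :
    ptv ⟨(l, j), h⟩ = pp ((l : ℝ) + 1 / 2, tp l j) := by
  unfold ptv
  exact if_neg (by simp only; omega)

lemma U_new {n i : ℕ} (hi : i < n) (j : ℤ) :
    U n ((U (n + 1)).symm ((n + 1) * j + i + 1)) = j + (i + 1) / (2 * n + 1) := by
  have hi' : (i : ℝ) + 1 ≤ n := by exact_mod_cast hi
  have hn2 : (0 : ℝ) < 2 * n + 1 := by positivity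
  have h1 : 0 ≤ ((i : ℝ) + 1) / (2 * n + 1) := by positivity
  have h2 : ((i : ℝ) + 1) / (2 * n + 1) ≤ 1 / 2 := by
    rw [div_le_iff₀ hn2]
    linarith
  have e : (U (n + 1)).symm ((n + 1) * j + i + 1) = (U n).symm (j + (i + 1) / (2 * n + 1)) := by
    rw [Homeomorph.symm_apply_eq, U_succ, Homeomorph.apply_symm_apply,
      V_sector j (by linarith) (by linarith), add_sub_cancel_left, mul_div_cancel₀ _ hn2.ne']
    ring
  rw [e, Homeomorph.apply_symm_apply]

/-- layers of level zero -/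
lemma tp_zero {l : ℕ} (h0 : lev l = 0) (j : ℕ) : tp l j = j + l := by
  unfold tp
  rw [h0, Homeomorph.symm_apply_eq]
  change _ = U 1 _
  rw [U_one]
  have : Rn 0 = 1 := rfl
  rw [this]
  push_cast
  ring

/-- layers of positive level -/
lemma tp_pos {n i : ℕ} (hi : i < n) (j : ℕ) :
    tp (Rn n + i) j = (U (n + 1)).symm ((n + 1) * (j : ℤ) + i + 1) := by
  have h0 : lev (Rn n + i) = n := lev_eq (by omega) (by rw [Rn_succ (by omega)]; omega)
  unfold tp
  rw [h0]
  congr 1
  push_cast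
  ring

lemma layer_cases {l : ℕ} (hl : 1 ≤ l) :
    lev l = 0 ∨ ∃ n i, i < n ∧ l = Rn n + i ∧ lev l = n := by
  rcases Nat.eq_zero_or_pos (lev l) with h | h
  · exact Or.inl h
  · right
    obtain ⟨a, b⟩ := lev_spec hl
    refine ⟨lev l, l - Rn (lev l), ?_, by omega, rfl⟩
    rw [Rn_succ h] at b
    omega

lemma tp_sector {l : ℕ} (hl : 1 ≤ l) (j : ℕ) : ∃ m : ℤ, (j : ℝ) + NN l * m ≤ U (lev l) (tp l j) ∧
    U (lev l) (tp l j) ≤ j + NN l * m + 1 / 2 := by
  rcases layer_cases hl with h | ⟨n, i, hi, rfl, hn⟩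
  · refine ⟨l, ?_⟩
    rw [tp_zero h, h, U_zero]
    unfold NN
    rw [h]
    push_cast
    constructor <;> simp
  · refine ⟨0, ?_⟩
    rw [tp_pos hi, hn, U_new hi]
    have hi' : (i : ℝ) + 1 ≤ n := by exact_mod_cast hi
    have hn2 : (0 : ℝ) < 2 * n + 1 := by positivity
    have h1 : 0 ≤ ((i : ℝ) + 1) / (2 * n + 1) := by positivity
    have h2 : ((i : ℝ) + 1) / (2 * n + 1) ≤ 1 / 2 := by
      rw [div_le_iff₀ hn2]
      linarith
    push_cast
    constructor <;> linarith

lemma ptv_mem (v : Vx) : ptv v ∈ interior (PP v) := by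
  obtain ⟨⟨l, j⟩, hj⟩ := v
  rcases Nat.eq_zero_or_pos l with h | hl
  · subst h
    rw [ht_zero (v := ⟨(0, j), hj⟩) rfl, PP_root, ptv_root, mem_interior]
    exact ⟨Metric.ball 0 1, Metric.ball_subset_closedBall, Metric.isOpen_ball, by simp⟩
  · rw [ptv_of hl, PP_of hl, mem_interior]
    have hl' : (1 : ℝ) ≤ l := by exact_mod_cast hl
    obtain ⟨d0, d1⟩ := dl_pos (r := (l : ℝ) + 1) (by linarith)
    set n := lev l with hn
    have hU := (U n).continuous
    let W : Set (ℝ × ℝ) := ({x | (l : ℝ) < x.1} ∩ {x | x.1 < l + 1}) ∩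
      ⋃ m : ℤ, ({x | (j : ℝ) + NN l * m - 1 / (8 * ((l : ℝ) + 1)) < U n x.2} ∩
        {x | U n x.2 < j + NN l * m + 1 / 2 + 1 / (8 * ((l : ℝ) + 1))})
    have hW : IsOpen W := by
      refine ((isOpen_lt (by fun_prop) (by fun_prop)).inter
        (isOpen_lt (by fun_prop) (by fun_prop))).inter (isOpen_iUnion fun m => ?_)
      exact (isOpen_lt (by fun_prop) (by fun_prop)).inter (isOpen_lt (by fun_prop) (by fun_prop))
    have hsat : pp ⁻¹' (pp '' W) = W := by
      apply Subset.antisymm _ (subset_preimage_image _ _)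
      rintro x ⟨y, ⟨⟨hy1, hy2⟩, hy3⟩, hxy⟩
      simp only [mem_ofPred_eq] at hy1 hy2
      rw [pp_eq] at hxy
      rcases hxy with ⟨h1, -⟩ | ⟨h1, m, h2⟩
      · linarith
      · obtain ⟨m', hm1, hm2⟩ := mem_iUnion.1 hy3
        simp only [mem_ofPred_eq] at hm1 hm2
        have e : U n y.2 = U n x.2 + (n.factorial : ℕ) * m := by
          rw [h2, U_add_intCast]
        have e2 : (NN l : ℝ) = (n.factorial : ℕ) := rfl
        refine ⟨⟨by simp only [mem_ofPred_eq]; linarith, by simp only [mem_ofPred_eq]; linarith⟩,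
          mem_iUnion.2 ⟨m' - m, ?_, ?_⟩⟩
        · simp only [mem_ofPred_eq]
          push_cast
          rw [e2] at hm1 ⊢
          linarith
        · simp only [mem_ofPred_eq]
          push_cast
          rw [e2] at hm2 ⊢
          linarith
    refine ⟨pp '' W, ?_, ?_, ?_⟩
    · rintro _ ⟨x, ⟨⟨hx1, hx2⟩, hx3⟩, rfl⟩
      simp only [mem_ofPred_eq] at hx1 hx2
      obtain ⟨m, hm1, hm2⟩ := mem_iUnion.1 hx3
      simp only [mem_ofPred_eq] at hm1 hm2
      have hd : 1 / (8 * ((l : ℝ) + 1)) ≤ 1 / (8 * x.1) :=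
        one_div_le_one_div_of_le (by linarith) (by linarith)
      rw [mem_PPr hl]
      refine ⟨m, hx1.le, hx2.le, ?_, ?_⟩
      · push_cast
        linarith
      · push_cast
        linarith
    · rw [← pp_quot.isOpen_preimage, hsat]
      exact hW
    · obtain ⟨m, h1, h2⟩ := tp_sector hl j
      refine ⟨_, ⟨⟨?_, ?_⟩, mem_iUnion.2 ⟨m, ?_, ?_⟩⟩, rfl⟩ <;> simp only [mem_ofPred_eq]
      · linarith
      · linarith
      · linarith
      · linarith

/-- the rigid surface -/
noncomputable abbrev XX : RigidSurface where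
  V := Vx
  T := TV
  tree := PT_tree
  pt := ptv
  P := PP
  disc := PP_disc
  mem := ptv_mem
  locFin := PP_locFin
  inter := fun _ _ h => PP_inter h
  far := fun _ _ h h' => PP_far h h'
  arc := fun _ _ h => PP_arc h

lemma S_int {x : ℝ × ℝ} (m : ℤ) : x + (0, (m : ℝ)) ∈ Sn 0 ↔ x ∈ Sn 0 := by
  unfold Sn
  simp only [mem_ofPred_eq, Prod.fst_add, Prod.snd_add, add_zero]
  refine forall_congr' fun k => forall_congr' fun _ => ?_
  have e : w (U k (x.2 + m)) = w (U k x.2) := by
    rw [U_add_intCast]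
    have := w_add_int (U k x.2) ((k.factorial : ℕ) * m)
    push_cast at this ⊢
    exact this
  rw [e]

lemma pp_S {x : ℝ × ℝ} : pp x ∈ pp '' Sn 0 ↔ x ∈ Sn 0 := by
  constructor
  · rintro ⟨y, hy, hxy⟩
    rw [pp_eq] at hxy
    rcases hxy with ⟨-, h⟩ | ⟨h1, m, h2⟩
    · exact Sn_small (by have := Rn_pos' 0; linarith)
    · have e : y = x + (0, (m : ℝ)) := by
        ext
        · simp [h1]
        · simp [h2]
      rw [e, S_int] at hy
      exact hy
  · exact fun h => ⟨x, h, rfl⟩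

/-- every point of the surface is in a polygon -/
lemma cover_V {x : ℝ × ℝ} (hx : x ∈ Sn 0) : ∃ v : Vx, pp x ∈ PP v ∧ (ht v = 0 ∨ (ht v : ℝ) < x.1) := by
  by_cases h1 : x.1 ≤ 1
  · refine ⟨rootV, ?_, Or.inl rfl⟩
    rw [PP_root, mem_closedBall_zero_iff, pp_norm]
    exact max_le h1 zero_le_one
  · push Not at h1
    obtain ⟨l, hl, hl1, hl2⟩ : ∃ l : ℕ, 1 ≤ l ∧ (l : ℝ) < x.1 ∧ x.1 ≤ l + 1 := by
      have hc : 2 ≤ ⌈x.1⌉₊ := by
        have : 1 < ⌈x.1⌉₊ := Nat.lt_ceil.2 (by exact_mod_cast h1)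
        omega
      refine ⟨⌈x.1⌉₊ - 1, by omega, ?_, ?_⟩
      · have := Nat.ceil_lt_add_one (show 0 ≤ x.1 by linarith)
        rw [Nat.cast_sub (by omega)]
        push_cast
        linarith
      · have := Nat.le_ceil x.1
        rw [Nat.cast_sub (by omega)]
        push_cast
        linarith
    obtain ⟨j, hj⟩ := cover hx hl hl1 hl2
    have hpz : (0 : ℤ) < NN l := by exact_mod_cast NN_pos l
    have hj0 : 0 ≤ j % NN l := Int.emod_nonneg _ hpz.ne'
    have hj1 : j % NN l < NN l := Int.emod_lt_of_pos _ hpz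
    obtain ⟨j', hj'⟩ := Int.eq_ofNat_of_zero_le hj0
    have hj2 : j' < NN l := by
      rw [hj'] at hj1
      exact_mod_cast hj1
    refine ⟨⟨(l, j'), hj2⟩, ?_, Or.inr hl1⟩
    rw [PP_of hl, mem_PPr hl]
    refine ⟨j / NN l, ?_⟩
    have hd := Int.emod_add_mul_ediv j (NN l)
    rw [hj'] at hd
    have : ((j' : ℕ) : ℤ) + NN l * (j / NN l) = j := hd
    rw [this]
    exact hj

lemma PP_sub (v : Vx) : PP v ⊆ pp '' Sn 0 := by
  obtain ⟨⟨l, j⟩, hj⟩ := v
  rcases Nat.eq_zero_or_pos l with h | h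
  · subst h
    rw [ht_zero (v := ⟨(0, j), hj⟩) rfl, PP_root]
    intro z hz
    obtain ⟨x, rfl⟩ := pp_surj z
    rw [mem_closedBall_zero_iff, pp_norm] at hz
    refine ⟨x, Sn_small ?_, rfl⟩
    have : ((Rn 0 : ℕ) : ℝ) = 1 := by
      change ((1 : ℕ) : ℝ) = 1
      simp
    rw [this]
    exact (le_max_left _ _).trans hz
  · rw [PP_of h]
    exact image_mono fun x hx => (Reg_Sn h hx).1

lemma XX_S : XX.S = pp '' Sn 0 := by
  apply Subset.antisymm (iUnion_subset PP_sub)
  rintro _ ⟨x, hx, rfl⟩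
  obtain ⟨v, hv, -⟩ := cover_V hx
  exact mem_iUnion.2 ⟨v, hv⟩

end Pool.Agent.H350.QAR
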