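import Pool.Agent.H350.QAR.Surf

/-!
# Families of fibrewise maps of the plane in polar coordinates
-/

set_option autoImplicit false

namespace Pool.Agent.H350.QAR

open Set Topology Pool.Agent.Q238.AR

/-- Homeomorphisms `(a, x) ↦ (a, f a x)`, `f` increasing in the real number `x`. -/
noncomputable def fibP {A : Type*} [TopologicalSpace A] (f : A × ℝ → ℝ) (hc : Continuous f)
    (hm : ∀ a, StrictMono fun x => f (a, x)) (hs : ∀ a, Function.Surjective fun x => f (a, x)) :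
    A × ℝ ≃ₜ A × ℝ where
  toFun x := (x.1, f x)
  invFun x := (x.1, Function.surjInv (hs x.1) x.2)
  left_inv x := by
    have := Function.surjInv_eq (hs x.1) (f x)
    ext
    · rfl
    · exact (hm x.1).injective this
  right_inv x := by
    ext
    · rfl
    · exact Function.surjInv_eq (hs x.1) x.2
  continuous_toFun := continuous_fst.prodMk hc
  continuous_invFun := by
    refine continuous_fst.prodMk ?_
    have key : ∀ (x : A × ℝ), f (x.1, Function.surjInv (hs x.1) x.2) = x.2 := fun x =>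
      Function.surjInv_eq (hs x.1) x.2
    rw [continuous_iff_continuousAt]
    intro x
    refine tendsto_order.2 ⟨fun b hb => ?_, fun b hb => ?_⟩
    · have h1 : f (x.1, b) < x.2 := by
        rw [← key x]
        exact hm x.1 hb
      have h2 : ∀ᶠ y : A × ℝ in 𝓝 x, f (y.1, b) < y.2 :=
        (isOpen_lt (by fun_prop) continuous_snd).mem_nhds h1
      filter_upwards [h2] with y hy
      rw [← key y] at hy
      exact (hm y.1).lt_iff_lt.1 hy
    · have h1 : x.2 < f (x.1, b) := by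
        nth_rewrite 1 [← key x]
        exact hm x.1 hb
      have h2 : ∀ᶠ y : A × ℝ in 𝓝 x, y.2 < f (y.1, b) :=
        (isOpen_lt continuous_snd (by fun_prop)).mem_nhds h1
      filter_upwards [h2] with y hy
      nth_rewrite 1 [← key y] at hy
      exact (hm y.1).lt_iff_lt.1 hy

lemma fam_cont {G : ℝ × (ℝ × ℝ) → ℝ × ℝ} (hG : Continuous G) {g : ℝ × ℂ → ℂ}
    (h : ∀ s x, g (s, pp x) = pp (G (s, x))) : Continuous g := by
  refine pp_quot.continuous_lift_prod_right ?_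
  have : (fun p : ℝ × (ℝ × ℝ) => g (p.1, pp p.2)) = fun p => pp (G p) := by
    funext p
    exact h p.1 p.2
  rw [this]
  exact pp_cont.comp hG

/-- fibrewise homeomorphisms: they keep the radius, are increasing in the angle and commute
with the rotation by a full turn -/
structure FW (f : ℝ × ℝ ≃ₜ ℝ × ℝ) : Prop where
  fst : ∀ x, (f x).1 = x.1
  add : ∀ x, f (x + (0, 1)) = f x + (0, 1)
  mono : ∀ r, StrictMono fun t => (f (r, t)).2

lemma FW.one : FW 1 := ⟨fun _ => rfl, fun _ => rfl, fun _ => strictMono_id⟩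

lemma FW.mul {f g : ℝ × ℝ ≃ₜ ℝ × ℝ} (hf : FW f) (hg : FW g) : FW (f * g) where
  fst x := (hf.fst (g x)).trans (hg.fst x)
  add x := by
    change f (g (x + (0, 1))) = f (g x) + (0, 1)
    rw [hg.add, hf.add]
  mono r := by
    have h : (fun t => ((f * g) (r, t)).2) = (fun t => (f (r, t)).2) ∘ fun t => (g (r, t)).2 := by
      funext t
      change (f (g (r, t))).2 = (f (r, (g (r, t)).2)).2
      congr 2
      ext
      · exact hg.fst (r, t)
      · rfl
    rw [h]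
    exact (hf.mono r).comp (hg.mono r)

lemma FW.inv {f : ℝ × ℝ ≃ₜ ℝ × ℝ} (hf : FW f) : FW f⁻¹ := by
  have h1 : ∀ x, (f.symm x).1 = x.1 := fun x => by
    have := hf.fst (f.symm x)
    rw [f.apply_symm_apply] at this
    exact this.symm
  refine ⟨h1, fun x => ?_, fun r => ?_⟩
  · change f.symm (x + (0, 1)) = f.symm x + (0, 1)
    rw [Homeomorph.symm_apply_eq, hf.add, f.apply_symm_apply]
  · intro s t h
    change (f.symm (r, s)).2 < (f.symm (r, t)).2
    by_contra hcon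
    push Not at hcon
    have h2 : (f (r, (f.symm (r, t)).2)).2 ≤ (f (r, (f.symm (r, s)).2)).2 :=
      (hf.mono r).monotone hcon
    have e : ∀ u : ℝ, (r, (f.symm (r, u)).2) = f.symm (r, u) := fun u => by
      ext
      · exact (h1 (r, u)).symm
      · rfl
    rw [e, e, f.apply_symm_apply, f.apply_symm_apply] at h2
    exact absurd h (not_lt.2 h2)

lemma FW.pow {f : ℝ × ℝ ≃ₜ ℝ × ℝ} (hf : FW f) (n : ℕ) : FW (f ^ n) := by
  induction n with
  | zero =>
    rw [pow_zero]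
    exact FW.one
  | succ n ih =>
    rw [pow_succ]
    exact ih.mul hf

lemma FW.mem {f : ℝ × ℝ ≃ₜ ℝ × ℝ} (hf : FW f) : f ∈ EE :=
  ⟨hf.add, fun x => by rw [hf.fst]⟩

lemma FW.near {f : ℝ × ℝ ≃ₜ ℝ × ℝ} (hf : FW f) (r : ℝ) :
    ∃ C, ∀ t, |(f (r, t)).2 - t| ≤ C := by
  refine ⟨|(f (r, 0)).2| + 1, fun t => ?_⟩
  have h1 : f (r, t) = f (r, Int.fract t) + (0, ((⌊t⌋ : ℤ) : ℝ)) := by
    rw [← EE_int hf.mem]
    congr 1
    ext
    · simp
    · simp
  rw [h1]
  have h2 := Int.fract_nonneg t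
  have h3 := (Int.fract_lt_one t).le
  have h4 : (f (r, 0)).2 ≤ (f (r, Int.fract t)).2 := (hf.mono r).monotone h2
  have h5 : (f (r, Int.fract t)).2 ≤ (f (r, 1)).2 := (hf.mono r).monotone h3
  have h6 : f (r, 1) = f (r, 0) + (0, 1) := by
    rw [← hf.add]
    congr 1
    ext
    · simp
    · simp
  rw [h6] at h5
  simp only [Prod.snd_add] at h5 ⊢
  have h7 := Int.floor_add_fract t
  have h8 := le_abs_self (f (r, 0)).2
  have h9 := neg_abs_le (f (r, 0)).2
  rw [abs_le]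
  constructor <;> linarith

/-- clamping to the unit interval -/
noncomputable def cl (s : ℝ) : ℝ := max 0 (min 1 s)

lemma cl_cont : Continuous cl := by unfold cl; fun_prop

lemma cl_nonneg (s : ℝ) : 0 ≤ cl s := le_max_left _ _

lemma cl_le (s : ℝ) : cl s ≤ 1 := max_le zero_le_one (min_le_left _ _)

lemma cl_zero : cl 0 = 0 := by unfold cl; simp

lemma cl_one : cl 1 = 1 := by unfold cl; simp

/-- the straight line from the identity to `f`, all at once -/
noncomputable def mixP {f : ℝ × ℝ ≃ₜ ℝ × ℝ} (hf : FW f) : (ℝ × ℝ) × ℝ ≃ₜ (ℝ × ℝ) × ℝ :=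
  fibP (fun x : (ℝ × ℝ) × ℝ => x.2 + cl x.1.1 * ((f (x.1.2, x.2)).2 - x.2))
    (by
      have h1 := cl_cont
      have h2 := f.continuous
      fun_prop)
    (fun a => mix_strict (hf.mono a.2) (cl_nonneg a.1) (cl_le a.1))
    (fun a => by
      obtain ⟨C, hC⟩ := hf.near a.2
      refine mix_surj (f := fun t => (f (a.2, t)).2) ?_ C hC (cl_nonneg a.1) (cl_le a.1)
      exact continuous_snd.comp (f.continuous.comp (by fun_prop)))

/-- the straight line from the identity to `f` at the time `s` -/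
noncomputable def mixE {f : ℝ × ℝ ≃ₜ ℝ × ℝ} (hf : FW f) (s : ℝ) : ℝ × ℝ ≃ₜ ℝ × ℝ :=
  fib (fun x => x.2 + cl s * ((f x).2 - x.2))
    (by
      have h2 := f.continuous
      fun_prop)
    (fun a => mix_strict (hf.mono a) (cl_nonneg s) (cl_le s))
    (fun a => by
      obtain ⟨C, hC⟩ := hf.near a
      refine mix_surj (f := fun t => (f (a, t)).2) ?_ C hC (cl_nonneg s) (cl_le s)
      exact continuous_snd.comp (f.continuous.comp (by fun_prop)))

lemma mixE_apply {f : ℝ × ℝ ≃ₜ ℝ × ℝ} (hf : FW f) (s : ℝ) (x : ℝ × ℝ) :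
    mixE hf s x = (x.1, x.2 + cl s * ((f x).2 - x.2)) := rfl

lemma mixE_eq {f : ℝ × ℝ ≃ₜ ℝ × ℝ} (hf : FW f) (s : ℝ) (x : ℝ × ℝ) :
    mixE hf s x = (x.1, (mixP hf ((s, x.1), x.2)).2) := rfl

lemma mixP_fst {f : ℝ × ℝ ≃ₜ ℝ × ℝ} (hf : FW f) (x : (ℝ × ℝ) × ℝ) : (mixP hf x).1 = x.1 := rfl

lemma mixP_symm_fst {f : ℝ × ℝ ≃ₜ ℝ × ℝ} (hf : FW f) (x : (ℝ × ℝ) × ℝ) :
    ((mixP hf).symm x).1 = x.1 := rfl

lemma mixE_symm_eq {f : ℝ × ℝ ≃ₜ ℝ × ℝ} (hf : FW f) (s : ℝ) (x : ℝ × ℝ) :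
    (mixE hf s).symm x = (x.1, ((mixP hf).symm ((s, x.1), x.2)).2) := by
  rw [Homeomorph.symm_apply_eq, mixE_eq]
  ext
  · rfl
  · simp only
    have e : ((s, x.1), ((mixP hf).symm ((s, x.1), x.2)).2) = (mixP hf).symm ((s, x.1), x.2) := by
      ext
      · rfl
      · rfl
      · rfl
    rw [e, Homeomorph.apply_symm_apply]

lemma mixE_FW {f : ℝ × ℝ ≃ₜ ℝ × ℝ} (hf : FW f) (s : ℝ) : FW (mixE hf s) where
  fst _ := rfl
  add x := by
    rw [mixE_apply, mixE_apply, hf.add]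
    ext
    · simp
    · simp only [Prod.snd_add]
      ring
  mono r := mix_strict (hf.mono r) (cl_nonneg _) (cl_le _)

lemma mixE_zero {f : ℝ × ℝ ≃ₜ ℝ × ℝ} (hf : FW f) (x : ℝ × ℝ) : mixE hf 0 x = x := by
  rw [mixE_apply, cl_zero]
  simp

lemma mixE_one {f : ℝ × ℝ ≃ₜ ℝ × ℝ} (hf : FW f) (x : ℝ × ℝ) : mixE hf 1 x = f x := by
  rw [mixE_apply, cl_one]
  ext
  · exact (hf.fst x).symm
  · simp

lemma mixE_fix {f : ℝ × ℝ ≃ₜ ℝ × ℝ} (hf : FW f) (s : ℝ) {x : ℝ × ℝ} (h : f x = x) :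
    mixE hf s x = x := by
  rw [mixE_apply, h]
  simp

/-- the family in the plane -/
noncomputable def mixD {f : ℝ × ℝ ≃ₜ ℝ × ℝ} (hf : FW f) (s : ℝ) : ℂ ≃ₜ ℂ :=
  Dsc ⟨mixE hf s, (mixE_FW hf s).mem⟩

lemma mixD_pp {f : ℝ × ℝ ≃ₜ ℝ × ℝ} (hf : FW f) (s : ℝ) (x : ℝ × ℝ) :
    mixD hf s (pp x) = pp (mixE hf s x) := Dsc_pp _ x

lemma mixD_symm_pp {f : ℝ × ℝ ≃ₜ ℝ × ℝ} (hf : FW f) (s : ℝ) (x : ℝ × ℝ) :
    (mixD hf s).symm (pp x) = pp ((mixE hf s).symm x) := by
  rw [Homeomorph.symm_apply_eq, mixD_pp, Homeomorph.apply_symm_apply]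

lemma mixD_cont {f : ℝ × ℝ ≃ₜ ℝ × ℝ} (hf : FW f) :
    Continuous fun x : ℝ × ℂ => mixD hf x.1 x.2 := by
  refine fam_cont (G := fun x => (x.2.1, (mixP hf ((x.1, x.2.1), x.2.2)).2)) ?_ fun s x => ?_
  · exact (continuous_fst.comp continuous_snd).prodMk
      (continuous_snd.comp ((mixP hf).continuous.comp (by fun_prop)))
  · simp only
    rw [mixD_pp, mixE_eq]

lemma mixD_symm_cont {f : ℝ × ℝ ≃ₜ ℝ × ℝ} (hf : FW f) :
    Continuous fun x : ℝ × ℂ => (mixD hf x.1).symm x.2 := by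
  refine fam_cont (G := fun x => (x.2.1, ((mixP hf).symm ((x.1, x.2.1), x.2.2)).2)) ?_
    fun s x => ?_
  · have := (mixP hf).symm.continuous
    fun_prop
  · simp only
    rw [mixD_symm_pp, mixE_symm_eq]

lemma mixD_zero {f : ℝ × ℝ ≃ₜ ℝ × ℝ} (hf : FW f) (z : ℂ) : mixD hf 0 z = z := by
  obtain ⟨x, rfl⟩ := pp_surj z
  rw [mixD_pp, mixE_zero]

lemma Tn_FW (n : ℕ) : FW (Tn n) where
  fst _ := rfl
  add := (Tn_mem n).1
  mono r := mix_strict (tau_strict n) (chi_nonneg r) (chi_le r)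

end Pool.Agent.H350.QAR
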