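import Mathlib
import Pool.Graph.R_pool_sql_team_seeded_3997aac3.Q238.AR.Plane

/-!
# Winding numbers
-/

set_option autoImplicit false

namespace Pool.Agent.H350.QAR

open Set Topology Pool.Agent.Q238.AR unitInterval

lemma norm_ee_pos {z : ℂ} {ρ θ : ℝ} (h : 0 < ρ) (hz : z = ρ * ee θ) : z / ‖z‖ = ee θ := by
  have h1 : ‖z‖ = ρ := by
    rw [hz, norm_mul, ee_norm, mul_one, Complex.norm_real, Real.norm_of_nonneg h.le]
  rw [h1, hz]
  have : (ρ : ℂ) ≠ 0 := by exact_mod_cast h.ne'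
  field_simp

lemma ee_zero' : ee 0 = 1 := by unfold ee; simp

/-- A map of the square into the punctured plane which is positive on the bottom and on the
vertical sides has winding number zero on the top. -/
lemma winding (H : I × I → ℂ) (hc : Continuous H) (h0 : ∀ x, H x ≠ 0)
    (hb : ∀ u, ∃ ρ : ℝ, 0 < ρ ∧ H (0, u) = ρ)
    (hl : ∀ s, ∃ ρ : ℝ, 0 < ρ ∧ H (s, 0) = ρ)
    (hr : ∀ s, ∃ ρ : ℝ, 0 < ρ ∧ H (s, 1) = ρ)
    (θ : I → ℝ) (hθ : Continuous θ) (hθ0 : θ 0 = 0)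
    (ht : ∀ u, ∃ ρ : ℝ, 0 < ρ ∧ H (1, u) = ρ * ee (θ u)) : θ 1 = 0 := by
  have hn : ∀ x, H x / ‖H x‖ ∈ Submonoid.unitSphere ℂ := by
    intro x
    have := norm_ne_zero_iff.2 (h0 x)
    change H x / ‖H x‖ ∈ Metric.sphere (0 : ℂ) 1
    rw [mem_sphere_zero_iff_norm, norm_div, Complex.norm_real, norm_norm, div_self this]
  let c : I × I → Circle := fun x => ⟨H x / ‖H x‖, hn x⟩
  have hcc : Continuous c := by
    refine Continuous.subtype_mk (hc.div (by fun_prop) fun x => ?_) _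
    have := norm_ne_zero_iff.2 (h0 x)
    exact_mod_cast this
  have hpos : ∀ x, (∃ ρ : ℝ, 0 < ρ ∧ H x = ρ) → c x = 1 := by
    rintro x ⟨ρ, h1, h2⟩
    apply Circle.ext
    change H x / ‖H x‖ = 1
    rw [← ee_zero']
    exact norm_ee_pos h1 (by rw [h2, ee_zero', mul_one])
  let γ₀ : C(I, Circle) := ContinuousMap.const I 1
  let γ₁ : C(I, Circle) := ⟨fun u => Circle.exp (2 * Real.pi * θ u), by fun_prop⟩
  have hH : γ₀.HomotopicRel γ₁ {0, 1} := by
    refine ⟨⟨⟨⟨c, hcc⟩, fun u => hpos _ (hb u), fun u => ?_⟩, ?_⟩⟩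
    · apply Circle.ext
      change H (1, u) / ‖H (1, u)‖ = Complex.exp ((2 * Real.pi * θ u : ℝ) * Complex.I)
      obtain ⟨ρ, h1, h2⟩ := ht u
      rw [norm_ee_pos h1 h2]
      unfold ee
      push_cast
      rfl
    · rintro s x (rfl | rfl)
      · exact hpos _ (hl s)
      · exact hpos _ (hr s)
  have e0 : γ₀ 0 = Circle.exp 0 := by
    rw [Circle.exp_zero]
    rfl
  have e1 : γ₁ 0 = Circle.exp 0 := by
    change Circle.exp (2 * Real.pi * θ 0) = _
    rw [hθ0, mul_zero]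
  have key := Circle.isCoveringMap_exp.liftPath_apply_one_eq_of_homotopicRel hH 0 e0 e1
  have l0 : Circle.isCoveringMap_exp.liftPath γ₀ 0 e0 = ContinuousMap.const I 0 := by
    symm
    rw [IsCoveringMap.eq_liftPath_iff']
    refine ⟨?_, rfl⟩
    funext u
    change Circle.exp 0 = 1
    exact Circle.exp_zero
  have l1 : Circle.isCoveringMap_exp.liftPath γ₁ 0 e1 = ⟨fun u => 2 * Real.pi * θ u, by fun_prop⟩ := by
    symm
    rw [IsCoveringMap.eq_liftPath_iff']
    refine ⟨rfl, ?_⟩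
    change 2 * Real.pi * θ 0 = 0
    rw [hθ0, mul_zero]
  rw [l0, l1] at key
  have key' : (0 : ℝ) = 2 * Real.pi * θ 1 := key
  have := Real.pi_pos
  have h2 : 2 * Real.pi ≠ 0 := by positivity
  rcases mul_eq_zero.1 key'.symm with h | h
  · exact absurd h h2
  · exact h

end Pool.Agent.H350.QAR
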