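import Pool.Agent.H350.QAR.Main
import Pool.Agent.H350.QAR.Wind

/-!
# Isotopies: the relations between the rotations, and the Dehn twist has infinite order
-/

set_option autoImplicit false

namespace Pool.Agent.H350.QAR

open Set Topology Pool.Agent.Q238.AR

lemma mixE_Sn {n : ℕ} (hn : 1 ≤ n) {f : ℝ × ℝ ≃ₜ ℝ × ℝ} (hf : FW f)
    (h1 : ∀ x : ℝ × ℝ, x.1 ≤ 7 / 4 ∨ 2 ≤ x.1 → f x = x) (s : ℝ) (y : ℝ × ℝ) :
    mixE hf s y ∈ Sn n ↔ y ∈ Sn n := by
  rcases le_total y.1 2 with h | h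
  · have h3 : (3 : ℝ) ≤ Rn n := by exact_mod_cast Rn_three_le hn
    exact ⟨fun _ => Sn_small (by linarith), fun _ => Sn_small (by
      rw [mixE_apply]
      simp only
      linarith)⟩
  · rw [mixE_fix hf s (h1 y (Or.inr h))]

lemma mix_S {n : ℕ} (hn : 1 ≤ n) {f : ℝ × ℝ ≃ₜ ℝ × ℝ} (hf : FW f)
    (h1 : ∀ x : ℝ × ℝ, x.1 ≤ 7 / 4 ∨ 2 ≤ x.1 → f x = x) (s : ℝ) (z : ℂ) :
    (PhD n).symm (mixD hf s (PhD n z)) ∈ XX.S ↔ z ∈ XX.S := by
  obtain ⟨x, rfl⟩ := pp_surj z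
  rw [PhD_pp, mixD_pp, PhD_symm_pp, XX_S, pp_S, pp_S, ← Ph_Sn n, Homeomorph.apply_symm_apply,
    mixE_Sn hn hf h1, Ph_Sn]

lemma mix_S' {n : ℕ} (hn : 1 ≤ n) {f : ℝ × ℝ ≃ₜ ℝ × ℝ} (hf : FW f)
    (h1 : ∀ x : ℝ × ℝ, x.1 ≤ 7 / 4 ∨ 2 ≤ x.1 → f x = x) (s : ℝ) (z : ℂ) :
    (PhD n).symm ((mixD hf s).symm (PhD n z)) ∈ XX.S ↔ z ∈ XX.S := by
  rw [← mix_S hn hf h1 s, Homeomorph.apply_symm_apply, Homeomorph.apply_symm_apply,
    Homeomorph.symm_apply_apply]

lemma c0 : ((0 : unitInterval) : ℝ) = 0 := rfl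

lemma c1 : ((1 : unitInterval) : ℝ) = 1 := rfl

lemma coe_cont : Continuous fun s : unitInterval => (s : ℝ) := continuous_subtype_val

/-- the isotopy -/
noncomputable def isoH {n : ℕ} (hn : 1 ≤ n) {f : ℝ × ℝ ≃ₜ ℝ × ℝ} (hf : FW f)
    (h1 : ∀ x : ℝ × ℝ, x.1 ≤ 7 / 4 ∨ 2 ≤ x.1 → f x = x) :
    unitInterval × XX.S ≃ₜ unitInterval × XX.S where
  toFun x := (x.1, ⟨(PhD n).symm (mixD hf x.1 (PhD n x.2)), (mix_S hn hf h1 _ _).2 x.2.2⟩)
  invFun x := (x.1, ⟨(PhD n).symm ((mixD hf x.1).symm (PhD n x.2)),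
    (mix_S' hn hf h1 _ _).2 x.2.2⟩)
  left_inv x := by
    ext
    · rfl
    · simp
  right_inv x := by
    ext
    · rfl
    · simp
  continuous_toFun := by
    have h2 := fam_aux val_cont (PhD n) hf
    have h3 : Continuous fun x : unitInterval × XX.S => ((x.1 : ℝ), x.2) :=
      (coe_cont.comp continuous_fst).prodMk continuous_snd
    exact continuous_fst.prodMk (Continuous.subtype_mk (h2.comp h3) _)
  continuous_invFun := by
    have h2 := fam_aux' val_cont (PhD n) hf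
    have h3 : Continuous fun x : unitInterval × XX.S => ((x.1 : ℝ), x.2) :=
      (coe_cont.comp continuous_fst).prodMk continuous_snd
    exact continuous_fst.prodMk (Continuous.subtype_mk (h2.comp h3) _)

lemma isoH_val {n : ℕ} (hn : 1 ≤ n) {f : ℝ × ℝ ≃ₜ ℝ × ℝ} (hf : FW f)
    (h1 : ∀ x : ℝ × ℝ, x.1 ≤ 7 / 4 ∨ 2 ≤ x.1 → f x = x) (x : unitInterval × XX.S) :
    ((isoH hn hf h1 x).2 : ℂ) = (PhD n).symm (mixD hf x.1 (PhD n x.2)) := rfl

lemma iso_of {n : ℕ} (hn : 1 ≤ n) {f : ℝ × ℝ ≃ₜ ℝ × ℝ} (hf : FW f)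
    (h1 : ∀ x : ℝ × ℝ, x.1 ≤ 7 / 4 ∨ 2 ≤ x.1 → f x = x) (φ : XX.S ≃ₜ XX.S)
    (hφ : ∀ z : XX.S, (φ z : ℂ) = (PhD n).symm (mixD hf 1 (PhD n z))) : XX.Isotopic φ := by
  have key : ∀ (s : ℝ) (x : ℝ × ℝ), (Ph n x).1 ≤ 7 / 4 ∨ 2 ≤ (Ph n x).1 →
      (PhD n).symm (mixD hf s (PhD n (pp x))) = pp x := by
    intro s x hx
    rw [PhD_pp, mixD_pp, mixE_fix hf s (h1 _ hx), PhD_symm_pp, Homeomorph.symm_apply_apply]
  refine ⟨isoH hn hf h1, fun _ => rfl, fun s z hz => ?_, fun z => ?_, fun z => ?_⟩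
  · refine Prod.ext rfl (Subtype.ext ?_)
    rw [isoH_val]
    simp only
    rcases (marked_iff z).1 hz with h | ⟨x, hx, h⟩
    · obtain ⟨x, hx⟩ := pp_surj (z : ℂ)
      rw [← hx]
      refine key _ _ (Or.inl ?_)
      rw [← hx, pp_zero_iff] at h
      have := ((Ph_radial n).mem.2 x).2 h
      linarith
    · rw [h]
      refine key _ _ ?_
      rcases (Ph_Mk n x).2 hx with ⟨j, hj⟩ | ⟨j, hj⟩ | ⟨m, i, j, -, hi, hj⟩
      · left
        rw [hj]
        norm_num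
      · right
        rw [hj]
        norm_num
      · right
        rw [hj]
        have h3 : (3 : ℝ) ≤ Rn m := by exact_mod_cast Rn_three_le (by omega)
        have h4 : (0 : ℝ) ≤ i := by positivity
        simp only
        linarith
  · refine Prod.ext rfl (Subtype.ext ?_)
    rw [isoH_val]
    change (PhD n).symm (mixD hf ((0 : unitInterval) : ℝ) (PhD n z)) = z
    rw [c0, mixD_zero, Homeomorph.symm_apply_apply]
  · refine Prod.ext rfl (Subtype.ext ?_)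
    rw [isoH_val, hφ z]
    change (PhD n).symm (mixD hf ((1 : unitInterval) : ℝ) (PhD n z)) = _
    rw [c1]

/-! ### the relations -/

/-- the difference between a power of a rotation and the rotation of the level below -/
noncomputable def dif (n : ℕ) : ℝ × ℝ ≃ₜ ℝ × ℝ := (Tn n)⁻¹ * (Tn (n + 1)) ^ (n + 1)

lemma dif_FW (n : ℕ) : FW (dif n) := (Tn_FW n).inv.mul ((Tn_FW (n + 1)).pow (n + 1))

lemma Tn_pow_low (n k : ℕ) {r t : ℝ} (h : r ≤ 7 / 4) : ((Tn n) ^ k) (r, t) = (r, t) := by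
  induction k with
  | zero => rfl
  | succ k ih =>
    rw [pow_succ']
    change Tn n (((Tn n) ^ k) (r, t)) = _
    rw [ih, Tn_low h]

lemma Tn_pow_high (n k : ℕ) {r t : ℝ} (h : 2 ≤ r) :
    ((Tn n) ^ k) (r, t) = (r, (tau n)^[k] t) := by
  induction k with
  | zero => rfl
  | succ k ih =>
    rw [pow_succ']
    change Tn n (((Tn n) ^ k) (r, t)) = _
    rw [ih, Tn_high h, Function.iterate_succ_apply']

lemma dif_fix (n : ℕ) (x : ℝ × ℝ) (h : x.1 ≤ 7 / 4 ∨ 2 ≤ x.1) : dif n x = x := by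
  obtain ⟨r, t⟩ := x
  change (Tn n).symm (((Tn (n + 1)) ^ (n + 1)) (r, t)) = (r, t)
  rw [Homeomorph.symm_apply_eq]
  rcases h with h | h
  · rw [Tn_pow_low _ _ h, Tn_low h]
  · rw [Tn_pow_high _ _ h, Tn_high h, tau_pow]

lemma Psi_Tn' {n : ℕ} (hn : 1 ≤ n) : Psi n * Tn n = Tn n * Psi n :=
  Homeomorph.ext fun x => Psi_Tn hn x

lemma Hn_dif {n : ℕ} (hn : 1 ≤ n) :
    (Hn n)⁻¹ * (Hn (n + 1)) ^ (n + 1) = (Ph (n + 1))⁻¹ * dif n * Ph (n + 1) := by
  have h1 : Hn n = (Ph (n + 1))⁻¹ * Tn n * Ph (n + 1) := by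
    have e : Ph (n + 1) = Psi n * Ph n := rfl
    unfold Hn
    rw [e, mul_inv_rev, mul_assoc _ (Tn n) (Psi n * Ph n), ← mul_assoc (Tn n) (Psi n),
      ← Psi_Tn' hn]
    group
  have h2 : (Hn (n + 1)) ^ (n + 1) = (Ph (n + 1))⁻¹ * (Tn (n + 1)) ^ (n + 1) * Ph (n + 1) := by
    have := conj_pow (i := n + 1) (a := (Ph (n + 1))⁻¹) (b := Tn (n + 1))
    rw [inv_inv] at this
    exact this
  rw [h1, h2]
  unfold dif
  group

lemma hD_pow_pp (n k : ℕ) (x : ℝ × ℝ) : ((hD n) ^ k) (pp x) = pp (((Hn n) ^ k) x) := by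
  induction k with
  | zero => rfl
  | succ k ih =>
    rw [pow_succ', pow_succ']
    change hD n (((hD n) ^ k) (pp x)) = pp (Hn n (((Hn n) ^ k) x))
    rw [ih, hD_pp]

lemma hD_symm_pp (n : ℕ) (x : ℝ × ℝ) : (hD n).symm (pp x) = pp ((Hn n).symm x) := by
  rw [Homeomorph.symm_apply_eq, hD_pp, Homeomorph.apply_symm_apply]

/-- the underlying homeomorphism -/
def und (g : XX.Grp) : XX.S ≃ₜ XX.S := g.1

lemma und_mul (g h : XX.Grp) (z : XX.S) : und (g * h) z = und g (und h z) := rfl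

lemma und_inv (g : XX.Grp) (z : XX.S) : und g⁻¹ z = (und g).symm z := rfl

lemma und_gn (n : ℕ) (z : XX.S) : (und (gn n) z : ℂ) = hD (n + 1) z := rfl

lemma und_gn_symm (n : ℕ) (z : XX.S) : ((und (gn n)).symm z : ℂ) = (hD (n + 1)).symm z := rfl

lemma und_pow (n k : ℕ) (z : XX.S) : (und ((gn n) ^ k) z : ℂ) = ((hD (n + 1)) ^ k) z := by
  induction k with
  | zero => rfl
  | succ k ih =>
    rw [pow_succ', pow_succ', und_mul, und_gn, ih]
    rfl

lemma inv_mul_apply' (a b : ℝ × ℝ ≃ₜ ℝ × ℝ) (x : ℝ × ℝ) : (a⁻¹ * b) x = a.symm (b x) := rfl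

lemma inv_mul_mul_apply' (a b c : ℝ × ℝ ≃ₜ ℝ × ℝ) (x : ℝ × ℝ) :
    (a⁻¹ * b * c) x = a.symm (b (c x)) := rfl

/-- the relations in the mapping class group -/
lemma rel (n : ℕ) : XX.cls (gn (n + 1)) ^ (n + 2) = XX.cls (gn n) := by
  rw [← map_pow]
  symm
  refine (QuotientGroup.eq (s := XX.Iso.subgroupOf XX.Grp)).2 ?_
  change XX.Isotopic (und ((gn n)⁻¹ * (gn (n + 1)) ^ (n + 2)))
  refine iso_of (one_le_succ (n + 1)) (dif_FW (n + 1)) (dif_fix (n + 1)) _ fun z => ?_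
  obtain ⟨x, -, hx⟩ := S_pp z
  rw [und_mul, und_inv, und_gn_symm, und_pow, hx, hD_pow_pp, hD_symm_pp, PhD_pp, mixD_pp,
    mixE_one, PhD_symm_pp]
  have h : ((Hn (n + 1))⁻¹ * (Hn (n + 1 + 1)) ^ (n + 1 + 1)) x
      = ((Ph (n + 1 + 1))⁻¹ * dif (n + 1) * Ph (n + 1 + 1)) x := by
    rw [Hn_dif (one_le_succ n)]
  rw [inv_mul_apply', inv_mul_mul_apply'] at h
  rw [← h]

/-! ### the Dehn twist -/

lemma Tn_one_pow (k : ℕ) (r t : ℝ) : ((Tn 1) ^ k) (r, t) = (r, t + k * chi r) := by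
  induction k with
  | zero => simp
  | succ k ih =>
    rw [pow_succ']
    change Tn 1 (((Tn 1) ^ k) (r, t)) = _
    rw [ih, Tn_apply, tau_one]
    push_cast
    congr 1
    ring

lemma Ph_one_axis (r : ℝ) : Ph 1 (r, 0) = (r, 0) := by
  change BH 0 (r, 0) = _
  rw [BH_apply, EB_core, add_zero]
  rw [U_at_zero]
  simpa using w_int 0

lemma Hn_one_pow (k : ℕ) {r : ℝ} (hr : 0 < r) :
    ∃ r' : ℝ, 0 < r' ∧ ((Hn 1) ^ k) (r, 0) = (r', k * chi r) := by
  have h2 : (Hn 1) ^ k = (Ph 1)⁻¹ * (Tn 1) ^ k * Ph 1 := by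
    have := conj_pow (i := k) (a := (Ph 1)⁻¹) (b := Tn 1)
    rw [inv_inv] at this
    exact this
  rw [h2]
  change ∃ r', 0 < r' ∧ (Ph 1).symm (((Tn 1) ^ k) (Ph 1 (r, 0))) = _
  rw [Ph_one_axis, Tn_one_pow, zero_add]
  set y := (Ph 1).symm (r, k * chi r) with hy
  have e : Ph 1 y = (r, k * chi r) := (Ph 1).apply_symm_apply _
  refine ⟨y.1, ?_, ?_⟩
  · by_contra hcon
    push Not at hcon
    have := ((Ph_radial 1).mem.2 y).2 hcon
    rw [e] at this
    simp only at this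
    linarith
  · ext
    · rfl
    · have := (Ph_radial 1).snd y
      rw [e] at this
      exact this.symm

lemma axis_mem (r : ℝ) : pp (r, 0) ∈ XX.S := by
  rw [XX_S, pp_S]
  intro m _
  right
  simp only
  rw [U_at_zero]
  have := w_int 0
  rw [Int.cast_zero] at this
  rw [this]
  simp

/-- the segment from the puncture at `3 / 2` to the puncture at `5 / 2` -/
noncomputable def gam (u : unitInterval) : XX.S := ⟨pp (3 / 2 + u, 0), axis_mem _⟩

lemma gam_cont : Continuous gam := by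
  refine Continuous.subtype_mk (pp_cont.comp ?_) _
  fun_prop

lemma ee_zero : ee 0 = 1 := by unfold ee; simp

lemma pp_axis {r : ℝ} (h : 0 ≤ r) : pp (r, 0) = r := by
  unfold pp
  simp only
  rw [max_eq_left h, ee_zero, mul_one]

lemma gam_zero_marked : gam 0 ∈ XX.marked := by
  rw [marked_iff]
  right
  refine ⟨_, Or.inl ⟨0, rfl⟩, ?_⟩
  change pp (3 / 2 + ((0 : unitInterval) : ℝ), 0) = _
  rw [c0]
  simp

lemma gam_one_marked : gam 1 ∈ XX.marked := by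
  rw [marked_iff]
  right
  refine ⟨_, Or.inr (Or.inl ⟨0, rfl⟩), ?_⟩
  change pp (3 / 2 + ((1 : unitInterval) : ℝ), 0) = pp (5 / 2, ((0 : ℤ) : ℝ))
  rw [c1, Int.cast_zero]
  norm_num

/-- the origin as a point of the surface -/
noncomputable def org : XX.S := XX.ptS rootV

lemma org_val : (org : ℂ) = 0 := ptv_root

lemma org_marked : org ∈ XX.marked := ⟨rootV, rfl⟩

/-- the powers of the Dehn twist are not isotopic to the identity -/
lemma twist {k : ℕ} (hk : 0 < k) : XX.cls (gn 0) ^ k ≠ 1 := by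
  intro h
  rw [← map_pow] at h
  have h1 : (gn 0) ^ k ∈ XX.Iso.subgroupOf XX.Grp := (QuotientGroup.eq_one_iff _).1 h
  have h2 : XX.Isotopic (und ((gn 0) ^ k)) := h1
  obtain ⟨Ψ, a, b, c, d⟩ := h2
  let H : unitInterval × unitInterval → ℂ := fun x => ((Ψ (x.1, gam x.2)).2 : ℂ)
  have hH : Continuous H := by
    have h3 : Continuous fun x : unitInterval × unitInterval => (x.1, gam x.2) :=
      continuous_fst.prodMk (gam_cont.comp continuous_snd)
    exact val_cont.comp (continuous_snd.comp (Ψ.continuous.comp h3))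
  have hfix : ∀ (s : unitInterval) (z : XX.S), z ∈ XX.marked → ((Ψ (s, z)).2 : ℂ) = z := by
    intro s z hz
    rw [b s z hz]
  have hpos : ∀ u : unitInterval, (0 : ℝ) < 3 / 2 + u := fun u => by
    have := u.2.1
    linarith
  have hne : ∀ x, H x ≠ 0 := by
    intro x hx
    have e : Ψ (x.1, gam x.2) = Ψ (x.1, org) := by
      refine Prod.ext ?_ (Subtype.ext ?_)
      · rw [a, a]
      · rw [hfix x.1 org org_marked, org_val]
        exact hx
    have e2 := congrArg Prod.snd (Ψ.injective e)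
    have e3 := congrArg Subtype.val e2
    simp only at e3
    rw [org_val] at e3
    change pp (3 / 2 + (x.2 : ℝ), 0) = 0 at e3
    rw [pp_zero_iff] at e3
    have := hpos x.2
    simp only at e3
    linarith
  have key := winding H hH hne ?_ ?_ ?_ (fun u => k * (chi (3 / 2 + u) : ℝ)) ?_ ?_ ?_
  · have key' : (k : ℝ) * chi (3 / 2 + ((1 : unitInterval) : ℝ)) = 0 := key
    rw [c1, chi_high (by norm_num), mul_one] at key'
    have : (k : ℝ) ≠ 0 := by positivity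
    exact this key'
  · intro u
    refine ⟨3 / 2 + u, hpos u, ?_⟩
    change ((Ψ (0, gam u)).2 : ℂ) = _
    rw [c]
    change pp (3 / 2 + (u : ℝ), 0) = _
    rw [pp_axis (hpos u).le]
  · intro s
    refine ⟨3 / 2, by norm_num, ?_⟩
    change ((Ψ (s, gam 0)).2 : ℂ) = _
    rw [hfix s _ gam_zero_marked]
    change pp (3 / 2 + ((0 : unitInterval) : ℝ), 0) = _
    rw [c0, add_zero, pp_axis (by norm_num)]
  · intro s
    refine ⟨5 / 2, by norm_num, ?_⟩
    change ((Ψ (s, gam 1)).2 : ℂ) = _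
    rw [hfix s _ gam_one_marked]
    change pp (3 / 2 + ((1 : unitInterval) : ℝ), 0) = _
    rw [c1, show (3 : ℝ) / 2 + 1 = 5 / 2 by norm_num, pp_axis (by norm_num)]
  · have := chi_cont
    fun_prop
  · rw [c0, chi_low (by norm_num), mul_zero]
  · intro u
    obtain ⟨r', hr', h5⟩ := Hn_one_pow k (hpos u)
    refine ⟨r', hr', ?_⟩
    change ((Ψ (1, gam u)).2 : ℂ) = _
    rw [d, und_pow]
    change ((hD 1) ^ k) (pp (3 / 2 + (u : ℝ), 0)) = _
    rw [hD_pow_pp, h5]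
    unfold pp
    simp only
    rw [max_eq_left hr'.le]

/-- the tree of a rigid surface is locally finite -/
lemma nbr_finite (X : RigidSurface) (v : X.V) : (X.T.neighborSet v).Finite := by
  have hc : IsCompact (X.P v) := by
    obtain ⟨e⟩ := X.disc v
    have h : CompactSpace (Metric.closedBall (0 : ℂ) 1) :=
      isCompact_iff_compactSpace.1 (isCompact_closedBall _ _)
    exact isCompact_iff_compactSpace.2 (e.symm.surjective.compactSpace e.symm.continuous)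
  refine (X.locFin.finite_nonempty_inter_compact hc).subset fun u hu => ?_
  obtain ⟨e⟩ := X.arc v u hu
  obtain ⟨x, hx⟩ := e.symm 0
  exact ⟨x, hx.2, hx.1⟩

end Pool.Agent.H350.QAR
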