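import Pool.Agent.H350.QAR.Disc
import Pool.Agent.H350.QAR.Fam

/-!
# The homeomorphisms of the surface
-/

set_option autoImplicit false

namespace Pool.Agent.H350.QAR

open Set Topology Pool.Agent.Q238.AR

/-- the straightening of level `n` as a homeomorphism of the plane -/
noncomputable def PhD (n : ℕ) : ℂ ≃ₜ ℂ := Dsc ⟨Ph n, (Ph_radial n).mem⟩

lemma PhD_pp (n : ℕ) (x : ℝ × ℝ) : PhD n (pp x) = pp (Ph n x) := Dsc_pp _ x

lemma PhD_symm_pp (n : ℕ) (x : ℝ × ℝ) : (PhD n).symm (pp x) = pp ((Ph n).symm x) := by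
  rw [Homeomorph.symm_apply_eq, PhD_pp, Homeomorph.apply_symm_apply]

/-- the root of the Dehn twist as a homeomorphism of the plane -/
noncomputable def hD (n : ℕ) : ℂ ≃ₜ ℂ := Dsc ⟨Hn n, Hn_mem n⟩

lemma hD_pp (n : ℕ) (x : ℝ × ℝ) : hD n (pp x) = pp (Hn n x) := Dsc_pp _ x

lemma hD_S {n : ℕ} (hn : 1 ≤ n) (z : ℂ) : z ∈ XX.S ↔ hD n z ∈ XX.S := by
  rw [XX_S]
  obtain ⟨x, rfl⟩ := pp_surj z
  rw [hD_pp, pp_S, pp_S, Hn_Sn hn]

lemma one_le_succ (n : ℕ) : 1 ≤ n + 1 := Nat.le_add_left 1 n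

/-- the homeomorphism of the surface -/
noncomputable def fn (n : ℕ) : XX.S ≃ₜ XX.S := (hD (n + 1)).subtype (hD_S (one_le_succ n))

lemma fn_val (n : ℕ) (z : XX.S) : (fn n z : ℂ) = hD (n + 1) z := rfl

/-! ### the admissible subsurface -/

noncomputable def Fn (n : ℕ) : Finset Vx := (fin_ht (Rn n - 1)).toFinset

lemma mem_Fn {n : ℕ} {v : Vx} : v ∈ Fn n ↔ ht v < Rn n := by
  unfold Fn
  rw [Set.Finite.mem_toFinset]
  have := Rn_one_le n
  simp only [mem_ofPred_eq]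
  omega

lemma S_pp (z : XX.S) : ∃ x ∈ Sn 0, (z : ℂ) = pp x := by
  obtain ⟨z, hz⟩ := z
  rw [XX_S] at hz
  obtain ⟨x, hx, rfl⟩ := hz
  exact ⟨x, hx, rfl⟩

lemma norm_pp_le {x : ℝ × ℝ} {n : ℕ} : ‖pp x‖ ≤ Rn n ↔ x.1 ≤ Rn n := by
  rw [pp_norm, max_le_iff]
  exact ⟨fun h => h.1, fun h => ⟨h, (Rn_pos' n).le⟩⟩

lemma mem_subF {n : ℕ} {z : XX.S} : z ∈ XX.sub (Fn n) ↔ ‖(z : ℂ)‖ ≤ Rn n := by
  rw [RigidSurface.mem_sub]
  constructor
  · rintro ⟨v, hv, hz⟩
    have hz' : (z : ℂ) ∈ PP v := hz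
    have h1 := (norm_PP hz').1
    have h2 : ht v + 1 ≤ Rn n := mem_Fn.1 hv
    have h3 : (ht v : ℝ) + 1 ≤ Rn n := by exact_mod_cast h2
    linarith
  · intro h
    obtain ⟨x, hx, hzx⟩ := S_pp z
    rw [hzx, norm_pp_le] at h
    obtain ⟨v, hv, hv2⟩ := cover_V hx
    refine ⟨v, mem_Fn.2 ?_, ?_⟩
    · rcases hv2 with h0 | h0
      · rw [h0]
        exact Rn_one_le n
      · have : (ht v : ℝ) < Rn n := by linarith
        exact_mod_cast this
    · change (z : ℂ) ∈ PP v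
      rw [hzx]
      exact hv

lemma sub_image (n : ℕ) : Subtype.val '' XX.sub (Fn n)
    = (PhD n).symm '' Metric.closedBall (0 : ℂ) (Rn n) := by
  ext z
  constructor
  · rintro ⟨y, hy, rfl⟩
    obtain ⟨x, hx, hyx⟩ := S_pp y
    rw [mem_subF, hyx, norm_pp_le] at hy
    refine ⟨PhD n y, ?_, (PhD n).symm_apply_apply _⟩
    rw [mem_closedBall_zero_iff, hyx, PhD_pp, norm_pp_le, Ph_le hx le_rfl]
    exact hy
  · rintro ⟨y, hy, rfl⟩
    obtain ⟨u, rfl⟩ := pp_surj y
    rw [mem_closedBall_zero_iff, norm_pp_le] at hy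
    have h1 : (Ph n).symm u ∈ Sn 0 := by
      rw [← Ph_Sn n, Homeomorph.apply_symm_apply]
      exact Sn_small hy
    have h2 : ((Ph n).symm u).1 ≤ Rn n := by
      rw [← Ph_le h1 le_rfl, Homeomorph.apply_symm_apply]
      exact hy
    refine ⟨⟨(PhD n).symm (pp u), ?_⟩, ?_, rfl⟩
    · rw [XX_S, PhD_symm_pp, pp_S]
      exact h1
    · rw [mem_subF]
      simp only
      rw [PhD_symm_pp, norm_pp_le]
      exact h2

lemma Fn_adm (n : ℕ) : XX.Admissible (Fn n) := by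
  refine ⟨⟨rootV, mem_Fn.2 (Rn_one_le n)⟩, ?_, ?_⟩
  · refine ⟨XX.ptS rootV, RigidSurface.mem_sub.2 ⟨rootV, mem_Fn.2 (Rn_one_le n), ?_⟩⟩
    exact RigidSurface.ptS_mem (X := XX) rootV
  · refine (Topology.IsInducing.subtypeVal.isPreconnected_image).1 ?_
    rw [sub_image]
    exact (convex_closedBall (0 : ℂ) _).isPreconnected.image _ (PhD n).symm.continuous.continuousOn

lemma Hn_le {n : ℕ} (hn : 1 ≤ n) {x : ℝ × ℝ} (hx : x ∈ Sn 0) : (Hn n x).1 ≤ Rn n ↔ x.1 ≤ Rn n := by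
  rw [← Ph_le ((Hn_Sn hn x).2 hx) le_rfl, Ph_Hn, Tn_fst, Ph_le hx le_rfl]

lemma fn_sub (n : ℕ) : fn n '' XX.sub (Fn (n + 1)) = XX.sub (Fn (n + 1)) := by
  have key : ∀ z : XX.S, fn n z ∈ XX.sub (Fn (n + 1)) ↔ z ∈ XX.sub (Fn (n + 1)) := by
    intro z
    obtain ⟨x, hx, hz⟩ := S_pp z
    rw [mem_subF, mem_subF, fn_val, hz, hD_pp, norm_pp_le, norm_pp_le, Hn_le (one_le_succ n) hx]
  ext z
  constructor
  · rintro ⟨y, hy, rfl⟩
    exact (key y).2 hy
  · intro hz
    refine ⟨(fn n).symm z, ?_, (fn n).apply_symm_apply z⟩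
    rw [← key, (fn n).apply_symm_apply]
    exact hz

/-- the rotation moves the regions outside the disc -/
lemma Hn_Reg {n : ℕ} (hn : 1 ≤ n) {l : ℕ} (hl : Rn n ≤ l) :
    ∃ c : ℤ, ∀ (k : ℤ) (x : ℝ × ℝ), Hn n x ∈ Reg l (k + c) ↔ x ∈ Reg l k := by
  have h1 : n ≤ lev l := lev_ge hl
  have hl1 : 1 ≤ l := (Rn_one_le n).trans hl
  obtain ⟨d, hd⟩ := Nat.exists_eq_add_of_le h1
  obtain ⟨c, -, hc⟩ := U_tau_ge n d
  rw [← hd] at hc
  refine ⟨c, fun k x => ?_⟩
  have hR : (Rn n : ℝ) ≤ l := by exact_mod_cast hl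
  have key : ∀ (k : ℤ) (x : ℝ × ℝ), x ∈ Reg l k → Hn n x = (x.1, tau n x.2) := by
    intro k x hx
    obtain ⟨h2, h3⟩ := Reg_Sn hl1 hx
    have hl' : (1 : ℝ) ≤ l := by exact_mod_cast hl1
    have h4 := hx.1
    exact Hn_large hn h2 (hR.trans hx.1)
      (le_one_mono (by linarith) (w_mono_level h1 x.2) h3)
  have key2 : ∀ (k : ℤ) (r t : ℝ), ((r, tau n t) : ℝ × ℝ) ∈ Reg l (k + c) ↔
      ((r, t) : ℝ × ℝ) ∈ Reg l k := by
    intro k r t
    unfold Reg
    simp only [mem_ofPred_eq]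
    rw [hc]
    push_cast
    constructor
    · rintro ⟨a1, a2, a3, a4⟩
      exact ⟨a1, a2, by linarith, by linarith⟩
    · rintro ⟨a1, a2, a3, a4⟩
      exact ⟨a1, a2, by linarith, by linarith⟩
  constructor
  · intro h
    obtain ⟨r, s⟩ := x
    set y := Hn n (r, s) with hy
    have e : y = (y.1, tau n ((tau n).symm y.2)) := by
      rw [Homeomorph.apply_symm_apply]
    have h5 : ((y.1, (tau n).symm y.2) : ℝ × ℝ) ∈ Reg l k := by
      rw [← key2, ← e]
      exact h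
    have h6 := key _ _ h5
    simp only at h6
    rw [← e, hy] at h6
    have h7 := (Hn n).injective h6
    rw [← h7]
    exact h5
  · intro h
    rw [key k x h]
    exact (key2 k x.1 x.2).2 h

lemma fn_wit (n : ℕ) : XX.Wit (fn n) (Fn (n + 1)) (Fn (n + 1)) := by
  refine ⟨Fn_adm _, Fn_adm _, fn_sub n, fun v hv => ?_⟩
  obtain ⟨⟨l, j⟩, hj⟩ := v
  have hl : Rn (n + 1) ≤ l := by
    by_contra h
    push Not at h
    exact hv (mem_Fn.2 h)
  have hl1 : 1 ≤ l := (Rn_one_le _).trans hl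
  obtain ⟨c, hc⟩ := Hn_Reg (one_le_succ n) hl
  have hpz : (0 : ℤ) < NN l := by exact_mod_cast NN_pos l
  have hj0 : 0 ≤ ((j : ℤ) + c) % NN l := Int.emod_nonneg _ hpz.ne'
  have hj1 : ((j : ℤ) + c) % NN l < NN l := Int.emod_lt_of_pos _ hpz
  obtain ⟨j', hj'⟩ := Int.eq_ofNat_of_zero_le hj0
  have hj2 : j' < NN l := by
    rw [hj'] at hj1
    exact_mod_cast hj1
  have hd : ((j' : ℕ) : ℤ) + NN l * (((j : ℤ) + c) / NN l) = j + c := by
    have := Int.emod_add_mul_ediv ((j : ℤ) + c) (NN l)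
    rw [hj'] at this
    exact this
  refine ⟨⟨(l, j'), hj2⟩, fun h => ?_, ?_⟩
  · have : l < Rn (n + 1) := mem_Fn.1 h
    omega
  · have key : ∀ z : XX.S, fn n z ∈ XX.poly ⟨(l, j'), hj2⟩ ↔ z ∈ XX.poly ⟨(l, j), hj⟩ := by
      intro z
      change (fn n z : ℂ) ∈ PP ⟨(l, j'), hj2⟩ ↔ (z : ℂ) ∈ PP ⟨(l, j), hj⟩
      rw [fn_val, PP_of hl1, PP_of hl1]
      obtain ⟨x, -, hx⟩ := S_pp z
      rw [hx, hD_pp, mem_PPr hl1, mem_PPr hl1]
      constructor
      · rintro ⟨m, hm⟩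
        refine ⟨m - ((j : ℤ) + c) / NN l, ?_⟩
        have e : (j : ℤ) + NN l * (m - ((j : ℤ) + c) / NN l) + c = j' + NN l * m := by
          linear_combination -hd
        rw [← hc, e]
        exact hm
      · rintro ⟨m, hm⟩
        refine ⟨m + ((j : ℤ) + c) / NN l, ?_⟩
        have e : (j' : ℤ) + NN l * (m + ((j : ℤ) + c) / NN l) = j + NN l * m + c := by
          linear_combination hd
        rw [← hc] at hm
        rw [e]
        exact hm
    ext z
    constructor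
    · rintro ⟨y, hy, rfl⟩
      exact (key y).2 hy
    · intro hz
      refine ⟨(fn n).symm z, ?_, (fn n).apply_symm_apply z⟩
      rw [← key, (fn n).apply_symm_apply]
      exact hz

/-! ### orientation -/

lemma fam_aux {Y : Type*} [TopologicalSpace Y] {i : Y → ℂ} (hi : Continuous i) (A : ℂ ≃ₜ ℂ)
    {f : ℝ × ℝ ≃ₜ ℝ × ℝ} (hf : FW f) :
    Continuous fun x : ℝ × Y => A.symm (mixD hf x.1 (A (i x.2))) := by
  have h3 : Continuous fun x : ℝ × Y => (x.1, A (i x.2)) :=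
    continuous_fst.prodMk (A.continuous.comp (hi.comp continuous_snd))
  have h4 := (mixD_cont hf).comp h3
  exact A.symm.continuous.comp h4

lemma fam_aux' {Y : Type*} [TopologicalSpace Y] {i : Y → ℂ} (hi : Continuous i) (A : ℂ ≃ₜ ℂ)
    {f : ℝ × ℝ ≃ₜ ℝ × ℝ} (hf : FW f) :
    Continuous fun x : ℝ × Y => A.symm ((mixD hf x.1).symm (A (i x.2))) := by
  have h3 : Continuous fun x : ℝ × Y => (x.1, A (i x.2)) :=
    continuous_fst.prodMk (A.continuous.comp (hi.comp continuous_snd))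
  have h4 := (mixD_symm_cont hf).comp h3
  exact A.symm.continuous.comp h4

lemma val_cont : Continuous fun x : XX.S => (x : ℂ) := continuous_subtype_val

lemma fn_or (n : ℕ) : XX.OrPres (fn n) := by
  intro z
  have hT := Tn_FW (n + 1)
  refine ⟨univ, Filter.univ_mem,
    fun x => (PhD (n + 1)).symm (mixD hT x.1 (PhD (n + 1) x.2)), ?_, ?_, ?_, ?_⟩
  · exact (fam_aux val_cont (PhD (n + 1)) hT).continuousOn
  · intro s _ x _ y _ hxy
    have h0 : (PhD (n + 1)).symm (mixD hT s (PhD (n + 1) (x : ℂ)))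
        = (PhD (n + 1)).symm (mixD hT s (PhD (n + 1) (y : ℂ))) := hxy
    have h1 := (PhD (n + 1)).symm.injective h0
    have h2 := (mixD hT s).injective h1
    exact Subtype.ext ((PhD (n + 1)).injective h2)
  · intro x _
    simp only
    rw [mixD_zero, Homeomorph.symm_apply_apply]
  · intro x _
    simp only
    obtain ⟨y, hy⟩ := pp_surj (x : ℂ)
    rw [fn_val, ← hy, hD_pp, PhD_pp, mixD_pp, mixE_one, Homeomorph.symm_apply_eq, PhD_pp, Ph_Hn]

/-! ### the punctures -/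

lemma marked_iff (z : XX.S) : z ∈ XX.marked ↔ (z : ℂ) = 0 ∨ ∃ x ∈ Mk 0, (z : ℂ) = pp x := by
  constructor
  · rintro ⟨⟨⟨l, j⟩, hj⟩, hv⟩
    have hv' : (z : ℂ) = ptv ⟨(l, j), hj⟩ := hv
    rcases Nat.eq_zero_or_pos l with h | hl
    · subst h
      left
      rw [hv', ht_zero (v := ⟨(0, j), hj⟩) rfl, ptv_root]
    · right
      rw [ptv_of hl] at hv'
      refine ⟨_, ?_, hv'⟩
      rcases layer_cases hl with h | ⟨n, i, hi, rfl, hn⟩
      · have h3 : l < 3 := by
          have := (lev_spec hl).2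
          rw [h] at this
          exact this
        have h4 : l = 1 ∨ l = 2 := by omega
        rcases h4 with rfl | rfl
        · left
          refine ⟨j + 1, ?_⟩
          rw [tp_zero h]
          push_cast
          congr 1
          norm_num
        · right
          left
          refine ⟨j + 2, ?_⟩
          rw [tp_zero h]
          change _ = ((5 : ℝ) / 2, _)
          congr 1
          · norm_num
          · change _ = (((j : ℤ) + 2 : ℤ) : ℝ)
            push_cast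
            rfl
      · right
        right
        refine ⟨n, i, j, Nat.zero_le _, hi, ?_⟩
        rw [tp_pos hi]
        congr 1
        push_cast
        ring
  · rintro (h | ⟨x, hx, hz⟩)
    · exact ⟨rootV, by rw [h]; exact ptv_root.symm⟩
    · have n1 : (0 : ℕ) < NN 1 := NN_pos 1
      have n2 : (0 : ℕ) < NN 2 := NN_pos 2
      rcases hx with ⟨j, rfl⟩ | ⟨j, rfl⟩ | ⟨m, i, j, -, hi, rfl⟩
      · refine ⟨⟨(1, 0), n1⟩, ?_⟩
        change (z : ℂ) = ptv ⟨(1, 0), n1⟩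
        rw [hz, ptv_of le_rfl, tp_zero rfl, pp_eq]
        right
        refine ⟨by norm_num, j - 1, ?_⟩
        push_cast
        ring
      · refine ⟨⟨(2, 0), n2⟩, ?_⟩
        change (z : ℂ) = ptv ⟨(2, 0), n2⟩
        rw [hz, ptv_of (by norm_num), tp_zero rfl, pp_eq]
        right
        refine ⟨by norm_num, j - 2, ?_⟩
        change ((j : ℤ) : ℝ) = _
        push_cast
        ring
      · have hl : 1 ≤ Rn m + i := (Rn_one_le m).trans (Nat.le_add_right _ _)
        have hlev : lev (Rn m + i) = m := lev_eq (by omega) (by rw [Rn_succ (by omega)]; omega)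
        have hpz : (0 : ℤ) < NN (Rn m + i) := by exact_mod_cast NN_pos _
        have hj0 : 0 ≤ j % NN (Rn m + i) := Int.emod_nonneg _ hpz.ne'
        have hj1 : j % NN (Rn m + i) < NN (Rn m + i) := Int.emod_lt_of_pos _ hpz
        obtain ⟨j', hj'⟩ := Int.eq_ofNat_of_zero_le hj0
        have hj2 : j' < NN (Rn m + i) := by
          rw [hj'] at hj1
          exact_mod_cast hj1
        have hd : ((j' : ℕ) : ℤ) + NN (Rn m + i) * (j / NN (Rn m + i)) = j := by
          have := Int.emod_add_mul_ediv j (NN (Rn m + i))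
          rw [hj'] at this
          exact this
        refine ⟨⟨(Rn m + i, j'), hj2⟩, ?_⟩
        change (z : ℂ) = ptv ⟨(Rn m + i, j'), hj2⟩
        rw [hz, ptv_of hl, tp_pos hi, pp_eq]
        right
        refine ⟨by push_cast; ring, j / NN (Rn m + i), ?_⟩
        simp only
        rw [Homeomorph.symm_apply_eq, U_add_intCast, Homeomorph.apply_symm_apply,
          Nat.factorial_succ]
        have e : (NN (Rn m + i) : ℤ) = m.factorial := by
          unfold NN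
          rw [hlev]
        rw [e] at hd ⊢
        have hd' : (j : ℝ) = j' + m.factorial * ((j / (m.factorial : ℤ) : ℤ) : ℝ) := by
          exact_mod_cast hd.symm
        push_cast at hd' ⊢
        rw [hd']
        push_cast
        ring

lemma Mk_pos {n : ℕ} {x : ℝ × ℝ} (hx : x ∈ Mk n) : 0 < x.1 := by
  rcases hx with ⟨j, rfl⟩ | ⟨j, rfl⟩ | ⟨m, i, j, -, hi, rfl⟩
  · norm_num
  · norm_num
  · have := Rn_pos' m
    have h : (0 : ℝ) ≤ i := by positivity
    simp only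
    linarith

lemma Mk_int {x : ℝ × ℝ} (m : ℤ) (hx : x ∈ Mk 0) : x + (0, (m : ℝ)) ∈ Mk 0 := by
  rcases hx with ⟨j, rfl⟩ | ⟨j, rfl⟩ | ⟨k, i, j, h0, hi, rfl⟩
  · left
    exact ⟨j + m, by ext <;> simp⟩
  · right
    left
    refine ⟨j + m, ?_⟩
    change _ = ((5 : ℝ) / 2, (((j + m : ℤ)) : ℝ))
    ext
    · simp
    · change ((j : ℤ) : ℝ) + m = _
      push_cast
      rfl
  · right
    right
    refine ⟨k, i, j + k.factorial * m, h0, hi, ?_⟩
    ext
    · simp
    · simp only [Prod.snd_add]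
      rw [Homeomorph.eq_symm_apply, U_add_intCast, Homeomorph.apply_symm_apply,
        Nat.factorial_succ]
      push_cast
      ring

lemma pp_Mk {x : ℝ × ℝ} : (∃ y ∈ Mk 0, pp x = pp y) ↔ x ∈ Mk 0 := by
  constructor
  · rintro ⟨y, hy, h⟩
    have := Mk_pos hy
    rw [pp_eq] at h
    rcases h with ⟨-, h⟩ | ⟨h1, m, h2⟩
    · linarith
    · have e : x = y + (0, (m : ℝ)) := by
        ext
        · simp [h1]
        · simp [h2]
      rw [e]
      exact Mk_int m hy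
  · exact fun h => ⟨x, h, rfl⟩

lemma pp_zero_iff {x : ℝ × ℝ} : pp x = 0 ↔ x.1 ≤ 0 := by
  rw [← norm_eq_zero, pp_norm]
  constructor
  · intro h
    rw [← h]
    exact le_max_left _ _
  · exact fun h => max_eq_right h

lemma fn_marked (n : ℕ) : fn n '' XX.marked = XX.marked := by
  have key : ∀ z : XX.S, fn n z ∈ XX.marked ↔ z ∈ XX.marked := by
    intro z
    obtain ⟨x, -, hx⟩ := S_pp z
    rw [marked_iff, marked_iff, fn_val, hx, hD_pp, pp_Mk, pp_Mk, Hn_Mk, pp_zero_iff, pp_zero_iff,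
      (Hn_mem (n + 1)).2]
  ext z
  constructor
  · rintro ⟨y, hy, rfl⟩
    exact (key y).2 hy
  · intro hz
    refine ⟨(fn n).symm z, ?_, (fn n).apply_symm_apply z⟩
    rw [← key, (fn n).apply_symm_apply]
    exact hz

/-- the element of the group of asymptotically rigid homeomorphisms -/
noncomputable def gn (n : ℕ) : XX.Grp := ⟨fn n, fn_marked n, ⟨_, _, fn_wit n⟩, fn_or n⟩

end Pool.Agent.H350.QAR
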