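import Mathlib

/-!
# Piecewise linear coordinates of the line

`U n` is a homeomorphism of the line; in the coordinate `U n` the sectors of level `n` are the
intervals `[j, j + 1/2]`, the gaps between them the intervals `(j + 1/2, j + 1)`. Passing from
`U n` to `U (n + 1) = V n ∘ U n` each sector is cut into `2 n + 1` equal pieces, alternately
sectors and gaps of level `n + 1`, and the gaps are translated.
-/

set_option autoImplicit false

namespace Pool.Agent.H350.QAR

open Set Topology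

/-- from the coordinate of level `n` to the coordinate of level `n + 1` -/
noncomputable def V (n : ℕ) (x : ℝ) : ℝ :=
  (n + 1) * ⌊x⌋ + min ((2 * n + 1) * Int.fract x) (n + Int.fract x)

lemma V_add_int (n : ℕ) (x : ℝ) (m : ℤ) : V n (x + m) = V n x + (n + 1) * m := by
  unfold V
  rw [Int.floor_add_intCast, Int.fract_add_intCast]
  push_cast
  ring

lemma V_add (n : ℕ) (x : ℝ) : V n (x + 1) = V n x + (n + 1) := by
  have := V_add_int n x 1
  push_cast at this
  rw [this]
  ring

/-- the formula on a unit interval -/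
lemma V_of_mem {n : ℕ} {x : ℝ} (j : ℤ) (h1 : j ≤ x) (h2 : x ≤ j + 1) :
    V n x = (n + 1) * j + min ((2 * n + 1) * (x - j)) (n + (x - j)) := by
  rcases h2.eq_or_lt with h2 | h2
  · have e : x = ((j + 1 : ℤ) : ℝ) := by push_cast; exact h2
    have hf : ⌊x⌋ = j + 1 := by rw [e, Int.floor_intCast]
    have hfr : Int.fract x = 0 := by rw [e, Int.fract_intCast]
    unfold V
    rw [hf, hfr, h2]
    have h3 : (j : ℝ) + 1 - j = 1 := by ring
    rw [h3, mul_zero, add_zero, mul_one]
    have hn : (0 : ℝ) ≤ n := by positivity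
    rw [min_eq_left hn, min_eq_right (by linarith)]
    push_cast
    ring
  · have hf : ⌊x⌋ = j := Int.floor_eq_iff.2 ⟨h1, h2⟩
    unfold V Int.fract
    rw [hf]

lemma V_int (n : ℕ) (j : ℤ) : V n j = (n + 1) * j := by
  rw [V_of_mem j le_rfl (by linarith)]
  have hn : (0 : ℝ) ≤ n := by positivity
  simp [min_eq_left hn]

lemma V_sector {n : ℕ} {x : ℝ} (j : ℤ) (h1 : j ≤ x) (h2 : x ≤ j + 1 / 2) :
    V n x = (n + 1) * j + (2 * n + 1) * (x - j) := by
  rw [V_of_mem j h1 (by linarith), min_eq_left]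
  have hn : (0 : ℝ) ≤ n := by positivity
  nlinarith

lemma V_gap {n : ℕ} {x : ℝ} (j : ℤ) (h1 : j + 1 / 2 ≤ x) (h2 : x ≤ j + 1) :
    V n x = (n + 1) * j + n + (x - j) := by
  rw [V_of_mem j (by linarith) h2, min_eq_right]
  · ring
  · have hn : (0 : ℝ) ≤ n := by positivity
    nlinarith

lemma V_strict (n : ℕ) : StrictMono (V n) := by
  intro x y h
  have hn : (0 : ℝ) ≤ n := by positivity
  have hx1 := Int.floor_le x
  have hx2 := (Int.lt_floor_add_one x).le
  have hy1 := Int.floor_le y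
  have hy2 := (Int.lt_floor_add_one y).le
  rcases (Int.floor_le_floor h.le).eq_or_lt with h1 | h1
  · rw [V_of_mem ⌊x⌋ hx1 hx2, V_of_mem ⌊x⌋ (h1 ▸ hy1) (h1 ▸ hy2)]
    have : min ((2 * (n : ℝ) + 1) * (x - ⌊x⌋)) (n + (x - ⌊x⌋))
        < min ((2 * (n : ℝ) + 1) * (y - ⌊x⌋)) (n + (y - ⌊x⌋)) := by
      refine min_lt_min ?_ ?_
      · nlinarith
      · linarith
    linarith
  · have h3 : (⌊x⌋ : ℝ) + 1 ≤ ⌊y⌋ := by exact_mod_cast h1
    have e1 : V n x < (n + 1) * (⌊x⌋ + 1) := by
      rw [V_of_mem ⌊x⌋ hx1 hx2]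
      have := min_le_right ((2 * (n : ℝ) + 1) * (x - ⌊x⌋)) (n + (x - ⌊x⌋))
      have := Int.lt_floor_add_one x
      linarith
    have e2 : (n + 1) * (⌊y⌋ : ℝ) ≤ V n y := by
      rw [V_of_mem ⌊y⌋ hy1 hy2]
      have : 0 ≤ min ((2 * (n : ℝ) + 1) * (y - ⌊y⌋)) (n + (y - ⌊y⌋)) := by
        refine le_min ?_ ?_
        · have : 0 ≤ y - ⌊y⌋ := by linarith
          positivity
        · linarith
      linarith
    nlinarith

lemma V_surj (n : ℕ) : Function.Surjective (V n) := by
  intro y
  have hn : (0 : ℝ) ≤ n := by positivity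
  have hn1 : (0 : ℝ) < n + 1 := by positivity
  have hn2 : (0 : ℝ) < 2 * n + 1 := by positivity
  set j := ⌊y / (n + 1)⌋ with hj
  have h1 : (n + 1) * (j : ℝ) ≤ y := by
    have := Int.floor_le (y / (n + 1))
    rw [← hj, le_div_iff₀ hn1] at this
    linarith
  have h2 : y < (n + 1) * (j : ℝ) + (n + 1) := by
    have := Int.lt_floor_add_one (y / (n + 1))
    rw [← hj, div_lt_iff₀ hn1] at this
    linarith
  rcases le_total (y - (n + 1) * j) (n + 1 / 2) with h3 | h3
  · refine ⟨j + (y - (n + 1) * j) / (2 * n + 1), ?_⟩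
    have h4 : 0 ≤ (y - (n + 1) * j) / (2 * n + 1) := div_nonneg (by linarith) hn2.le
    have h5 : (y - (n + 1) * j) / (2 * n + 1) ≤ 1 / 2 := by
      rw [div_le_iff₀ hn2]
      linarith
    rw [V_sector j (by linarith) (by linarith), add_sub_cancel_left, mul_div_cancel₀ _ hn2.ne']
    ring
  · refine ⟨j + (y - (n + 1) * j - n), ?_⟩
    rw [V_gap j (by linarith) (by linarith)]
    ring

/-- `V n` as a homeomorphism -/
noncomputable def VH (n : ℕ) : ℝ ≃ₜ ℝ :=
  ((V_strict n).orderIsoOfSurjective (V n) (V_surj n)).toHomeomorph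

lemma VH_apply (n : ℕ) (x : ℝ) : VH n x = V n x := rfl

/-- the coordinates -/
noncomputable def U : ℕ → (ℝ ≃ₜ ℝ)
  | 0 => Homeomorph.refl ℝ
  | n + 1 => (U n).trans (VH n)

lemma U_zero (x : ℝ) : U 0 x = x := rfl

lemma U_succ (n : ℕ) (x : ℝ) : U (n + 1) x = V n (U n x) := rfl

lemma V_zero (x : ℝ) : V 0 x = x := by
  unfold V
  simp

lemma U_one (x : ℝ) : U 1 x = x := by
  rw [U_succ, V_zero, U_zero]

lemma U_strict (n : ℕ) : StrictMono (U n) := by
  induction n with
  | zero => exact strictMono_id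
  | succ n ih => exact (V_strict n).comp ih

lemma U_add_one (n : ℕ) (t : ℝ) : U n (t + 1) = U n t + (n.factorial : ℕ) := by
  induction n with
  | zero =>
    rw [U_zero, U_zero]
    simp
  | succ n ih =>
    rw [U_succ, ih, U_succ]
    have := V_add_int n (U n t) (n.factorial : ℤ)
    rw [show ((n.factorial : ℕ) : ℝ) = ((n.factorial : ℤ) : ℝ) by push_cast; rfl, this,
      Nat.factorial_succ]
    push_cast
    ring

lemma U_at_zero (n : ℕ) : U n 0 = 0 := by
  induction n with
  | zero => rfl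
  | succ n ih =>
    rw [U_succ, ih]
    have := V_int n 0
    simpa using this

/-- rotation by one sector of level `n` -/
noncomputable def tau (n : ℕ) : ℝ ≃ₜ ℝ :=
  ((U n).trans (Homeomorph.addRight (1 : ℝ))).trans (U n).symm

lemma U_tau (n : ℕ) (t : ℝ) : U n (tau n t) = U n t + 1 := by
  change U n ((U n).symm (U n t + 1)) = _
  rw [Homeomorph.apply_symm_apply]

lemma Usymm_strict (n : ℕ) : StrictMono (U n).symm := by
  intro x y h
  by_contra hcon
  push Not at hcon
  have := (U_strict n).monotone hcon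
  rw [Homeomorph.apply_symm_apply, Homeomorph.apply_symm_apply] at this
  linarith

lemma tau_strict (n : ℕ) : StrictMono (tau n) := by
  intro x y h
  refine (Usymm_strict n) ?_
  change U n x + 1 < U n y + 1
  have := U_strict n h
  linarith

/-- the rotation moves the coordinates of all higher levels by constants -/
lemma U_tau_ge (n d : ℕ) : ∃ c : ℕ, 0 < c ∧ ∀ t, U (n + d) (tau n t) = U (n + d) t + c := by
  induction d with
  | zero =>
    refine ⟨1, Nat.one_pos, fun t => ?_⟩
    have := U_tau n t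
    simpa using this
  | succ d ih =>
    obtain ⟨c, hc, h⟩ := ih
    refine ⟨(n + d + 1) * c, by positivity, fun t => ?_⟩
    rw [← add_assoc, U_succ, h, U_succ]
    have := V_add_int (n + d) (U (n + d) t) (c : ℤ)
    rw [show ((c : ℕ) : ℝ) = ((c : ℤ) : ℝ) by push_cast; rfl, this]
    push_cast
    ring

lemma U_tau_succ (n : ℕ) (t : ℝ) : U (n + 1) (tau n t) = U (n + 1) t + (n + 1) := by
  rw [U_succ, U_tau, V_add, U_succ]

lemma tau_iter (n : ℕ) (k : ℕ) (t : ℝ) : U n ((tau n)^[k] t) = U n t + k := by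
  induction k with
  | zero => simp
  | succ k ih =>
    rw [Function.iterate_succ_apply', U_tau, ih]
    push_cast
    ring

lemma tau_pow (n : ℕ) (t : ℝ) : (tau (n + 1))^[n + 1] t = tau n t := by
  apply (U (n + 1)).injective
  rw [tau_iter, U_tau_succ]
  push_cast
  ring

lemma tau_add_one (n : ℕ) (t : ℝ) : tau n (t + 1) = tau n t + 1 := by
  apply (U n).injective
  rw [U_tau, U_add_one, U_add_one, U_tau]
  ring

lemma tau_one (t : ℝ) : tau 1 t = t + 1 := by
  apply (U 1).injective
  rw [U_tau, U_one, U_one]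

/-- the position inside a gap: zero in the sectors -/
noncomputable def w (x : ℝ) : ℝ := max 0 (min (Int.fract x - 1 / 2) (1 - Int.fract x))

lemma w_nonneg (x : ℝ) : 0 ≤ w x := le_max_left _ _

lemma w_add_int (x : ℝ) (m : ℤ) : w (x + m) = w x := by
  unfold w
  rw [Int.fract_add_intCast]

lemma w_add_nat (x : ℝ) (m : ℕ) : w (x + m) = w x := by
  have := w_add_int x m
  simpa using this

lemma w_of_mem {x : ℝ} (j : ℤ) (h1 : j ≤ x) (h2 : x ≤ j + 1) :
    w x = max 0 (min (x - j - 1 / 2) (1 - (x - j))) := by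
  rcases h2.eq_or_lt with h2 | h2
  · have e : x = ((j + 1 : ℤ) : ℝ) := by push_cast; exact h2
    have hfr : Int.fract x = 0 := by rw [e, Int.fract_intCast]
    unfold w
    rw [hfr, h2]
    norm_num
  · have hf : ⌊x⌋ = j := Int.floor_eq_iff.2 ⟨h1, h2⟩
    unfold w Int.fract
    rw [hf]

lemma w_sector {x : ℝ} (j : ℤ) (h1 : j ≤ x) (h2 : x ≤ j + 1 / 2) : w x = 0 := by
  rw [w_of_mem j h1 (by linarith)]
  exact max_eq_left ((min_le_left _ _).trans (by linarith))

lemma w_gap {x : ℝ} (j : ℤ) (h1 : j + 1 / 2 ≤ x) (h2 : x ≤ j + 1) :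
    w x = min (x - j - 1 / 2) (1 - (x - j)) := by
  rw [w_of_mem j (by linarith) h2]
  exact max_eq_right (le_min (by linarith) (by linarith))

lemma w_int (j : ℤ) : w j = 0 := w_sector j le_rfl (by linarith)

lemma w_cont : Continuous w := by
  have h0 : Continuous fun x : ℝ => max (0 : ℝ) (min (x - 1 / 2) (1 - x)) := by fun_prop
  have h1 : Continuous fun u : ℝ =>
      (fun x : ℝ => max (0 : ℝ) (min (x - 1 / 2) (1 - x))) (Int.fract u) := by
    refine ContinuousOn.comp_fract'' h0.continuousOn ?_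
    norm_num
  exact h1

lemma w_le (x : ℝ) : w x ≤ 1 / 4 := by
  unfold w
  refine max_le (by norm_num) ?_
  rcases le_total (Int.fract x) (3 / 4) with h | h
  · exact (min_le_left _ _).trans (by linarith)
  · exact (min_le_right _ _).trans (by linarith)

lemma w_V_gap {n : ℕ} {x : ℝ} (j : ℤ) (h1 : j + 1 / 2 ≤ x) (h2 : x ≤ j + 1) :
    w (V n x) = w x := by
  rw [V_gap j h1 h2, w_gap j h1 h2]
  have e1 : (((n + 1 : ℕ) * j + n : ℤ) : ℝ) = (n + 1) * j + n := by push_cast; ring
  rw [w_gap ((n + 1 : ℕ) * j + n : ℤ) (by rw [e1]; linarith) (by rw [e1]; linarith), e1]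
  congr 1 <;> ring

lemma w_le_V (n : ℕ) (x : ℝ) : w x ≤ w (V n x) := by
  have hx1 := Int.floor_le x
  have hx2 := (Int.lt_floor_add_one x).le
  rcases le_total x (⌊x⌋ + 1 / 2) with h | h
  · rw [w_sector ⌊x⌋ hx1 h]
    exact w_nonneg _
  · rw [w_V_gap ⌊x⌋ h hx2]

lemma w_mono_level {m n : ℕ} (h : m ≤ n) (t : ℝ) : w (U m t) ≤ w (U n t) := by
  induction n, h using Nat.le_induction with
  | base => exact le_rfl
  | succ n _ ih =>
    rw [U_succ]
    exact ih.trans (w_le_V _ _)

/-- in a gap of level `m` the position is the same in all higher levels -/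
lemma w_const_level {m n : ℕ} (h : m ≤ n) {t : ℝ} (ht : 0 < w (U m t)) :
    w (U n t) = w (U m t) := by
  induction n, h using Nat.le_induction with
  | base => rfl
  | succ n _ ih =>
    rw [U_succ]
    have hx1 := Int.floor_le (U n t)
    have hx2 := (Int.lt_floor_add_one (U n t)).le
    rcases le_total (U n t) (⌊U n t⌋ + 1 / 2) with h | h
    · rw [w_sector ⌊U n t⌋ hx1 h] at ih
      linarith
    · rw [w_V_gap ⌊U n t⌋ h hx2, ih]

lemma w_tau {m n : ℕ} (h : n ≤ m) (t : ℝ) : w (U m (tau n t)) = w (U m t) := by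
  obtain ⟨d, rfl⟩ := Nat.exists_eq_add_of_le h
  obtain ⟨c, -, hc⟩ := U_tau_ge n d
  rw [hc, w_add_nat]

/-- the sectors, slightly enlarged -/
lemma w_le_iff {x δ : ℝ} (h0 : 0 ≤ δ) :
    w x ≤ δ ↔ ∃ j : ℤ, j - δ ≤ x ∧ x ≤ j + 1 / 2 + δ := by
  have hx1 := Int.floor_le x
  have hx2 := (Int.lt_floor_add_one x).le
  constructor
  · intro h
    rcases le_total x (⌊x⌋ + 1 / 2) with h1 | h1
    · exact ⟨⌊x⌋, by linarith, by linarith⟩
    · rw [w_gap ⌊x⌋ h1 hx2] at h
      rcases min_le_iff.1 h with h2 | h2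
      · exact ⟨⌊x⌋, by linarith, by linarith⟩
      · refine ⟨⌊x⌋ + 1, ?_, ?_⟩ <;> push_cast <;> linarith
  · rintro ⟨j, h1, h2⟩
    rcases le_total x j with h3 | h3
    · have h4 : ∀ y : ℝ, w y ≤ |y - j| := by
        intro y
        have hy1 := Int.floor_le y
        have hy2 := (Int.lt_floor_add_one y).le
        rcases le_total y (⌊y⌋ + 1 / 2) with h5 | h5
        · rw [w_sector ⌊y⌋ hy1 h5]
          exact abs_nonneg _
        · rw [w_gap ⌊y⌋ h5 hy2]
          rcases le_or_gt j ⌊y⌋ with h6 | h6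
          · have : (j : ℝ) ≤ ⌊y⌋ := by exact_mod_cast h6
            exact (min_le_left _ _).trans (le_trans (by linarith) (le_abs_self _))
          · have : (⌊y⌋ : ℝ) + 1 ≤ j := by exact_mod_cast h6
            exact (min_le_right _ _).trans (le_trans (by linarith) (neg_le_abs _))
      refine (h4 x).trans ?_
      rw [abs_of_nonpos (by linarith)]
      linarith
    · rcases le_total x (j + 1 / 2) with h5 | h5
      · rw [w_sector j h3 h5]
        exact h0
      · rcases le_total x (j + 1) with h6 | h6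
        · rw [w_gap j h5 h6]
          exact (min_le_left _ _).trans (by linarith)
        · have := w_le x
          linarith

end Pool.Agent.H350.QAR
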