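import Mathlib

/-!
# Rooted trees given by a height and a parent map
-/

set_option autoImplicit false

namespace Pool.Agent.H350.QAR

variable {W : Type} (h : W → ℕ) (par : W → W) (root : W)

/-- the graph in which every vertex apart from the root is adjacent to its parent -/
def PT (hp : ∀ v, v ≠ root → h (par v) + 1 = h v) : SimpleGraph W where
  Adj a b := (a ≠ root ∧ par a = b) ∨ (b ≠ root ∧ par b = a)
  symm := ⟨fun _ _ h => h.symm⟩
  loopless := ⟨fun a ha => by
    have key : ∀ b, b ≠ root → par b ≠ b := by
      intro b hb hb2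
      have := hp b hb
      rw [hb2] at this
      omega
    rcases ha with ⟨h1, h2⟩ | ⟨h1, h2⟩
    · exact key a h1 h2
    · exact key a h1 h2⟩

variable {h par root}

lemma PT_adj {hp : ∀ v, v ≠ root → h (par v) + 1 = h v} {a b : W} :
    (PT h par root hp).Adj a b ↔ (a ≠ root ∧ par a = b) ∨ (b ≠ root ∧ par b = a) := Iff.rfl

lemma PT_reach {hp : ∀ v, v ≠ root → h (par v) + 1 = h v} (n : ℕ) :
    ∀ v, h v = n → (PT h par root hp).Reachable root v := by
  induction n with
  | zero =>
    intro v hv
    by_cases h1 : v = root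
    · rw [h1]
    · have := hp v h1
      omega
  | succ n ih =>
    intro v hv
    by_cases h1 : v = root
    · rw [h1]
    · have h2 := hp v h1
      refine (ih (par v) (by omega)).trans (SimpleGraph.Adj.reachable ?_)
      exact Or.inr ⟨h1, rfl⟩

lemma PT_tree {hp : ∀ v, v ≠ root → h (par v) + 1 = h v} : (PT h par root hp).IsTree := by
  classical
  refine ⟨?_, ?_⟩
  · rw [SimpleGraph.connected_iff]
    exact ⟨fun a b => (PT_reach _ a rfl).symm.trans (PT_reach _ b rfl), ⟨root⟩⟩
  · intro v c hc
    obtain ⟨m, hm, hmax⟩ := c.support.toFinset.exists_max_image h ⟨v, by simp⟩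
    simp only [List.mem_toFinset] at hm hmax
    have hr := hc.rotate hm
    have hsupp : ∀ x, x ∈ (c.rotate m hm).support → h x ≤ h m := by
      intro x hx
      apply hmax
      exact (c.mem_support_rotate_iff m hm).1 hx
    have h1 := (c.rotate m hm).adj_snd hr.not_nil
    have h2 := (c.rotate m hm).adj_penultimate hr.not_nil
    have h3 : h (c.rotate m hm).snd ≤ h m := hsupp _ ((c.rotate m hm).getVert_mem_support 1)
    have h4 : h (c.rotate m hm).penultimate ≤ h m :=
      hsupp _ ((c.rotate m hm).getVert_mem_support ((c.rotate m hm).length - 1))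
    apply hr.snd_ne_penultimate
    have key : ∀ x, (PT h par root hp).Adj m x → h x ≤ h m → x = par m := by
      rintro x (⟨a1, a2⟩ | ⟨a1, a2⟩) hx
      · exact a2.symm
      · have := hp x a1
        rw [a2] at this
        omega
    rw [key _ h1 h3, key _ h2.symm h4]

end Pool.Agent.H350.QAR
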