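import Pool.Agent.H350.QAR.Surf
import Pool.Agent.H350.QAR.Tree
import Pool.Graph.R_pool_sql_team_seeded_3997aac3.Q238.AR.Defs

/-!
# The polygons
-/

set_option autoImplicit false

namespace Pool.Agent.H350.QAR

open Set Topology Pool.Agent.Q238.AR

/-- the level of a layer -/
def lev : ℕ → ℕ
  | 0 => 0
  | l + 1 => if l + 1 = Rn (lev l + 1) then lev l + 1 else lev l

lemma lev_spec {l : ℕ} (h : 1 ≤ l) : Rn (lev l) ≤ l ∧ l < Rn (lev l + 1) := by
  induction l, h using Nat.le_induction with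
  | base => decide
  | succ l _ ih =>
    have e : lev (l + 1) = if l + 1 = Rn (lev l + 1) then lev l + 1 else lev l := rfl
    rw [e]
    split_ifs with h
    · have := Rn_lt (lev l + 1)
      omega
    · omega

lemma lev_eq {m l : ℕ} (h1 : Rn m ≤ l) (h2 : l < Rn (m + 1)) : lev l = m := by
  have h0 : 1 ≤ l := (Rn_one_le m).trans h1
  obtain ⟨a, b⟩ := lev_spec h0
  rcases Nat.lt_trichotomy (lev l) m with h | h | h
  · have : Rn (lev l + 1) ≤ Rn m := Rn_strict.monotone h
    omega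
  · exact h
  · have : Rn (m + 1) ≤ Rn (lev l) := Rn_strict.monotone h
    omega

lemma lev_le (l : ℕ) : lev l ≤ l := by
  induction l with
  | zero => exact le_rfl
  | succ l ih =>
    have e : lev (l + 1) = if l + 1 = Rn (lev l + 1) then lev l + 1 else lev l := rfl
    rw [e]
    split_ifs <;> omega

lemma lev_ge {m l : ℕ} (h : Rn m ≤ l) : m ≤ lev l := by
  by_contra hcon
  push Not at hcon
  have h0 : 1 ≤ l := (Rn_one_le m).trans h
  have := (lev_spec h0).2
  have : Rn (lev l + 1) ≤ Rn m := Rn_strict.monotone hcon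
  omega

/-- number of sectors of a layer -/
def NN (l : ℕ) : ℕ := (lev l).factorial

/-- the number of parts into which a sector of the layer `l` is cut -/
def qq (l : ℕ) : ℕ := if l + 1 = Rn (lev l + 1) then lev l + 1 else 1

lemma NN_pos (l : ℕ) : 0 < NN l := Nat.factorial_pos _

lemma qq_pos (l : ℕ) : 0 < qq l := by
  unfold qq
  split_ifs <;> omega

lemma NN_succ (l : ℕ) : NN (l + 1) = qq l * NN l := by
  have e : lev (l + 1) = if l + 1 = Rn (lev l + 1) then lev l + 1 else lev l := rfl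
  unfold NN qq
  rw [e]
  split_ifs
  · rw [Nat.factorial_succ]
  · rw [one_mul]

/-- the vertices of the tree -/
abbrev Vx : Type := {p : ℕ × ℕ // p.2 < NN p.1}

def rootV : Vx := ⟨(0, 0), NN_pos 0⟩

def parV (v : Vx) : Vx :=
  match v with
  | ⟨(0, _), _⟩ => rootV
  | ⟨(l + 1, j), h⟩ => ⟨(l, j / qq l), by
      rw [Nat.div_lt_iff_lt_mul (qq_pos l), mul_comm]
      rw [NN_succ] at h
      exact h⟩

def ht (v : Vx) : ℕ := v.1.1

lemma ht_zero {v : Vx} (h : ht v = 0) : v = rootV := by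
  obtain ⟨⟨l, j⟩, hj⟩ := v
  change l = 0 at h
  subst h
  have : NN 0 = 1 := rfl
  simp only [this] at hj
  have : j = 0 := by omega
  subst this
  rfl

lemma ht_par (v : Vx) (hv : v ≠ rootV) : ht (parV v) + 1 = ht v := by
  obtain ⟨⟨l, j⟩, hj⟩ := v
  rcases l with _ | l
  · exact absurd (ht_zero rfl) hv
  · rfl

/-- the tree -/
def TV : SimpleGraph Vx := PT ht parV rootV ht_par

/-! ### the regions -/

/-- the sector `j` of the layer `l` in polar coordinates -/
def Reg (l : ℕ) (j : ℤ) : Set (ℝ × ℝ) :=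
  {x | (l : ℝ) ≤ x.1 ∧ x.1 ≤ l + 1 ∧ j - 1 / (8 * x.1) ≤ U (lev l) x.2 ∧
    U (lev l) x.2 ≤ j + 1 / 2 + 1 / (8 * x.1)}

lemma U_add_intCast (n : ℕ) (t : ℝ) (m : ℤ) : U n (t + m) = U n t + (n.factorial : ℕ) * m := by
  have key : ∀ (k : ℕ) (t : ℝ), U n (t + k) = U n t + (n.factorial : ℕ) * k := by
    intro k
    induction k with
    | zero => intro t; simp
    | succ k ih =>
      intro t
      have : t + ((k + 1 : ℕ) : ℝ) = t + k + 1 := by push_cast; ring
      rw [this, U_add_one, ih]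
      push_cast
      ring
  obtain ⟨k, rfl | rfl⟩ := m.eq_nat_or_neg
  · exact_mod_cast key k t
  · have h := key k (t + ((-(k : ℤ) : ℤ) : ℝ))
    have e : t + ((-(k : ℤ) : ℤ) : ℝ) + k = t := by push_cast; ring
    rw [e] at h
    rw [h]
    push_cast
    ring

lemma dl_pos {r : ℝ} (h : 1 ≤ r) : 0 < 1 / (8 * r) ∧ 1 / (8 * r) ≤ 1 / 8 := by
  have h0 : 0 < r := by linarith
  constructor
  · positivity
  · rw [div_le_div_iff₀ (by positivity) (by norm_num)]
    linarith

lemma Reg_shift {l : ℕ} {j : ℤ} {x : ℝ × ℝ} (m : ℤ) :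
    x + (0, (m : ℝ)) ∈ Reg l (j + NN l * m) ↔ x ∈ Reg l j := by
  unfold Reg NN
  simp only [mem_ofPred_eq, Prod.fst_add, Prod.snd_add, add_zero]
  rw [U_add_intCast]
  push_cast
  constructor
  · rintro ⟨h1, h2, h3, h4⟩
    exact ⟨h1, h2, by linarith, by linarith⟩
  · rintro ⟨h1, h2, h3, h4⟩
    exact ⟨h1, h2, by linarith, by linarith⟩

lemma Reg_unique {l : ℕ} (hl : 1 ≤ l) {j k : ℤ} {x : ℝ × ℝ} (h : x ∈ Reg l j)
    (h' : x ∈ Reg l k) : j = k := by
  obtain ⟨h1, -, h3, h4⟩ := h
  obtain ⟨-, -, h3', h4'⟩ := h'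
  have hl' : (1 : ℝ) ≤ l := by exact_mod_cast hl
  obtain ⟨d0, d1⟩ := dl_pos (hl'.trans h1)
  have a1 : (j : ℝ) < k + 1 := by linarith
  have a2 : (k : ℝ) < j + 1 := by linarith
  have b1 : j < k + 1 := by exact_mod_cast a1
  have b2 : k < j + 1 := by exact_mod_cast a2
  omega

lemma Reg_Sn {l : ℕ} (hl : 1 ≤ l) {j : ℤ} {x : ℝ × ℝ} (h : x ∈ Reg l j) :
    x ∈ Sn 0 ∧ 8 * x.1 * w (U (lev l) x.2) ≤ 1 := by
  obtain ⟨h1, h2, h3, h4⟩ := h
  have hl' : (1 : ℝ) ≤ l := by exact_mod_cast hl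
  obtain ⟨d0, d1⟩ := dl_pos (hl'.trans h1)
  have hw : w (U (lev l) x.2) ≤ 1 / (8 * x.1) := (w_le_iff d0.le).2 ⟨j, h3, h4⟩
  have hx0 : 0 < x.1 := by linarith
  have hw2 : 8 * x.1 * w (U (lev l) x.2) ≤ 1 := by
    rw [le_div_iff₀ (by positivity)] at hw
    linarith
  refine ⟨fun m _ => ?_, hw2⟩
  rcases Nat.lt_or_ge (lev l) m with h5 | h5
  · left
    have h6 : l + 1 ≤ Rn m := by
      have := (lev_spec hl).2
      have h7 : Rn (lev l + 1) ≤ Rn m := Rn_strict.monotone h5
      omega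
    have h7 : (l : ℝ) + 1 ≤ Rn m := by exact_mod_cast h6
    linarith
  · right
    exact le_one_mono hx0.le (w_mono_level h5 _) hw2

/-- each point of the surface outside the unit disc is in a region -/
lemma cover {x : ℝ × ℝ} (hx : x ∈ Sn 0) {l : ℕ} (hl : 1 ≤ l) (h1 : (l : ℝ) < x.1)
    (h2 : x.1 ≤ l + 1) : ∃ j : ℤ, x ∈ Reg l j := by
  have hl' : (1 : ℝ) ≤ l := by exact_mod_cast hl
  obtain ⟨d0, d1⟩ := dl_pos (hl'.trans h1.le)
  have hx0 : 0 < x.1 := by linarith
  have h3 : w (U (lev l) x.2) ≤ 1 / (8 * x.1) := by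
    rw [le_div_iff₀ (by positivity)]
    rcases hx (lev l) (Nat.zero_le _) with h | h
    · have h4 : (Rn (lev l) : ℝ) ≤ l := by exact_mod_cast (lev_spec hl).1
      linarith
    · linarith
  obtain ⟨j, a, b⟩ := (w_le_iff d0.le).1 h3
  exact ⟨j, h1.le, h2, a, b⟩

/-- the inner edge of a region is in the outer edge of the parent region -/
lemma Reg_par {l : ℕ} (hl : 1 ≤ l) {j : ℤ} {x : ℝ × ℝ} (h : x ∈ Reg (l + 1) j)
    (hx : x.1 ≤ l + 1) : x ∈ Reg l (j / (qq l : ℤ)) := by
  obtain ⟨h1, h2, h3, h4⟩ := h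
  push_cast at h1
  have hl' : (1 : ℝ) ≤ l := by exact_mod_cast hl
  obtain ⟨d0, d1⟩ := dl_pos (r := x.1) (by linarith)
  refine ⟨by linarith, hx, ?_⟩
  have e : lev (l + 1) = if l + 1 = Rn (lev l + 1) then lev l + 1 else lev l := rfl
  rw [e] at h3 h4
  unfold qq
  split_ifs at h3 h4 ⊢ with h5
  · rw [U_succ] at h3 h4
    set n := lev l with hn
    have hpos : (0 : ℤ) < ((n + 1 : ℕ) : ℤ) := by positivity
    have hd := Int.mul_ediv_add_emod j ((n + 1 : ℕ) : ℤ)
    have hr0 := Int.emod_nonneg j hpos.ne'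
    have hr1 := Int.emod_lt_of_pos j hpos
    set k := j / ((n + 1 : ℕ) : ℤ) with hk
    have a1 : ((n : ℝ) + 1) * k ≤ j := by
      have : ((n + 1 : ℕ) : ℤ) * k ≤ j := by omega
      exact_mod_cast this
    have a2 : (j : ℝ) ≤ (n + 1) * k + n := by
      have : j ≤ ((n + 1 : ℕ) : ℤ) * k + n := by
        push_cast at hd hr1 ⊢
        linarith
      exact_mod_cast this
    constructor
    · rw [← (V_strict n).le_iff_le]
      have e1 : V n (k - 1 / (8 * x.1)) = (n + 1) * k - 1 / (8 * x.1) := by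
        rw [V_gap (k - 1) (by push_cast; linarith) (by push_cast; linarith)]
        push_cast
        ring
      rw [e1]
      linarith
    · rw [← (V_strict n).le_iff_le]
      have e1 : V n (k + 1 / 2 + 1 / (8 * x.1)) = (n + 1) * k + n + 1 / 2 + 1 / (8 * x.1) := by
        rw [V_gap k (by linarith) (by linarith)]
        ring
      rw [e1]
      linarith
  · have : j / ((1 : ℕ) : ℤ) = j := by simp
    rw [this]
    exact ⟨h3, h4⟩

/-- the polygon in the plane -/
def PPr (l : ℕ) (j : ℤ) : Set ℂ := pp '' Reg l j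

lemma mem_PPr {l : ℕ} (hl : 1 ≤ l) {j : ℤ} {x : ℝ × ℝ} :
    pp x ∈ PPr l j ↔ ∃ m : ℤ, x ∈ Reg l (j + NN l * m) := by
  have hl' : (1 : ℝ) ≤ l := by exact_mod_cast hl
  constructor
  · rintro ⟨y, hy, hxy⟩
    rw [pp_eq] at hxy
    rcases hxy with ⟨h1, -⟩ | ⟨h1, m, h2⟩
    · have := hy.1
      linarith
    · refine ⟨-m, ?_⟩
      have e : x = y + (0, ((-m : ℤ) : ℝ)) := by
        ext
        · simp [h1]
        · simp [h2]
      rw [e, Reg_shift]
      exact hy
  · rintro ⟨m, hm⟩
    refine ⟨x + (0, ((-m : ℤ) : ℝ)), ?_, ?_⟩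
    · have := (Reg_shift (l := l) (j := j + NN l * m) (x := x) (-m)).2 hm
      have e : j + NN l * m + NN l * -m = j := by ring
      rwa [e] at this
    · rw [pp_eq]
      right
      exact ⟨by simp, -m, by simp⟩

/-- the polygons -/
def PP (v : Vx) : Set ℂ := if v.1.1 = 0 then Metric.closedBall 0 1 else PPr v.1.1 v.1.2

lemma PP_root : PP rootV = Metric.closedBall 0 1 := if_pos rfl

lemma PP_of {l j : ℕ} (hl : 1 ≤ l) (h : j < NN l) : PP ⟨(l, j), h⟩ = PPr l j := by
  unfold PP
  exact if_neg (by simp only; omega)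

lemma pp_norm_pos' {x : ℝ × ℝ} (h : 0 ≤ x.1) : ‖pp x‖ = x.1 := by
  rw [pp_norm, max_eq_left h]

lemma norm_PP {v : Vx} {z : ℂ} (h : z ∈ PP v) : ‖z‖ ≤ ht v + 1 ∧ (ht v : ℝ) ≤ ‖z‖ := by
  obtain ⟨⟨l, j⟩, hj⟩ := v
  rcases Nat.eq_zero_or_pos l with h0 | h0
  · subst h0
    have := ht_zero (v := ⟨(0, j), hj⟩) rfl
    rw [this, PP_root, mem_closedBall_zero_iff] at h
    have e : (ht (⟨(0, j), hj⟩ : Vx) : ℝ) = 0 := by
      change (((0 : ℕ)) : ℝ) = 0
      simp
    rw [e]
    exact ⟨by linarith, norm_nonneg _⟩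
  · rw [PP_of h0] at h
    obtain ⟨x, hx, rfl⟩ := h
    have hl' : (1 : ℝ) ≤ l := by exact_mod_cast h0
    rw [pp_norm_pos' (by linarith [hx.1])]
    exact ⟨hx.2.1, hx.1⟩

/-- where polygons meet -/
lemma meet {v v' : Vx} {z : ℂ} (hv : z ∈ PP v) (hw : z ∈ PP v') (h : ht v ≤ ht v') :
    v = v' ∨ (v' ≠ rootV ∧ parV v' = v ∧ ‖z‖ = ht v') := by
  have n1 := norm_PP hv
  have n2 := norm_PP hw
  obtain ⟨⟨l', j'⟩, hj'⟩ := v'
  rcases l' with _ | l'
  · left
    have h1 : ht v = 0 := Nat.le_zero.1 h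
    rw [ht_zero h1, ← ht_zero (v := ⟨(0, j'), hj'⟩) rfl]
  · have hne : (⟨(l' + 1, j'), hj'⟩ : Vx) ≠ rootV := by
      intro h
      have := congrArg ht h
      change l' + 1 = 0 at this
      omega
    have hw0 := hw
    rw [PP_of (Nat.le_add_left 1 l')] at hw
    obtain ⟨x, hx, rfl⟩ := hw
    have hx1 : (l' : ℝ) + 1 ≤ x.1 := by
      have := hx.1
      push_cast at this
      exact this
    have hl0 : (0 : ℝ) ≤ l' := by positivity
    have hnorm : ‖pp x‖ = x.1 := pp_norm_pos' (by linarith)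
    obtain ⟨⟨l, j⟩, hj⟩ := v
    change l ≤ l' + 1 at h
    have n1' : x.1 ≤ l + 1 := by
      rw [hnorm] at n1
      exact n1.1
    have hll : l' ≤ l := by
      have : (l' : ℝ) ≤ l := by linarith
      exact_mod_cast this
    rcases Nat.lt_or_ge l (l' + 1) with h2 | h2
    · have h3 : l = l' := by omega
      subst h3
      right
      refine ⟨hne, ?_, ?_⟩
      · change (⟨(l, j' / qq l), _⟩ : Vx) = _
        rcases Nat.eq_zero_or_pos l with h4 | h4
        · subst h4
          rw [ht_zero (v := ⟨(0, j), hj⟩) rfl]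
          exact ht_zero rfl
        · rw [PP_of h4, mem_PPr h4] at hv
          obtain ⟨m, hm⟩ := hv
          have h5 := Reg_unique h4 hm (Reg_par h4 hx n1')
          have h6 : j' / qq l < NN l := by
            rw [Nat.div_lt_iff_lt_mul (qq_pos l), mul_comm]
            rw [NN_succ] at hj'
            exact hj'
          have h7 : (j' : ℤ) / (qq l : ℤ) = ((j' / qq l : ℕ) : ℤ) := by push_cast; rfl
          rw [h7] at h5
          have h8 : m = 0 := by
            have a1 : (j : ℤ) < NN l := by exact_mod_cast hj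
            have a2 : ((j' / qq l : ℕ) : ℤ) < NN l := by exact_mod_cast h6
            have a3 : (0 : ℤ) ≤ j := by positivity
            have a4 : (0 : ℤ) ≤ ((j' / qq l : ℕ) : ℤ) := by positivity
            by_contra hm0
            rcases lt_or_gt_of_ne hm0 with h9 | h9
            · nlinarith
            · nlinarith
          rw [h8] at h5
          simp only [mul_zero, add_zero] at h5
          have h9 : j = j' / qq l := by exact_mod_cast h5
          simp only [h9]
      · rw [hnorm]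
        change x.1 = ((l + 1 : ℕ) : ℝ)
        push_cast
        linarith
    · have h3 : l = l' + 1 := by omega
      subst h3
      left
      have hl : 1 ≤ l' + 1 := Nat.le_add_left 1 l'
      rw [PP_of hl, mem_PPr hl] at hv
      obtain ⟨m, hm⟩ := hv
      have h5 := Reg_unique hl hm hx
      have h8 : m = 0 := by
        have a1 : (j : ℤ) < NN (l' + 1) := by exact_mod_cast hj
        have a2 : (j' : ℤ) < NN (l' + 1) := by exact_mod_cast hj'
        have a3 : (0 : ℤ) ≤ j := by positivity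
        have a4 : (0 : ℤ) ≤ j' := by positivity
        by_contra hm0
        rcases lt_or_gt_of_ne hm0 with h9 | h9
        · nlinarith
        · nlinarith
      rw [h8] at h5
      simp only [mul_zero, add_zero] at h5
      have h9 : j = j' := by exact_mod_cast h5
      simp only [h9]

lemma PP_far {v v' : Vx} (hvw : v ≠ v') (h : ¬ TV.Adj v v') : Disjoint (PP v) (PP v') := by
  rw [Set.disjoint_left]
  intro z hv hw
  rcases le_total (ht v) (ht v') with h1 | h1
  · rcases meet hv hw h1 with h2 | ⟨h3, h2, -⟩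
    · exact hvw h2
    · exact h (Or.inr ⟨h3, h2⟩)
  · rcases meet hw hv h1 with h2 | ⟨h3, h2, -⟩
    · exact hvw h2.symm
    · exact h (Or.inl ⟨h3, h2⟩)

lemma PP_inter {v v' : Vx} (hvw : v ≠ v') : Disjoint (interior (PP v)) (PP v') := by
  rw [Set.disjoint_left]
  intro z hv hw
  have hv' := interior_subset hv
  rcases le_total (ht v) (ht v') with h1 | h1
  · rcases meet hv' hw h1 with h2 | ⟨h0, h2, h3⟩
    · exact hvw h2
    · have hh := ht_par v' h0
      rw [h2] at hh
      have h4 : PP v ⊆ Metric.closedBall 0 (ht v') := by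
        intro y hy
        rw [mem_closedBall_zero_iff]
        have := (norm_PP hy).1
        rw [← hh]
        push_cast
        exact this
      have h5 := interior_mono h4 hv
      have hpos : (ht v' : ℝ) ≠ 0 := by
        have : 0 < ht v' := by omega
        positivity
      rw [interior_closedBall _ hpos, mem_ball_zero_iff, h3] at h5
      exact lt_irrefl _ h5
  · rcases meet hw hv' h1 with h2 | ⟨h0, h2, h3⟩
    · exact hvw h2.symm
    · have hh := ht_par v h0
      have h4 : PP v ⊆ (Metric.ball 0 (ht v))ᶜ := by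
        intro y hy
        rw [mem_compl_iff, mem_ball_zero_iff, not_lt]
        exact (norm_PP hy).2
      have h5 := interior_mono h4 hv
      have hpos : (ht v : ℝ) ≠ 0 := by
        have : 0 < ht v := by omega
        positivity
      rw [interior_compl, closure_ball _ hpos, mem_compl_iff,
        mem_closedBall_zero_iff, h3] at h5
      exact h5 le_rfl

lemma fin_ht (K : ℕ) : {v : Vx | ht v ≤ K}.Finite := by
  have h1 : (Iic K ×ˢ Iic (K.factorial) : Set (ℕ × ℕ)).Finite :=
    (Set.finite_Iic K).prod (Set.finite_Iic _)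
  refine (h1.preimage Subtype.val_injective.injOn).subset ?_
  rintro ⟨⟨l, j⟩, hj⟩ hv
  change l ≤ K at hv
  refine ⟨hv, ?_⟩
  change j ≤ K.factorial
  have : NN l ≤ K.factorial := Nat.factorial_le ((lev_le l).trans hv)
  change j < NN l at hj
  omega

lemma PP_locFin : LocallyFinite PP := by
  intro z
  refine ⟨Metric.ball z 1, Metric.ball_mem_nhds _ one_pos, ?_⟩
  obtain ⟨K, hK⟩ := exists_nat_gt (‖z‖ + 1)
  refine (fin_ht K).subset ?_
  rintro v ⟨y, hy, hy2⟩
  have h1 := (norm_PP hy).2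
  have h2 : ‖y‖ < ‖z‖ + 1 := by
    rw [Metric.mem_ball, dist_eq_norm] at hy2
    have := norm_sub_norm_le y z
    linarith
  have h3 : (ht v : ℝ) < K := by linarith
  have h4 : ht v < K := by exact_mod_cast h3
  exact h4.le

end Pool.Agent.H350.QAR
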