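import Pool.Agent.H350.QAR.PL
import Pool.Graph.R_pool_sql_team_seeded_3997aac3.Q238.AR.Plane

/-!
# Radial homeomorphisms of the plane in polar coordinates
-/

set_option autoImplicit false

namespace Pool.Agent.H350.QAR

open Set Topology Pool.Agent.Q238.AR

/-- a tent function, zero outside `[a, c]`, one at `b` -/
noncomputable def tent (a b c r : ℝ) : ℝ := max 0 (min ((r - a) / (b - a)) ((c - r) / (c - b)))

lemma tent_nonneg (a b c r : ℝ) : 0 ≤ tent a b c r := le_max_left _ _

lemma tent_le_one {a b c : ℝ} (hab : a < b) (hbc : b < c) (r : ℝ) : tent a b c r ≤ 1 := by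
  unfold tent
  refine max_le zero_le_one ?_
  rcases le_total r b with h | h
  · refine (min_le_left _ _).trans ?_
    rw [div_le_one (by linarith)]
    linarith
  · refine (min_le_right _ _).trans ?_
    rw [div_le_one (by linarith)]
    linarith

lemma tent_left {a b c r : ℝ} (hab : a < b) (hbc : b < c) (h : r ≤ b) :
    tent a b c r = max 0 ((r - a) / (b - a)) := by
  unfold tent
  rw [min_eq_left]
  have h1 : (r - a) / (b - a) ≤ 1 := by
    rw [div_le_one (by linarith)]
    linarith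
  have h2 : 1 ≤ (c - r) / (c - b) := by
    rw [one_le_div (by linarith)]
    linarith
  linarith

lemma tent_right {a b c r : ℝ} (hab : a < b) (hbc : b < c) (h : b ≤ r) :
    tent a b c r = max 0 ((c - r) / (c - b)) := by
  unfold tent
  rw [min_eq_right]
  have h1 : 1 ≤ (r - a) / (b - a) := by
    rw [one_le_div (by linarith)]
    linarith
  have h2 : (c - r) / (c - b) ≤ 1 := by
    rw [div_le_one (by linarith)]
    linarith
  linarith

lemma tent_mid {a b c : ℝ} (hab : a < b) (hbc : b < c) : tent a b c b = 1 := by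
  have h : b - a ≠ 0 := by
    intro h
    linarith
  rw [tent_left hab hbc le_rfl, div_self h]
  simp

lemma tent_low {a b c r : ℝ} (hab : a < b) (hbc : b < c) (h : r ≤ a) : tent a b c r = 0 := by
  rw [tent_left hab hbc (by linarith)]
  exact max_eq_left (div_nonpos_of_nonpos_of_nonneg (by linarith) (by linarith))

lemma tent_high {a b c r : ℝ} (hab : a < b) (hbc : b < c) (h : c ≤ r) : tent a b c r = 0 := by
  rw [tent_right hab hbc (by linarith)]
  exact max_eq_left (div_nonpos_of_nonpos_of_nonneg (by linarith) (by linarith))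

/-- the piecewise linear map which fixes everything outside `[a, c]` and maps `b` to `b'` -/
noncomputable def rho (a b b' c r : ℝ) : ℝ := r + (b' - b) * tent a b c r

lemma rho_strict {a b b' c : ℝ} (hab : a < b) (hbc : b < c) (hab' : a < b') (hbc' : b' < c) :
    StrictMono (rho a b b' c) := by
  have key : ∀ p q d : ℝ, p < q → 0 < d → 0 ≤ max 0 (q / d) - max 0 (p / d) ∧
      max 0 (q / d) - max 0 (p / d) ≤ (q - p) / d := by
    intro p q d hpq hd
    have h1 : p / d ≤ q / d := div_le_div_of_nonneg_right hpq.le hd.le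
    have h2 : (q - p) / d = q / d - p / d := by ring
    rw [h2]
    constructor
    · exact sub_nonneg.2 (max_le_max le_rfl h1)
    · rcases le_total (p / d) 0 with h3 | h3 <;> rcases le_total (q / d) 0 with h4 | h4
      · rw [max_eq_left h3, max_eq_left h4]; linarith
      · rw [max_eq_left h3, max_eq_right h4]; linarith
      · rw [max_eq_right h3, max_eq_left h4]; linarith
      · rw [max_eq_right h3, max_eq_right h4]
  refine StrictMonoOn.Iic_union_Ici (a := b) ?_ ?_
  · intro r hr s hs hrs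
    have hr' : r ≤ b := hr
    have hs' : s ≤ b := hs
    unfold rho
    rw [tent_left hab hbc hr', tent_left hab hbc hs']
    obtain ⟨k1, k2⟩ := key (r - a) (s - a) (b - a) (by linarith) (by linarith)
    have e : s - a - (r - a) = s - r := by ring
    rw [e] at k2
    set D := max 0 ((s - a) / (b - a)) - max 0 ((r - a) / (b - a)) with hD
    have hba : 0 < b - a := by linarith
    have hD2 : D * (b - a) ≤ s - r := by
      rw [le_div_iff₀ hba] at k2
      exact k2
    have goal : 0 < (s - r) + (b' - b) * D := by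
      rcases le_total b b' with h | h
      · have : 0 ≤ (b' - b) * D := mul_nonneg (by linarith) k1
        linarith
      · rcases k1.eq_or_lt with h0 | h0
        · rw [← h0]
          linarith
        · have : (b - b') * D < (b - a) * D := mul_lt_mul_of_pos_right (by linarith) h0
          nlinarith
    have : (b' - b) * D = (b' - b) * max 0 ((s - a) / (b - a))
        - (b' - b) * max 0 ((r - a) / (b - a)) := by rw [hD]; ring
    linarith
  · intro r hr s hs hrs
    have hr' : b ≤ r := hr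
    have hs' : b ≤ s := hs
    unfold rho
    rw [tent_right hab hbc hr', tent_right hab hbc hs']
    obtain ⟨k1, k2⟩ := key (c - s) (c - r) (c - b) (by linarith) (by linarith)
    have e : c - r - (c - s) = s - r := by ring
    rw [e] at k2
    set D := max 0 ((c - r) / (c - b)) - max 0 ((c - s) / (c - b)) with hD
    have hcb : 0 < c - b := by linarith
    have hD2 : D * (c - b) ≤ s - r := by
      rw [le_div_iff₀ hcb] at k2
      exact k2
    have goal : 0 < (s - r) - (b' - b) * D := by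
      rcases le_total b' b with h | h
      · have : 0 ≤ (b - b') * D := mul_nonneg (by linarith) k1
        linarith
      · rcases k1.eq_or_lt with h0 | h0
        · rw [← h0]
          linarith
        · have : (b' - b) * D < (c - b) * D := mul_lt_mul_of_pos_right (by linarith) h0
          nlinarith
    have : (b' - b) * D = (b' - b) * max 0 ((c - r) / (c - b))
        - (b' - b) * max 0 ((c - s) / (c - b)) := by rw [hD]; ring
    linarith

lemma rho_mid {a b b' c : ℝ} (hab : a < b) (hbc : b < c) : rho a b b' c b = b' := by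
  unfold rho
  rw [tent_mid hab hbc]
  ring

lemma rho_low {a b b' c r : ℝ} (hab : a < b) (hbc : b < c) (h : r ≤ a) : rho a b b' c r = r := by
  unfold rho
  rw [tent_low hab hbc h]
  ring

lemma rho_high {a b b' c r : ℝ} (hab : a < b) (hbc : b < c) (h : c ≤ r) :
    rho a b b' c r = r := by
  unfold rho
  rw [tent_high hab hbc h]
  ring

lemma rho_self {a b c r : ℝ} : rho a b b c r = r := by
  unfold rho
  ring

lemma surj_of_near' {f : ℝ → ℝ} (hf : Continuous f) (C : ℝ) (h : ∀ x, |f x - x| ≤ C) :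
    Function.Surjective f := by
  refine hf.surjective ?_ ?_
  · refine Filter.tendsto_atTop_mono (f := fun x => x - C) (fun x => ?_)
      (Filter.tendsto_atTop_add_const_right _ _ Filter.tendsto_id)
    have := (abs_le.1 (h x)).1
    linarith
  · refine Filter.tendsto_atBot_mono (f := fun x => x + C) (g := f) (fun x => ?_)
      (Filter.tendsto_atBot_add_const_right _ _ Filter.tendsto_id)
    have := (abs_le.1 (h x)).2
    linarith

/-- the radial homeomorphism `(r, t) ↦ (r + E (t, r), t)` -/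
noncomputable def radH (E : ℝ × ℝ → ℝ) (hc : Continuous E)
    (hm : ∀ t, StrictMono fun r => r + E (t, r)) (hb : ∃ C, ∀ x, |E x| ≤ C) : ℝ × ℝ ≃ₜ ℝ × ℝ :=
  (Homeomorph.prodComm ℝ ℝ).trans ((fib (fun x => x.2 + E x) (by fun_prop) hm (fun t => by
    obtain ⟨C, hC⟩ := hb
    refine surj_of_near' (by fun_prop) C fun r => ?_
    simp only [add_sub_cancel_left]
    exact hC _)).trans (Homeomorph.prodComm ℝ ℝ))

lemma radH_apply (E : ℝ × ℝ → ℝ) (hc : Continuous E)
    (hm : ∀ t, StrictMono fun r => r + E (t, r)) (hb : ∃ C, ∀ x, |E x| ≤ C) (r t : ℝ) :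
    radH E hc hm hb (r, t) = (r + E (t, r), t) := rfl

/-! ### the radii -/

/-- the radius where level `n` starts -/
def Rn : ℕ → ℕ
  | 0 => 1
  | 1 => 3
  | n + 2 => Rn (n + 1) + (n + 1)

lemma Rn_succ {n : ℕ} (h : 1 ≤ n) : Rn (n + 1) = Rn n + n := by
  obtain ⟨m, rfl⟩ := Nat.exists_eq_add_of_le' h
  rfl

lemma Rn_lt (n : ℕ) : Rn n < Rn (n + 1) := by
  rcases Nat.eq_zero_or_pos n with rfl | h
  · decide
  · rw [Rn_succ h]
    omega

lemma Rn_strict : StrictMono Rn := strictMono_nat_of_lt_succ Rn_lt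

lemma Rn_one_le (n : ℕ) : 1 ≤ Rn n := (Rn_strict.monotone (Nat.zero_le n) : Rn 0 ≤ Rn n)

lemma Rn_three_le {n : ℕ} (h : 1 ≤ n) : 3 ≤ Rn n := (Rn_strict.monotone h : Rn 1 ≤ Rn n)

/-! ### pushing the old gaps -/

/-- the start of the old gap on the ray `t` -/
noncomputable def bst (n : ℕ) (t : ℝ) : ℝ :=
  max (Rn n) (1 / (8 * max (w (U n t)) (1 / (8 * Rn (n + 1)))))

lemma Rn_pos' (n : ℕ) : (0 : ℝ) < Rn n := by
  have := Rn_one_le n
  exact_mod_cast this

lemma mx_pos (n : ℕ) (x : ℝ) : 0 < max (w x) (1 / (8 * (Rn (n + 1) : ℝ))) := by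
  refine lt_max_of_lt_right ?_
  have := Rn_pos' (n + 1)
  positivity

lemma bst_cont (n : ℕ) : Continuous (bst n) := by
  unfold bst
  have h1 : Continuous fun t => max (w (U n t)) (1 / (8 * (Rn (n + 1) : ℝ))) :=
    (w_cont.comp (U n).continuous).max continuous_const
  refine continuous_const.max (Continuous.div continuous_const (continuous_const.mul h1) ?_)
  intro t
  have := mx_pos n (U n t)
  positivity

lemma bst_ge (n : ℕ) (t : ℝ) : (Rn n : ℝ) ≤ bst n t := le_max_left _ _

lemma Rn_le' (n : ℕ) : (Rn n : ℝ) + 1 ≤ Rn (n + 1) := by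
  have := Rn_lt n
  exact_mod_cast this

lemma bst_le (n : ℕ) (t : ℝ) : bst n t ≤ Rn (n + 1) := by
  unfold bst
  have h1 := Rn_le' n
  have h2 := mx_pos n (U n t)
  refine max_le (by linarith) ?_
  rw [div_le_iff₀ (by positivity)]
  have h3 : 1 / (8 * (Rn (n + 1) : ℝ)) ≤ max (w (U n t)) (1 / (8 * (Rn (n + 1) : ℝ))) :=
    le_max_right _ _
  have h4 := Rn_pos' (n + 1)
  rw [div_le_iff₀ (by positivity)] at h3
  linarith

lemma bst_low {n : ℕ} {t : ℝ} (h : 8 * (Rn (n + 1) : ℝ) * w (U n t) ≤ 1) :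
    bst n t = Rn (n + 1) := by
  have h1 := Rn_le' n
  have h4 := Rn_pos' (n + 1)
  have h5 : w (U n t) ≤ 1 / (8 * (Rn (n + 1) : ℝ)) := by
    rw [le_div_iff₀ (by positivity)]
    linarith
  unfold bst
  rw [max_eq_right h5]
  have : 1 / (8 * (1 / (8 * (Rn (n + 1) : ℝ)))) = Rn (n + 1) := by
    field_simp
  rw [this]
  exact max_eq_right (by linarith)

lemma bst_high {n : ℕ} {t : ℝ} (h : 1 < 8 * (Rn (n + 1) : ℝ) * w (U n t)) (r : ℝ) :
    r ≤ bst n t ↔ r ≤ Rn n ∨ 8 * r * w (U n t) ≤ 1 := by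
  have h4 := Rn_pos' (n + 1)
  have h5 : 1 / (8 * (Rn (n + 1) : ℝ)) ≤ w (U n t) := by
    rw [div_le_iff₀ (by positivity)]
    linarith
  have h6 : 0 < w (U n t) := lt_of_lt_of_le (by positivity) h5
  unfold bst
  rw [max_eq_left h5, le_max_iff, le_div_iff₀ (by positivity)]
  constructor
  · rintro (h | h)
    · exact Or.inl h
    · right
      linarith
  · rintro (h | h)
    · exact Or.inl h
    · right
      linarith

/-- displacement of the map which pushes the old gaps from `Rn n` to `Rn (n + 1)` -/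
noncomputable def EB (n : ℕ) (x : ℝ × ℝ) : ℝ :=
  (Rn (n + 1) - bst n x.1) * tent (Rn n - 1 / 4) (bst n x.1) (Rn (n + 1) + 1) x.2

lemma EB_cont (n : ℕ) : Continuous (EB n) := by
  have h1 : Continuous fun x : ℝ × ℝ => bst n x.1 := (bst_cont n).comp continuous_fst
  unfold EB tent
  refine (continuous_const.sub h1).mul (continuous_const.max (Continuous.min ?_ ?_))
  · refine (continuous_snd.sub continuous_const).div (h1.sub continuous_const) fun x => ?_
    have := bst_ge n x.1
    intro h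
    linarith
  · refine (continuous_const.sub continuous_snd).div (continuous_const.sub h1) fun x => ?_
    have := bst_le n x.1
    intro h
    linarith

lemma EB_rho (n : ℕ) (t r : ℝ) : r + EB n (t, r)
    = rho (Rn n - 1 / 4) (bst n t) (Rn (n + 1)) (Rn (n + 1) + 1) r := rfl

lemma B_ineq (n : ℕ) (t : ℝ) : (Rn n : ℝ) - 1 / 4 < bst n t ∧ bst n t < Rn (n + 1) + 1 ∧
    (Rn n : ℝ) - 1 / 4 < Rn (n + 1) ∧ (Rn (n + 1) : ℝ) < Rn (n + 1) + 1 := by
  have h1 := bst_ge n t
  have h2 := bst_le n t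
  exact ⟨by linarith, by linarith, by linarith, by linarith⟩

lemma EB_strict (n : ℕ) (t : ℝ) : StrictMono fun r => r + EB n (t, r) := by
  obtain ⟨h1, h2, h3, h4⟩ := B_ineq n t
  exact rho_strict h1 h2 h3 h4

lemma EB_bdd (n : ℕ) : ∃ C, ∀ x, |EB n x| ≤ C := by
  refine ⟨Rn (n + 1), fun x => ?_⟩
  obtain ⟨h1, h2, h3, h4⟩ := B_ineq n x.1
  have h5 := bst_le n x.1
  have h6 := bst_ge n x.1
  have h7 := Rn_pos' n
  unfold EB
  have h8 := tent_nonneg (Rn n - 1 / 4) (bst n x.1) (Rn (n + 1) + 1) x.2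
  have h9 := tent_le_one h1 h2 x.2
  rw [abs_of_nonneg (mul_nonneg (by linarith) h8)]
  nlinarith

/-- the map which pushes the old gaps -/
noncomputable def BH (n : ℕ) : ℝ × ℝ ≃ₜ ℝ × ℝ := radH (EB n) (EB_cont n) (EB_strict n) (EB_bdd n)

lemma BH_apply (n : ℕ) (r t : ℝ) : BH n (r, t) = (r + EB n (t, r), t) := rfl

lemma bst_congr {n : ℕ} {t s : ℝ} (h : w (U n t) = w (U n s)) : bst n t = bst n s := by
  unfold bst
  rw [h]

lemma EB_congr {n : ℕ} {t s : ℝ} (h : w (U n t) = w (U n s)) (r : ℝ) :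
    EB n (t, r) = EB n (s, r) := by
  unfold EB
  simp only
  rw [bst_congr h]

lemma EB_core {n : ℕ} {t : ℝ} (h : w (U n t) = 0) (r : ℝ) : EB n (t, r) = 0 := by
  unfold EB
  simp only
  rw [bst_low (by rw [h]; simp)]
  ring

lemma EB_low {n : ℕ} {t r : ℝ} (h : r ≤ Rn n - 1 / 4) : EB n (t, r) = 0 := by
  obtain ⟨h1, h2, h3, h4⟩ := B_ineq n t
  unfold EB
  simp only
  rw [tent_low h1 h2 h]
  ring

/-! ### pulling the new punctures -/

/-- weight of the pulling map -/
noncomputable def vA (n : ℕ) (f : ℝ) : ℝ :=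
  max 0 (min 1 (min ((2 * n + 1) * f) (2 * n + 1 - 2 * ((2 * n + 1) * f))))

noncomputable def pA (n : ℕ) (f : ℝ) : ℝ :=
  max (Rn n + 1 / 2) (min (Rn n + n - 1 / 2) (Rn n + (2 * n + 1) * f - 1 / 2))

lemma vA_nonneg (n : ℕ) (f : ℝ) : 0 ≤ vA n f := le_max_left _ _

lemma vA_le (n : ℕ) (f : ℝ) : vA n f ≤ 1 := max_le zero_le_one (min_le_left _ _)

lemma vA_zero (n : ℕ) : vA n 0 = 0 := by
  unfold vA
  refine max_eq_left ((min_le_right _ _).trans ((min_le_left _ _).trans ?_))
  simp

lemma vA_one (n : ℕ) : vA n 1 = 0 := by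
  unfold vA
  refine max_eq_left ((min_le_right _ _).trans ((min_le_right _ _).trans ?_))
  have hn : (0 : ℝ) ≤ n := by positivity
  linarith

lemma pA_ge (n : ℕ) (f : ℝ) : (Rn n : ℝ) + 1 / 2 ≤ pA n f := le_max_left _ _

lemma pA_le {n : ℕ} (h : 1 ≤ n) (f : ℝ) : pA n f ≤ Rn (n + 1) - 1 / 2 := by
  have h1 : (1 : ℝ) ≤ n := by exact_mod_cast h
  rw [Rn_succ h]
  push_cast
  exact max_le (by linarith) ((min_le_left _ _).trans (by linarith))

/-- displacement of the pulling map -/
noncomputable def eA (n : ℕ) (r f : ℝ) : ℝ :=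
  vA n f * (5 / 2 - pA n f) * tent (9 / 4) (pA n f) (Rn (n + 1)) r

lemma A_ineq {n : ℕ} (h : 1 ≤ n) (f : ℝ) : 9 / 4 < pA n f ∧ pA n f < Rn (n + 1) ∧
    9 / 4 < pA n f + vA n f * (5 / 2 - pA n f) ∧ pA n f + vA n f * (5 / 2 - pA n f) < Rn (n + 1)
    := by
  have h1 := pA_ge n f
  have h2 := pA_le h f
  have h3 : (3 : ℝ) ≤ Rn n := by exact_mod_cast Rn_three_le h
  have h4 := vA_nonneg n f
  have h5 := vA_le n f
  refine ⟨by linarith, by linarith, by nlinarith, by nlinarith⟩

lemma eA_rho {n : ℕ} (r f : ℝ) : r + eA n r f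
    = rho (9 / 4) (pA n f) (pA n f + vA n f * (5 / 2 - pA n f)) (Rn (n + 1)) r := by
  unfold eA rho
  ring

lemma vA_cont (n : ℕ) : Continuous (vA n) := by
  unfold vA
  fun_prop

lemma pA_cont (n : ℕ) : Continuous (pA n) := by
  unfold pA
  fun_prop

lemma eA_cont {n : ℕ} (h : 1 ≤ n) : Continuous (Function.uncurry (eA n)) := by
  have h1 : Continuous fun x : ℝ × ℝ => pA n x.2 := (pA_cont n).comp continuous_snd
  have h2 : Continuous fun x : ℝ × ℝ => vA n x.2 := (vA_cont n).comp continuous_snd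
  have : Function.uncurry (eA n) = fun x : ℝ × ℝ =>
      vA n x.2 * (5 / 2 - pA n x.2) * tent (9 / 4) (pA n x.2) (Rn (n + 1)) x.1 := rfl
  rw [this]
  unfold tent
  refine (h2.mul (continuous_const.sub h1)).mul (continuous_const.max (Continuous.min ?_ ?_))
  · refine (continuous_fst.sub continuous_const).div (h1.sub continuous_const) fun x => ?_
    have := (A_ineq h x.2).1
    intro h
    linarith
  · refine (continuous_const.sub continuous_fst).div (continuous_const.sub h1) fun x => ?_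
    have := (A_ineq h x.2).2.1
    intro h
    linarith

noncomputable def EA (n : ℕ) (x : ℝ × ℝ) : ℝ := eA n x.2 (Int.fract (U n x.1))

lemma EA_cont {n : ℕ} (h : 1 ≤ n) : Continuous (EA n) := by
  unfold EA
  have h1 : Continuous fun st : ℝ × ℝ => eA n st.1 (Int.fract st.2) := by
    refine ContinuousOn.comp_fract' (eA_cont h).continuousOn fun r => ?_
    unfold eA
    rw [vA_zero, vA_one]
    ring
  have h2 : Continuous fun x : ℝ × ℝ => (x.2, U n x.1) :=
    continuous_snd.prodMk ((U n).continuous.comp continuous_fst)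
  exact h1.comp h2

lemma EA_strict {n : ℕ} (h : 1 ≤ n) (t : ℝ) : StrictMono fun r => r + EA n (t, r) := by
  obtain ⟨h1, h2, h3, h4⟩ := A_ineq h (Int.fract (U n t))
  have := rho_strict h1 h2 h3 h4
  unfold EA
  simp only [eA_rho]
  exact this

lemma EA_bdd {n : ℕ} (h : 1 ≤ n) : ∃ C, ∀ x, |EA n x| ≤ C := by
  refine ⟨Rn (n + 1), fun x => ?_⟩
  obtain ⟨h1, h2, h3, h4⟩ := A_ineq h (Int.fract (U n x.1))
  unfold EA eA
  set f := Int.fract (U n x.1)
  have h8 := tent_nonneg (9 / 4) (pA n f) (Rn (n + 1)) x.2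
  have h9 := tent_le_one h1 h2 x.2
  have h10 := vA_nonneg n f
  have h11 := vA_le n f
  rw [abs_mul, abs_mul, abs_of_nonneg h8, abs_of_nonneg h10]
  have h12 : |5 / 2 - pA n f| ≤ Rn (n + 1) := by
    rw [abs_le]
    constructor <;> linarith
  have h13 : vA n f * |5 / 2 - pA n f| ≤ 1 * Rn (n + 1) :=
    mul_le_mul h11 h12 (abs_nonneg _) zero_le_one
  have h14 : (0 : ℝ) ≤ Rn (n + 1) := (Rn_pos' _).le
  calc vA n f * |5 / 2 - pA n f| * tent (9 / 4) (pA n f) (Rn (n + 1)) x.2
      ≤ (1 * Rn (n + 1)) * 1 := mul_le_mul h13 h9 h8 (by linarith)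
    _ = Rn (n + 1) := by ring

/-- the map which pulls the new punctures -/
noncomputable def AH (n : ℕ) (h : 1 ≤ n) : ℝ × ℝ ≃ₜ ℝ × ℝ :=
  radH (EA n) (EA_cont h) (EA_strict h) (EA_bdd h)

lemma AH_apply (n : ℕ) (h : 1 ≤ n) (r t : ℝ) : AH n h (r, t) = (r + EA n (t, r), t) := rfl

lemma EA_congr {n : ℕ} {t s : ℝ} (h : Int.fract (U n t) = Int.fract (U n s)) (r : ℝ) :
    EA n (t, r) = EA n (s, r) := by
  unfold EA
  simp only
  rw [h]

lemma EA_low {n : ℕ} (hn : 1 ≤ n) {t r : ℝ} (h : r ≤ 9 / 4) : EA n (t, r) = 0 := by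
  obtain ⟨h1, h2, h3, h4⟩ := A_ineq hn (Int.fract (U n t))
  unfold EA eA
  simp only
  rw [tent_low h1 h2 h]
  ring

lemma EA_high {n : ℕ} (hn : 1 ≤ n) {t r : ℝ} (h : Rn (n + 1) ≤ r) : EA n (t, r) = 0 := by
  obtain ⟨h1, h2, h3, h4⟩ := A_ineq hn (Int.fract (U n t))
  unfold EA eA
  simp only
  rw [tent_high h1 h2 h]
  ring

/-- on the rays of the old punctures nothing is moved -/
lemma EA_old {n : ℕ} {t r : ℝ} (h : Int.fract (U n t) = 0) : EA n (t, r) = 0 := by
  unfold EA eA
  simp only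
  rw [h, vA_zero]
  ring

/-- the new punctures are pulled to radius `5 / 2` -/
lemma EA_new {n i : ℕ} (hn : 1 ≤ n) (hi : i < n) {t : ℝ}
    (h : (2 * n + 1) * Int.fract (U n t) = i + 1) :
    (Rn n : ℝ) + i + 1 / 2 + EA n (t, Rn n + i + 1 / 2) = 5 / 2 := by
  obtain ⟨h1, h2, h3, h4⟩ := A_ineq hn (Int.fract (U n t))
  have hi' : (i : ℝ) + 1 ≤ n := by exact_mod_cast hi
  have hi0 : (0 : ℝ) ≤ i := by positivity
  have e1 : pA n (Int.fract (U n t)) = Rn n + i + 1 / 2 := by
    unfold pA
    rw [add_sub_assoc, h, min_eq_right (by linarith), max_eq_right (by linarith)]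
    ring
  have e2 : vA n (Int.fract (U n t)) = 1 := by
    unfold vA
    rw [h, min_eq_left (le_min (by linarith) (by linarith)), max_eq_right zero_le_one]
  unfold EA eA
  simp only
  rw [e1] at h1 h2
  rw [e1, e2, tent_mid h1 h2]
  ring

end Pool.Agent.H350.QAR
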