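import Pool.Agent.H350.QAR.Rad

/-!
# The surface in polar coordinates, the straightening maps and the rotations
-/

set_option autoImplicit false

namespace Pool.Agent.H350.QAR

open Set Topology Pool.Agent.Q238.AR

/-- the surface in the coordinates of level `n`; all the old gaps start at the radius `Rn n` -/
def Sn (n : ℕ) : Set (ℝ × ℝ) :=
  {x | ∀ m, n ≤ m → x.1 ≤ Rn m ∨ 8 * x.1 * w (U m x.2) ≤ 1}

lemma Rn_mono' {m n : ℕ} (h : m ≤ n) : (Rn m : ℝ) ≤ Rn n := by
  exact_mod_cast Rn_strict.monotone h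

lemma Sn_small {n : ℕ} {x : ℝ × ℝ} (h : x.1 ≤ Rn n) : x ∈ Sn n := by
  intro m hm
  exact Or.inl (h.trans (Rn_mono' hm))

lemma le_one_mono {r u v : ℝ} (hr : 0 ≤ r) (huv : u ≤ v) (h : 8 * r * v ≤ 1) : 8 * r * u ≤ 1 := by
  have : r * u ≤ r * v := mul_le_mul_of_nonneg_left huv hr
  linarith

lemma BH_Sn (n : ℕ) (x : ℝ × ℝ) : BH n x ∈ Sn (n + 1) ↔ x ∈ Sn n := by
  obtain ⟨r, t⟩ := x
  rw [BH_apply]
  have hR := Rn_le' n
  have hR0 := Rn_pos' n
  have hw := w_nonneg (U n t)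
  by_cases h : 8 * (Rn (n + 1) : ℝ) * w (U n t) ≤ 1
  · have e : EB n (t, r) = 0 := by
      unfold EB
      simp only
      rw [bst_low h]
      ring
    rw [e, add_zero]
    constructor
    · intro h1 m hm
      rcases hm.eq_or_lt with rfl | hm
      · by_cases h2 : r ≤ 0
        · left
          simp only
          linarith
        · push Not at h2
          rcases h1 (n + 1) le_rfl with h3 | h3
          · right
            simp only at h3 ⊢
            have : r * w (U n t) ≤ Rn (n + 1) * w (U n t) := mul_le_mul_of_nonneg_right h3 hw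
            linarith
          · right
            exact le_one_mono h2.le (w_mono_level (Nat.le_succ n) t) h3
      · exact h1 m hm
    · exact fun h1 m hm => h1 m (by omega)
  · push Not at h
    have h0 : 0 < w (U n t) := by
      by_contra h0
      have : w (U n t) = 0 := le_antisymm (not_lt.1 h0) hw
      rw [this] at h
      norm_num at h
    obtain ⟨i1, i2, i3, i4⟩ := B_ineq n t
    have key : r + EB n (t, r) ≤ Rn (n + 1) ↔ r ≤ bst n t := by
      have h1 : r + EB n (t, r) ≤ bst n t + EB n (t, bst n t) ↔ r ≤ bst n t :=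
        (EB_strict n t).le_iff_le
      rw [EB_rho n t (bst n t), rho_mid i1 i2] at h1
      exact h1
    have hA : ((r + EB n (t, r), t) : ℝ × ℝ) ∈ Sn (n + 1) ↔ r + EB n (t, r) ≤ Rn (n + 1) := by
      constructor
      · intro h1
        rcases h1 (n + 1) le_rfl with h2 | h2
        · exact h2
        · simp only at h2
          rw [w_const_level (Nat.le_succ n) h0] at h2
          by_contra h3
          push Not at h3
          have : Rn (n + 1) * w (U n t) < (r + EB n (t, r)) * w (U n t) :=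
            mul_lt_mul_of_pos_right h3 h0
          linarith
      · exact fun h1 => Sn_small h1
    have hB : ((r, t) : ℝ × ℝ) ∈ Sn n ↔ (r ≤ Rn n ∨ 8 * r * w (U n t) ≤ 1) := by
      constructor
      · exact fun h1 => h1 n le_rfl
      · rintro (h1 | h1) m hm
        · exact Or.inl (h1.trans (Rn_mono' hm))
        · right
          simp only
          rw [w_const_level hm h0]
          exact h1
    rw [hA, hB, key, bst_high h]

lemma AH_Sn {n : ℕ} (hn : 1 ≤ n) (x : ℝ × ℝ) : AH n hn x ∈ Sn (n + 1) ↔ x ∈ Sn (n + 1) := by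
  obtain ⟨r, t⟩ := x
  rw [AH_apply]
  rcases le_total r (Rn (n + 1)) with h | h
  · have h1 : r + EA n (t, r) ≤ Rn (n + 1) := by
      have h2 : r + EA n (t, r) ≤ Rn (n + 1) + EA n (t, Rn (n + 1)) :=
        (EA_strict hn t).monotone h
      rw [EA_high hn le_rfl, add_zero] at h2
      exact h2
    exact ⟨fun _ => Sn_small h, fun _ => Sn_small h1⟩
  · rw [EA_high hn h, add_zero]

/-- the step from the coordinates of level `n` to those of level `n + 1` -/
noncomputable def Psi : ℕ → (ℝ × ℝ ≃ₜ ℝ × ℝ)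
  | 0 => BH 0
  | n + 1 => AH (n + 1) (Nat.le_add_left 1 n) * BH (n + 1)

lemma Psi_Sn (n : ℕ) (x : ℝ × ℝ) : Psi n x ∈ Sn (n + 1) ↔ x ∈ Sn n := by
  rcases n with _ | n
  · exact BH_Sn 0 x
  · exact (AH_Sn (Nat.le_add_left 1 n) (BH (n + 1) x)).trans (BH_Sn (n + 1) x)

/-- from the surface to its copy of level `n` -/
noncomputable def Ph : ℕ → (ℝ × ℝ ≃ₜ ℝ × ℝ)
  | 0 => 1
  | n + 1 => Psi n * Ph n

lemma Ph_Sn (n : ℕ) (x : ℝ × ℝ) : Ph n x ∈ Sn n ↔ x ∈ Sn 0 := by
  induction n with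
  | zero => exact Iff.rfl
  | succ n ih => exact (Psi_Sn n (Ph n x)).trans ih

/-! ### the maps are radial -/

/-- radial maps: they keep the angle, commute with the rotation by a full turn, and are
increasing on all rays -/
structure Radial (f : ℝ × ℝ ≃ₜ ℝ × ℝ) : Prop where
  snd : ∀ x, (f x).2 = x.2
  add : ∀ x, f (x + (0, 1)) = f x + (0, 1)
  low : ∀ x : ℝ × ℝ, x.1 ≤ 1 / 2 → f x = x
  mono : ∀ t, StrictMono fun r => (f (r, t)).1

lemma Radial.one : Radial 1 where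
  snd _ := rfl
  add _ := rfl
  low _ _ := rfl
  mono _ := strictMono_id

lemma Radial.mul {f g : ℝ × ℝ ≃ₜ ℝ × ℝ} (hf : Radial f) (hg : Radial g) : Radial (f * g) where
  snd x := (hf.snd (g x)).trans (hg.snd x)
  add x := by
    change f (g (x + (0, 1))) = f (g x) + (0, 1)
    rw [hg.add, hf.add]
  low x hx := by
    change f (g x) = x
    rw [hg.low x hx, hf.low x hx]
  mono t := by
    have h : (fun r => ((f * g) (r, t)).1) = (fun r => (f (r, t)).1) ∘ fun r => (g (r, t)).1 := by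
      funext r
      change (f (g (r, t))).1 = (f ((g (r, t)).1, t)).1
      congr 2
      ext
      · rfl
      · exact hg.snd (r, t)
    rw [h]
    exact (hf.mono t).comp (hg.mono t)

lemma Radial.mem {f : ℝ × ℝ ≃ₜ ℝ × ℝ} (hf : Radial f) : f ∈ EE := by
  refine ⟨hf.add, fun x => ?_⟩
  obtain ⟨r, t⟩ := x
  have h1 : (f (r, t)).1 ≤ (f (0, t)).1 ↔ r ≤ 0 := (hf.mono t).le_iff_le
  rw [hf.low (0, t) (by norm_num)] at h1
  exact h1

lemma BH_radial (n : ℕ) : Radial (BH n) where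
  snd _ := rfl
  add x := by
    obtain ⟨r, t⟩ := x
    have e : ((r, t) : ℝ × ℝ) + (0, 1) = (r, t + 1) := by simp
    rw [e, BH_apply, BH_apply, EB_congr (s := t)]
    · simp
    · rw [U_add_one, w_add_nat]
  low x hx := by
    obtain ⟨r, t⟩ := x
    simp only at hx
    have : (1 : ℝ) ≤ Rn n := by exact_mod_cast Rn_one_le n
    rw [BH_apply, EB_low (by linarith), add_zero]
  mono t := EB_strict n t

lemma AH_radial {n : ℕ} (hn : 1 ≤ n) : Radial (AH n hn) where
  snd _ := rfl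
  add x := by
    obtain ⟨r, t⟩ := x
    have e : ((r, t) : ℝ × ℝ) + (0, 1) = (r, t + 1) := by simp
    rw [e, AH_apply, AH_apply, EA_congr (s := t)]
    · simp
    · rw [U_add_one, Int.fract_add_natCast]
  low x hx := by
    obtain ⟨r, t⟩ := x
    simp only at hx
    rw [AH_apply, EA_low hn (by linarith), add_zero]
  mono t := EA_strict hn t

lemma Psi_radial (n : ℕ) : Radial (Psi n) := by
  rcases n with _ | n
  · exact BH_radial 0
  · exact (AH_radial _).mul (BH_radial _)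

lemma Ph_radial (n : ℕ) : Radial (Ph n) := by
  induction n with
  | zero => exact Radial.one
  | succ n ih => exact (Psi_radial n).mul ih

/-! ### the rotations -/

/-- zero for `r ≤ 7 / 4`, one for `2 ≤ r` -/
noncomputable def chi (r : ℝ) : ℝ := max 0 (min 1 (4 * r - 7))

lemma chi_cont : Continuous chi := by unfold chi; fun_prop

lemma chi_nonneg (r : ℝ) : 0 ≤ chi r := le_max_left _ _

lemma chi_le (r : ℝ) : chi r ≤ 1 := max_le zero_le_one (min_le_left _ _)

lemma chi_low {r : ℝ} (h : r ≤ 7 / 4) : chi r = 0 :=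
  max_eq_left ((min_le_right _ _).trans (by linarith))

lemma chi_high {r : ℝ} (h : 2 ≤ r) : chi r = 1 := by
  unfold chi
  rw [min_eq_left (by linarith), max_eq_right zero_le_one]

lemma tau_gt (n : ℕ) (t : ℝ) : t < tau n t := by
  rw [← (U_strict n).lt_iff_lt, U_tau]
  linarith

lemma tau_le (n : ℕ) (t : ℝ) : tau n t ≤ t + 1 := by
  rw [← (U_strict n).le_iff_le, U_tau, U_add_one]
  have : (1 : ℝ) ≤ (n.factorial : ℕ) := by exact_mod_cast Nat.factorial_pos n
  linarith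

/-- interpolation between the identity and an increasing map -/
lemma mix_strict {f : ℝ → ℝ} (hf : StrictMono f) {c : ℝ} (h0 : 0 ≤ c) (h1 : c ≤ 1) :
    StrictMono fun t => t + c * (f t - t) := by
  intro s t h
  have h2 := hf h
  simp only
  rcases h0.eq_or_lt with h3 | h3
  · rw [← h3]
    linarith
  · nlinarith

lemma mix_surj {f : ℝ → ℝ} (hc : Continuous f) (C : ℝ) (hb : ∀ t, |f t - t| ≤ C) {c : ℝ}
    (h0 : 0 ≤ c) (h1 : c ≤ 1) : Function.Surjective fun t => t + c * (f t - t) := by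
  refine surj_of_near' (by fun_prop) C fun t => ?_
  simp only [add_sub_cancel_left]
  rw [abs_mul, abs_of_nonneg h0]
  have := hb t
  have := abs_nonneg (f t - t)
  nlinarith

lemma tau_near (n : ℕ) (t : ℝ) : |tau n t - t| ≤ 1 := by
  have h1 := tau_gt n t
  have h2 := tau_le n t
  rw [abs_of_nonneg (by linarith)]
  linarith

/-- the rotation by one sector of level `n`, in the coordinates of level `n` -/
noncomputable def Tn (n : ℕ) : ℝ × ℝ ≃ₜ ℝ × ℝ :=
  fib (fun x => x.2 + chi x.1 * (tau n x.2 - x.2))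
    (by
      have h1 := chi_cont
      have h2 := (tau n).continuous
      fun_prop)
    (fun a => mix_strict (tau_strict n) (chi_nonneg a) (chi_le a))
    (fun a => mix_surj (tau n).continuous 1 (tau_near n) (chi_nonneg a) (chi_le a))

lemma Tn_apply (n : ℕ) (r t : ℝ) : Tn n (r, t) = (r, t + chi r * (tau n t - t)) := rfl

lemma Tn_high {n : ℕ} {r t : ℝ} (h : 2 ≤ r) : Tn n (r, t) = (r, tau n t) := by
  rw [Tn_apply, chi_high h]
  congr 1
  ring

lemma Tn_low {n : ℕ} {r t : ℝ} (h : r ≤ 7 / 4) : Tn n (r, t) = (r, t) := by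
  rw [Tn_apply, chi_low h]
  congr 1
  ring

lemma Tn_fst (n : ℕ) (x : ℝ × ℝ) : (Tn n x).1 = x.1 := rfl

lemma Tn_mem (n : ℕ) : Tn n ∈ EE := by
  refine ⟨fun x => ?_, fun x => Iff.rfl⟩
  obtain ⟨r, t⟩ := x
  have e : ((r, t) : ℝ × ℝ) + (0, 1) = (r, t + 1) := by simp
  rw [e, Tn_apply, Tn_apply, tau_add_one]
  ext
  · simp
  · simp only [Prod.snd_add]
    ring

lemma Tn_Sn {n : ℕ} (hn : 1 ≤ n) (x : ℝ × ℝ) : Tn n x ∈ Sn n ↔ x ∈ Sn n := by
  obtain ⟨r, t⟩ := x
  rcases le_total r 2 with h | h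
  · have h3 : (3 : ℝ) ≤ Rn n := by exact_mod_cast Rn_three_le hn
    exact ⟨fun _ => Sn_small (by simp only; linarith),
      fun _ => Sn_small (by rw [Tn_fst]; simp only; linarith)⟩
  · rw [Tn_high h]
    unfold Sn
    simp only [mem_ofPred_eq]
    refine forall_congr' fun m => forall_congr' fun hm => ?_
    rw [w_tau hm]

lemma Psi_Tn {n : ℕ} (hn : 1 ≤ n) (x : ℝ × ℝ) : Psi n (Tn n x) = Tn n (Psi n x) := by
  obtain ⟨m, rfl⟩ := Nat.exists_eq_add_of_le' hn
  have h3 : (3 : ℝ) ≤ Rn (m + 1) := by exact_mod_cast Rn_three_le hn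
  have hB : ∀ x, BH (m + 1) (Tn (m + 1) x) = Tn (m + 1) (BH (m + 1) x) := by
    rintro ⟨r, t⟩
    rcases le_total r 2 with h | h
    · rw [Tn_apply, BH_apply, EB_low (by linarith), BH_apply, EB_low (by linarith), add_zero,
        Tn_apply]
    · rw [Tn_high h, BH_apply, BH_apply, EB_congr (s := t), Tn_high]
      · have h5 : 2 + EB (m + 1) (t, 2) ≤ r + EB (m + 1) (t, r) := (EB_strict (m + 1) t).monotone h
        rw [EB_low (r := 2) (by linarith)] at h5
        linarith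
      · exact w_tau le_rfl t
  have hA : ∀ x, AH (m + 1) hn (Tn (m + 1) x) = Tn (m + 1) (AH (m + 1) hn x) := by
    rintro ⟨r, t⟩
    rcases le_total r 2 with h | h
    · rw [Tn_apply, AH_apply, EA_low hn (by linarith), AH_apply, EA_low hn (by linarith),
        add_zero, Tn_apply]
    · rw [Tn_high h, AH_apply, AH_apply, EA_congr (s := t), Tn_high]
      · have h5 : 2 + EA (m + 1) (t, 2) ≤ r + EA (m + 1) (t, r) := (EA_strict hn t).monotone h
        rw [EA_low (r := 2) hn (by norm_num)] at h5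
        linarith
      · rw [U_tau]
        exact Int.fract_add_one _
  change AH (m + 1) hn (BH (m + 1) (Tn (m + 1) x)) = Tn (m + 1) (AH (m + 1) hn (BH (m + 1) x))
  rw [hB, hA]

/-- the roots of the Dehn twist, in polar coordinates -/
noncomputable def Hn (n : ℕ) : ℝ × ℝ ≃ₜ ℝ × ℝ := (Ph n)⁻¹ * Tn n * Ph n

lemma Ph_Hn (n : ℕ) (x : ℝ × ℝ) : Ph n (Hn n x) = Tn n (Ph n x) := by
  change Ph n ((Ph n).symm (Tn n (Ph n x))) = _
  rw [Homeomorph.apply_symm_apply]

lemma Hn_mem (n : ℕ) : Hn n ∈ EE :=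
  EE.mul_mem (EE.mul_mem (EE.inv_mem (Ph_radial n).mem) (Tn_mem n)) (Ph_radial n).mem

lemma Hn_Sn {n : ℕ} (hn : 1 ≤ n) (x : ℝ × ℝ) : Hn n x ∈ Sn 0 ↔ x ∈ Sn 0 := by
  rw [← Ph_Sn n, Ph_Hn, Tn_Sn hn, Ph_Sn]

/-! ### outside the disc of radius `Rn n` -/

lemma Psi_large {n : ℕ} {x : ℝ × ℝ} (hx : x ∈ Sn n) (h : Rn (n + 1) ≤ x.1) : Psi n x = x := by
  obtain ⟨r, t⟩ := x
  have hB : BH n (r, t) = (r, t) := by
    rw [BH_apply]
    have hw := w_nonneg (U n t)
    have hr := Rn_le' n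
    have hr0 := Rn_pos' n
    simp only at h
    rcases hx n le_rfl with h1 | h1
    · simp only at h1
      linarith
    · simp only at h1
      have : 8 * (Rn (n + 1) : ℝ) * w (U n t) ≤ 1 := by
        have : (Rn (n + 1) : ℝ) * w (U n t) ≤ r * w (U n t) := mul_le_mul_of_nonneg_right h hw
        linarith
      unfold EB
      simp only
      rw [bst_low this]
      simp
  rcases n with _ | n
  · exact hB
  · change AH (n + 1) (Nat.le_add_left 1 n) (BH (n + 1) (r, t)) = (r, t)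
    rw [hB, AH_apply, EA_high (Nat.le_add_left 1 n) h, add_zero]

lemma Ph_large {n : ℕ} {x : ℝ × ℝ} (hx : x ∈ Sn 0) (h : Rn n ≤ x.1) : Ph n x = x := by
  induction n with
  | zero => rfl
  | succ n ih =>
    have h1 := Rn_le' n
    have h2 := ih (by linarith)
    change Psi n (Ph n x) = x
    have h3 := (Ph_Sn n x).2 hx
    rw [h2] at h3 ⊢
    exact Psi_large h3 h

lemma BH_le {n : ℕ} {x : ℝ × ℝ} (hx : x ∈ Sn n) (h : x.1 ≤ Rn (n + 1)) :
    (BH n x).1 ≤ Rn (n + 1) := by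
  obtain ⟨r, t⟩ := x
  rw [BH_apply]
  simp only at h ⊢
  by_cases h1 : 8 * (Rn (n + 1) : ℝ) * w (U n t) ≤ 1
  · have e : EB n (t, r) = 0 := by
      unfold EB
      simp only
      rw [bst_low h1]
      ring
    rw [e, add_zero]
    exact h
  · push Not at h1
    obtain ⟨i1, i2, i3, i4⟩ := B_ineq n t
    have h2 : r ≤ bst n t := (bst_high h1 r).2 (hx n le_rfl)
    have h3 : r + EB n (t, r) ≤ bst n t + EB n (t, bst n t) := (EB_strict n t).monotone h2
    rw [EB_rho n t (bst n t), rho_mid i1 i2] at h3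
    exact h3

lemma Psi_le' {n : ℕ} {x : ℝ × ℝ} (hx : x ∈ Sn n) (h : x.1 ≤ Rn (n + 1)) :
    (Psi n x).1 ≤ Rn (n + 1) := by
  have h1 := BH_le hx h
  rcases n with _ | n
  · exact h1
  · change (AH (n + 1) (Nat.le_add_left 1 n) (BH (n + 1) x)).1 ≤ _
    generalize BH (n + 1) x = y at h1
    obtain ⟨r, t⟩ := y
    rw [AH_apply]
    simp only at h1 ⊢
    have h2 : r + EA (n + 1) (t, r) ≤ Rn (n + 1 + 1) + EA (n + 1) (t, Rn (n + 1 + 1)) :=
      (EA_strict (Nat.le_add_left 1 n) t).monotone h1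
    rw [EA_high (Nat.le_add_left 1 n) le_rfl, add_zero] at h2
    exact h2

lemma Psi_le {n : ℕ} {x : ℝ × ℝ} (hx : x ∈ Sn n) {c : ℝ} (hc : Rn (n + 1) ≤ c) :
    (Psi n x).1 ≤ c ↔ x.1 ≤ c := by
  rcases le_total x.1 (Rn (n + 1)) with h | h
  · exact ⟨fun _ => h.trans hc, fun _ => (Psi_le' hx h).trans hc⟩
  · rw [Psi_large hx h]

lemma Ph_le {n : ℕ} {x : ℝ × ℝ} (hx : x ∈ Sn 0) {c : ℝ} (hc : Rn n ≤ c) :
    (Ph n x).1 ≤ c ↔ x.1 ≤ c := by
  induction n with
  | zero => exact Iff.rfl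
  | succ n ih =>
    have h1 := Rn_le' n
    exact (Psi_le ((Ph_Sn n x).2 hx) hc).trans (ih (by linarith))

lemma Hn_large {n : ℕ} {x : ℝ × ℝ} (hn : 1 ≤ n) (hx : x ∈ Sn 0) (h : Rn n ≤ x.1)
    (hw : 8 * x.1 * w (U n x.2) ≤ 1) : Hn n x = (x.1, tau n x.2) := by
  obtain ⟨r, t⟩ := x
  have h3 : (3 : ℝ) ≤ Rn n := by exact_mod_cast Rn_three_le hn
  simp only at h hw ⊢
  have e1 : Ph n (Hn n (r, t)) = (r, tau n t) := by
    rw [Ph_Hn, Ph_large hx h, Tn_high (by linarith)]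
  have hx2 : ((r, tau n t) : ℝ × ℝ) ∈ Sn 0 := by
    intro m hm
    rcases Nat.lt_or_ge m n with h5 | h5
    · right
      simp only
      have h7 : w (U n (tau n t)) = w (U n t) := w_tau le_rfl t
      rw [← h7] at hw
      exact le_one_mono (by linarith) (w_mono_level h5.le _) hw
    · rcases hx m (Nat.zero_le _) with h6 | h6
      · exact Or.inl h6
      · right
        simp only at h6 ⊢
        rw [w_tau h5]
        exact h6
  apply (Ph n).injective
  rw [e1, Ph_large hx2 h]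

/-! ### the punctures -/

/-- the punctures apart from the origin, in the coordinates of level `n` -/
def Mk (n : ℕ) : Set (ℝ × ℝ) :=
  {x | (∃ j : ℤ, x = ((3 : ℝ) / 2, (j : ℝ))) ∨ (∃ j : ℤ, x = ((5 : ℝ) / 2, (U n).symm j)) ∨
    ∃ m i : ℕ, ∃ j : ℤ, n ≤ m ∧ i < m ∧
      x = ((Rn m : ℝ) + i + 1 / 2, (U (m + 1)).symm ((m + 1) * j + i + 1))}

lemma U_int {n m : ℕ} (h : n ≤ m) {t : ℝ} {j : ℤ} (ht : U n t = j) : ∃ k : ℤ, U m t = k := by
  induction m, h using Nat.le_induction with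
  | base => exact ⟨j, ht⟩
  | succ m _ ih =>
    obtain ⟨k, hk⟩ := ih
    refine ⟨(m + 1) * k, ?_⟩
    rw [U_succ, hk, V_int]
    push_cast
    ring

lemma core_of_int {n : ℕ} {t : ℝ} {j : ℤ} (ht : U n t = j) (m : ℕ) : w (U m t) = 0 := by
  rcases le_total n m with h | h
  · obtain ⟨k, hk⟩ := U_int h ht
    rw [hk, w_int]
  · refine le_antisymm ?_ (w_nonneg _)
    calc w (U m t) ≤ w (U n t) := w_mono_level h t
      _ = 0 := by rw [ht, w_int]

lemma Mk_core {n : ℕ} {x : ℝ × ℝ} (hx : x ∈ Mk n) (m : ℕ) : w (U m x.2) = 0 := by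
  rcases hx with ⟨j, rfl⟩ | ⟨j, rfl⟩ | ⟨k, i, j, -, -, rfl⟩
  · exact core_of_int (n := 0) (j := j) rfl m
  · exact core_of_int (n := n) (j := j) ((U n).apply_symm_apply _) m
  · refine core_of_int (n := k + 1) (j := (k + 1) * j + i + 1) ?_ m
    simp only
    rw [Homeomorph.apply_symm_apply]
    push_cast
    ring

lemma BH_Mk (n k : ℕ) {x : ℝ × ℝ} (hx : x ∈ Mk k) : BH n x = x := by
  have h := Mk_core hx n
  obtain ⟨r, t⟩ := x
  rw [BH_apply, EB_core h, add_zero]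

lemma Usymm_old (n : ℕ) (j : ℤ) : (U (n + 1)).symm ((n + 1) * j) = (U n).symm j := by
  rw [Homeomorph.symm_apply_eq, U_succ, Homeomorph.apply_symm_apply, V_int]

lemma fract_new {n i : ℕ} (hi : i < n) (j : ℤ) :
    (2 * n + 1) * Int.fract (U n ((U (n + 1)).symm ((n + 1) * j + i + 1))) = i + 1 := by
  have hi' : (i : ℝ) + 1 ≤ n := by exact_mod_cast hi
  have hi0 : (0 : ℝ) ≤ i := by positivity
  have hn2 : (0 : ℝ) < 2 * n + 1 := by positivity
  have h1 : 0 ≤ ((i : ℝ) + 1) / (2 * n + 1) := by positivity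
  have h2 : ((i : ℝ) + 1) / (2 * n + 1) ≤ 1 / 2 := by
    rw [div_le_iff₀ hn2]
    linarith
  have e : (U (n + 1)).symm ((n + 1) * j + i + 1) = (U n).symm (j + (i + 1) / (2 * n + 1)) := by
    rw [Homeomorph.symm_apply_eq, U_succ, Homeomorph.apply_symm_apply,
      V_sector j (by linarith) (by linarith), add_sub_cancel_left, mul_div_cancel₀ _ hn2.ne']
    ring
  rw [e, Homeomorph.apply_symm_apply, Int.fract_intCast_add, Int.fract_eq_self.2 ⟨h1, by linarith⟩,
    mul_div_cancel₀ _ hn2.ne']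

lemma Psi_Mk_aux {n : ℕ} {x : ℝ × ℝ} (hx : x ∈ Mk n) : Psi n x ∈ Mk (n + 1) := by
  have hB := BH_Mk n n hx
  rcases n with _ | n
  · change BH 0 x ∈ _
    rw [hB]
    rcases hx with ⟨j, rfl⟩ | ⟨j, rfl⟩ | ⟨m, i, j, h1, h2, rfl⟩
    · exact Or.inl ⟨j, rfl⟩
    · refine Or.inr (Or.inl ⟨j, ?_⟩)
      have := Usymm_old 0 j
      simp only [Nat.cast_zero, zero_add, one_mul] at this
      rw [this]
    · exact Or.inr (Or.inr ⟨m, i, j, by omega, h2, rfl⟩)
  · change AH (n + 1) (Nat.le_add_left 1 n) (BH (n + 1) x) ∈ _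
    have hn : 1 ≤ n + 1 := Nat.le_add_left 1 n
    rw [hB]
    rcases hx with ⟨j, rfl⟩ | ⟨j, rfl⟩ | ⟨m, i, j, h1, h2, rfl⟩
    · left
      refine ⟨j, ?_⟩
      rw [AH_apply, EA_low hn (by norm_num), add_zero]
    · right
      left
      refine ⟨(n + 1 + 1 : ℕ) * j, ?_⟩
      rw [AH_apply, EA_old, add_zero]
      · congr 1
        rw [← Usymm_old (n + 1) j]
        push_cast
        rfl
      · rw [Homeomorph.apply_symm_apply, Int.fract_intCast]
    · rcases h1.eq_or_lt with rfl | h1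
      · right
        left
        refine ⟨(n + 1 + 1 : ℕ) * j + i + 1, ?_⟩
        rw [AH_apply, EA_new hn h2 (fract_new h2 j)]
        congr 2
        push_cast
        ring
      · right
        right
        refine ⟨m, i, j, h1, h2, ?_⟩
        have h3 : (Rn (n + 1 + 1) : ℝ) ≤ Rn m := Rn_mono' h1
        have h4 : (0 : ℝ) ≤ i := by positivity
        rw [AH_apply, EA_high hn (by linarith), add_zero]

lemma Psi_Mk_surj {n : ℕ} {y : ℝ × ℝ} (hy : y ∈ Mk (n + 1)) : ∃ x ∈ Mk n, Psi n x = y := by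
  rcases n with _ | n
  · refine ⟨y, ?_, BH_Mk 0 _ hy⟩
    rcases hy with ⟨j, rfl⟩ | ⟨j, rfl⟩ | ⟨m, i, j, h1, h2, rfl⟩
    · exact Or.inl ⟨j, rfl⟩
    · refine Or.inr (Or.inl ⟨j, ?_⟩)
      have := Usymm_old 0 j
      simp only [Nat.cast_zero, zero_add, one_mul] at this
      rw [this]
    · exact Or.inr (Or.inr ⟨m, i, j, by omega, h2, rfl⟩)
  · have hn : 1 ≤ n + 1 := Nat.le_add_left 1 n
    have key : ∀ x, x ∈ Mk (n + 1) → AH (n + 1) hn x = y → ∃ x ∈ Mk (n + 1), Psi (n + 1) x = y := by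
      intro x hx hxy
      refine ⟨x, hx, ?_⟩
      change AH (n + 1) (Nat.le_add_left 1 n) (BH (n + 1) x) = y
      rw [BH_Mk _ _ hx, hxy]
    rcases hy with ⟨j, rfl⟩ | ⟨k, rfl⟩ | ⟨m, i, j, h1, h2, rfl⟩
    · refine key _ (Or.inl ⟨j, rfl⟩) ?_
      rw [AH_apply, EA_low hn (by norm_num), add_zero]
    · -- split `k`
      have hpos : (0 : ℤ) < (n + 1 + 1 : ℕ) := by positivity
      have hd := Int.mul_ediv_add_emod k (n + 1 + 1 : ℕ)
      have hr0 := Int.emod_nonneg k hpos.ne'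
      have hr1 := Int.emod_lt_of_pos k hpos
      set j := k / ((n + 1 + 1 : ℕ) : ℤ)
      obtain ⟨i', hi'⟩ := Int.eq_ofNat_of_zero_le hr0
      rw [hi'] at hd hr1
      rcases i' with _ | i
      · refine key ((5 : ℝ) / 2, (U (n + 1)).symm j) (Or.inr (Or.inl ⟨j, rfl⟩)) ?_
        rw [AH_apply, EA_old, add_zero]
        · congr 1
          rw [← Usymm_old (n + 1) j, ← hd]
          push_cast
          ring_nf
        · rw [Homeomorph.apply_symm_apply, Int.fract_intCast]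
      · have hi2 : i < n + 1 := by
          have : (((i + 1 : ℕ)) : ℤ) < ((n + 1 + 1 : ℕ) : ℤ) := hr1
          have := Int.ofNat_lt.1 this
          omega
        refine key _ (Or.inr (Or.inr ⟨n + 1, i, j, le_rfl, hi2, rfl⟩)) ?_
        rw [AH_apply, EA_new hn hi2 (fract_new hi2 j)]
        congr 2
        rw [← hd]
        push_cast
        ring
    · refine key _ (Or.inr (Or.inr ⟨m, i, j, by omega, h2, rfl⟩)) ?_
      have h3 : (Rn (n + 1 + 1) : ℝ) ≤ Rn m := Rn_mono' h1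
      have h4 : (0 : ℝ) ≤ i := by positivity
      rw [AH_apply, EA_high hn (by linarith), add_zero]

lemma Psi_Mk (n : ℕ) (x : ℝ × ℝ) : Psi n x ∈ Mk (n + 1) ↔ x ∈ Mk n := by
  refine ⟨fun h => ?_, Psi_Mk_aux⟩
  obtain ⟨y, hy, hxy⟩ := Psi_Mk_surj h
  rwa [← (Psi n).injective hxy]

lemma Ph_Mk (n : ℕ) (x : ℝ × ℝ) : Ph n x ∈ Mk n ↔ x ∈ Mk 0 := by
  induction n with
  | zero => exact Iff.rfl
  | succ n ih => exact (Psi_Mk n (Ph n x)).trans ih

lemma tau_symm_int (n : ℕ) (x : ℝ) : tau n ((U n).symm x) = (U n).symm (x + 1) := by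
  rw [Homeomorph.eq_symm_apply, U_tau, Homeomorph.apply_symm_apply]

lemma Tn_Mk_both {n : ℕ} (x : ℝ × ℝ) (hx : x ∈ Mk n) :
    Tn n x ∈ Mk n ∧ ∃ y ∈ Mk n, Tn n y = x := by
  rcases hx with ⟨j, rfl⟩ | ⟨j, rfl⟩ | ⟨m, i, j, h1, h2, rfl⟩
  · have h : Tn n ((3 : ℝ) / 2, (j : ℝ)) = ((3 : ℝ) / 2, (j : ℝ)) := Tn_low (by norm_num)
    exact ⟨by rw [h]; exact Or.inl ⟨j, rfl⟩, _, Or.inl ⟨j, rfl⟩, h⟩
  · constructor
    · rw [Tn_high (by norm_num)]
      refine Or.inr (Or.inl ⟨j + 1, ?_⟩)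
      rw [tau_symm_int]
      push_cast
      rfl
    · refine ⟨((5 : ℝ) / 2, (U n).symm ((j - 1 : ℤ) : ℝ)), Or.inr (Or.inl ⟨j - 1, rfl⟩), ?_⟩
      rw [Tn_high (by norm_num), tau_symm_int]
      push_cast
      ring_nf
  · obtain ⟨d, rfl⟩ := Nat.exists_eq_add_of_le h1
    obtain ⟨c, -, hc⟩ := U_tau_ge n d
    have hR : (1 : ℝ) ≤ Rn (n + d) := by exact_mod_cast Rn_one_le _
    have hR3 : (3 : ℝ) ≤ Rn (n + d) := by exact_mod_cast Rn_three_le (by omega)
    have hi0 : (0 : ℝ) ≤ i := by positivity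
    have key : ∀ x : ℝ, tau n ((U (n + d + 1)).symm x)
        = (U (n + d + 1)).symm (x + ((n + d : ℕ) + 1) * c) := by
      intro x
      rw [Homeomorph.eq_symm_apply, U_succ, hc, show ((c : ℕ) : ℝ) = ((c : ℤ) : ℝ) by
        push_cast; rfl, V_add_int, ← U_succ, Homeomorph.apply_symm_apply]
    constructor
    · rw [Tn_high (by linarith)]
      refine Or.inr (Or.inr ⟨n + d, i, j + c, h1, h2, ?_⟩)
      rw [key]
      congr 2
      push_cast
      ring
    · refine ⟨_, Or.inr (Or.inr ⟨n + d, i, j - c, h1, h2, rfl⟩), ?_⟩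
      rw [Tn_high (by linarith), key]
      congr 2
      push_cast
      ring

lemma Tn_Mk {n : ℕ} (x : ℝ × ℝ) : Tn n x ∈ Mk n ↔ x ∈ Mk n := by
  refine ⟨fun h => ?_, fun h => (Tn_Mk_both x h).1⟩
  obtain ⟨y, hy, hxy⟩ := (Tn_Mk_both _ h).2
  rwa [← (Tn n).injective hxy]

lemma Hn_Mk (n : ℕ) (x : ℝ × ℝ) : Hn n x ∈ Mk 0 ↔ x ∈ Mk 0 := by
  rw [← Ph_Mk n, Ph_Hn, Tn_Mk, Ph_Mk]

end Pool.Agent.H350.QAR
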